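import Pool.Agent.Helper7.MK.Defs
import Pool.Agent.Helper42.IR.Typ

/-!
# Project IR, section 5.2: matched characters, one prime at a time
-/

namespace Pool.Agent.Helper42.IR.F

open Pool.Agent.Helper42.INC Pool.Agent.Helper42.IR Pool.Agent.Helper7.MK

/-- `MatchedAut` for a group `R0` of automorphisms (each preserving `T`) instead of `AutTh T θ` -/
def MatchedOn {K : Type} [Group K] (T : Subgroup K) (θ : K → ℂ) (φ : T → ℂ)
    (R0 : Subgroup (MulAut K)) : Prop :=
  ∃ (d : ℕ) (D : K × T →* Matrix (Fin d) (Fin d) ℂ) (R : R0 →* Matrix (Fin d) (Fin d) ℂ),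
    (∀ k t, (D (k, t)).trace = θ k * φ t⁻¹) ∧
    (∀ (α : R0) (k : K) (t t' : T), (t' : K) = α.1 t →
      R α * D (k, t) = D (α.1 k, t') * R α) ∧
    (∀ (α : R0) (t : T), α.1 = MulAut.conj (t : K) → R α = D (t, t))

end Pool.Agent.Helper42.IR.F
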