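import Mathlib

/-!
# IR-59 (project IR, section 5.2): group theory by transfer

* `four_dvd`: a perfect finite group of even order has order divisible by `4`: if a Sylow
  `2`-subgroup `P` has order `2`, its automorphism group is trivial, so the normalizer centralizes `P`,
  and Burnside's transfer theorem (Mathlib: `MonoidHom.ker_transferSylow_isComplement'` /
  `Sylow.normalizer_le_centralizer`-type results) gives a normal complement `N` of `P`; `G / N ≅ P` is
  abelian and nontrivial, contradicting perfectness.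
* `le_derived`: `K` perfect, `Q` a subgroup of order `p`, `p² ∤ |K|`: every `x ∈ Q` is in the commutator
  subgroup of `T = normalizer Q`. If `T` centralized `Q`, Burnside's transfer theorem would give a normal
  complement of the Sylow subgroup `Q`, with abelian nontrivial quotient. So some `t ∈ T` and `y ∈ Q`
  have `t y t⁻¹ y⁻¹ ≠ 1`; it is in `Q`, so it generates `Q` (order `p`), and it is a commutator of
  elements of `T` (`Q ≤ T`).
-/

open scoped commutatorElement

namespace Pool.Agent.Helper42.IR.F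

private theorem notwo_aux {p : ℕ} [Fact p.Prime] (K : Type) [Group K] [Finite K]
    (hperf : ⁅(⊤ : Subgroup K), (⊤ : Subgroup K)⁆ = ⊤) (hp : p ∣ Nat.card K) (P : Sylow p K)
    (hP : Subgroup.normalizer (P : Set K) ≤ Subgroup.centralizer (P : Set K)) : False := by
  have hcomm : ∀ a b : P, a * b = b * a := fun a b =>
    Subtype.ext (hP (Subgroup.le_normalizer b.2) a a.2)
  have hker : (MonoidHom.transferSylow P hP).ker = ⊤ := by
    rw [eq_top_iff, ← hperf, Subgroup.commutator_le]
    intro g₁ _ g₂ _
    rw [MonoidHom.mem_ker, map_commutatorElement, commutatorElement_eq_one_iff_mul_comm]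
    exact hcomm _ _
  have h1 := MonoidHom.not_dvd_card_ker_transferSylow P hP
  rw [hker, Subgroup.card_top] at h1
  exact h1 hp

theorem four_dvd (K : Type) [Group K] [Finite K]
    (hperf : ⁅(⊤ : Subgroup K), (⊤ : Subgroup K)⁆ = ⊤) (h : 2 ∣ Nat.card K) :
    2 ^ 2 ∣ Nat.card K := by
  by_contra h4
  have hne : Nat.card K ≠ 0 := Nat.card_pos.ne'
  let P : Sylow 2 K := default
  have hfac : (Nat.card K).factorization 2 = 1 := by
    have h1 : ¬ 2 ≤ (Nat.card K).factorization 2 := fun h2 =>
      h4 ((Nat.prime_two.pow_dvd_iff_le_factorization hne).mpr h2)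
    have h2 : 1 ≤ (Nat.card K).factorization 2 :=
      (Nat.prime_two.pow_dvd_iff_le_factorization hne).mp (by simpa using h)
    omega
  have hcard : Nat.card P = 2 := by
    rw [P.card_eq_multiplicity, hfac, pow_one]
  have hcyc : IsCyclic P := isCyclic_of_prime_card (p := 2) hcard
  have hmin : (Nat.card K).minFac = 2 := (Nat.minFac_eq_two_iff _).mpr h
  exact notwo_aux K hperf h P (hcyc.normalizer_le_centralizer hmin)

theorem le_derived {p : ℕ} [Fact p.Prime] (K : Type) [Group K] [Finite K]
    (hperf : ⁅(⊤ : Subgroup K), (⊤ : Subgroup K)⁆ = ⊤) (hpp : ¬ p ^ 2 ∣ Nat.card K)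
    (Q : Subgroup K) (hQ : Nat.card Q = p) :
    Q ≤ ⁅Subgroup.normalizer (Q : Set K), Subgroup.normalizer (Q : Set K)⁆ := by
  have hpr : p.Prime := Fact.out
  have hne : Nat.card K ≠ 0 := Nat.card_pos.ne'
  have hdvd : p ∣ Nat.card K := by
    rw [← hQ]
    exact Subgroup.card_subgroup_dvd_card Q
  have hfac : (Nat.card K).factorization p = 1 := by
    have h1 : ¬ 2 ≤ (Nat.card K).factorization p := fun h2 =>
      hpp ((hpr.pow_dvd_iff_le_factorization hne).mpr h2)
    have h2 : 1 ≤ (Nat.card K).factorization p :=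
      (hpr.pow_dvd_iff_le_factorization hne).mp (by simpa using hdvd)
    omega
  have hQp : IsPGroup p Q := IsPGroup.of_card (n := 1) (by rw [hQ, pow_one])
  obtain ⟨P, hQP⟩ := hQp.exists_le_sylow
  have hPcard : Nat.card P = p := by
    rw [P.card_eq_multiplicity, hfac, pow_one]
  have hPQ : Q = (P : Subgroup K) := by
    apply Subgroup.eq_of_le_of_card_ge hQP
    rw [hQ]
    exact hPcard.le
  by_cases hcen : Subgroup.normalizer (Q : Set K) ≤ Subgroup.centralizer (Q : Set K)
  · exfalso
    rw [hPQ] at hcen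
    exact notwo_aux K hperf hdvd P hcen
  · rw [SetLike.not_le_iff_exists] at hcen
    obtain ⟨t, ht, htc⟩ := hcen
    rw [Subgroup.mem_centralizer_iff] at htc
    push Not at htc
    obtain ⟨y, hy, hyt⟩ := htc
    have hy' : y ∈ Q := hy
    have hc : ⁅t, y⁆ ∈ Q := by
      rw [commutatorElement_def]
      exact Q.mul_mem ((Subgroup.mem_normalizer_iff.mp ht y).mp hy') (Q.inv_mem hy')
    have hc1 : (⟨⁅t, y⁆, hc⟩ : Q) ≠ 1 := by
      intro h0
      have h1 : ⁅t, y⁆ = 1 := congrArg Subtype.val h0
      rw [commutatorElement_eq_one_iff_mul_comm] at h1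
      exact hyt h1.symm
    have hcT : ⁅t, y⁆ ∈ ⁅Subgroup.normalizer (Q : Set K), Subgroup.normalizer (Q : Set K)⁆ :=
      Subgroup.commutator_mem_commutator ht (Subgroup.le_normalizer hy')
    intro x hx
    have hz : (⟨x, hx⟩ : Q) ∈ Subgroup.zpowers (⟨⁅t, y⁆, hc⟩ : Q) :=
      mem_zpowers_of_prime_card hQ hc1
    obtain ⟨n, hn⟩ := hz
    have hn' : ⁅t, y⁆ ^ n = x := congrArg Subtype.val hn
    rw [← hn']
    exact Subgroup.zpow_mem _ hcT n

end Pool.Agent.Helper42.IR.F
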