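import Mathlib

/-!
# IR-62 (project IR, section 5.2): extending a central character by transfer

The set `I` of the integers `n` such that there is a homomorphism `lam : E → ℂˣ` with `lam s = ν s ^ n` for
`s ∈ S` and `lam e = 1` for `e ∈ E0` is a subgroup of `ℤ` (products and inverses). For each prime `q` it
contains `n_q = Eq.index`: take the transfer (Mathlib `MonoidHom.transfer`) of `lam_q : Eq → ℂˣ`. For
`s ∈ S` (central) `MonoidHom.transfer_eq_pow` gives `lam_q (s ^ n_q) = ν s ^ n_q`; for `e ∈ E0` the formula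
`MonoidHom.transfer_eq_prod_quotient_orbitRel_zpowers_quot` gives a product of values of `lam_q` at
elements `g⁻¹ * e ^ k * g ∈ E0` (normal), so `1`. Let `d` generate `I`. If a prime `q` divides `d` then
`q ∣ n_q`, a contradiction; `I ≠ 0` as `n_2 ≠ 0`; so `d = ±1` and `1 ∈ I`.
-/

namespace Pool.Agent.Helper42.IR.F

theorem exists_hom_of_index {E : Type} [Group E] (S E0 : Subgroup E) [E0.Normal]
    (hS : S ≤ Subgroup.center E) (ν : S →* ℂˣ)
    (h : ∀ q : ℕ, q.Prime → ∃ Eq : Subgroup E, ∃ (hSE : S ≤ Eq) (h0E : E0 ≤ Eq),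
      Eq.index ≠ 0 ∧ ¬ q ∣ Eq.index ∧ ∃ lam : Eq →* ℂˣ,
        (∀ s : S, lam ⟨s, hSE s.2⟩ = ν s) ∧ ∀ e : E0, lam ⟨e, h0E e.2⟩ = 1) :
    ∃ lam : E →* ℂˣ, (∀ s : S, lam s = ν s) ∧ ∀ e ∈ E0, lam e = 1 := by
  classical
  -- the subgroup of the integers
  let I : AddSubgroup ℤ :=
    { carrier := {n | ∃ lam : E →* ℂˣ, (∀ s : S, lam s = ν s ^ n) ∧ ∀ e ∈ E0, lam e = 1}
      zero_mem' := ⟨1, fun s => by simp, fun e _ => by simp⟩
      add_mem' := by
        rintro a b ⟨l1, h1, h1'⟩ ⟨l2, h2, h2'⟩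
        refine ⟨l1 * l2, fun s => ?_, fun e he => ?_⟩
        · rw [MonoidHom.mul_apply, h1 s, h2 s, zpow_add]
        · rw [MonoidHom.mul_apply, h1' e he, h2' e he, mul_one]
      neg_mem' := by
        rintro a ⟨l1, h1, h1'⟩
        refine ⟨l1⁻¹, fun s => ?_, fun e he => ?_⟩
        · rw [MonoidHom.inv_apply, h1 s, zpow_neg]
        · rw [MonoidHom.inv_apply, h1' e he, inv_one] }
  have hmemI : ∀ n : ℤ, n ∈ I ↔
      ∃ lam : E →* ℂˣ, (∀ s : S, lam s = ν s ^ n) ∧ ∀ e ∈ E0, lam e = 1 := fun n => Iff.rfl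
  have key : ∀ q : ℕ, q.Prime → ∃ m : ℕ, m ≠ 0 ∧ ¬ q ∣ m ∧ (m : ℤ) ∈ I := by
    intro q hq
    obtain ⟨Eq, hSE, h0E, hi0, hiq, lam, hl1, hl2⟩ := h q hq
    have : Eq.FiniteIndex := ⟨hi0⟩
    refine ⟨Eq.index, hi0, hiq, (hmemI _).2 ⟨MonoidHom.transfer lam, fun s => ?_, fun e he => ?_⟩⟩
    · have hc : ∀ g : E, g * (s : E) = (s : E) * g := fun g =>
        (Subgroup.mem_center_iff.1 (hS s.2) g)
      have hkey : ∀ (k : ℕ) (g₀ : E), g₀⁻¹ * (s : E) ^ k * g₀ ∈ Eq →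
          g₀⁻¹ * (s : E) ^ k * g₀ = (s : E) ^ k := by
        intro k g₀ _
        have h3 : Commute g₀ ((s : E) ^ k) := (show Commute g₀ (s : E) from hc g₀).pow_right k
        rw [mul_assoc, ← h3.eq, inv_mul_cancel_left]
      rw [MonoidHom.transfer_eq_pow lam (s : E) hkey]
      have h4 : (⟨(s : E) ^ Eq.index, MonoidHom.transfer_eq_pow_aux (s : E) hkey⟩ : Eq) =
          (⟨s, hSE s.2⟩ : Eq) ^ Eq.index := by
        apply Subtype.ext
        simp
      rw [h4, map_pow, hl1 s, zpow_natCast]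
    · have : Fintype (Quotient (MulAction.orbitRel (Subgroup.zpowers e) (E ⧸ Eq))) :=
        Fintype.ofFinite _
      rw [MonoidHom.transfer_eq_prod_quotient_orbitRel_zpowers_quot]
      apply Finset.prod_eq_one
      intro x _
      have h5 : (x.out.out⁻¹ * e ^ Function.minimalPeriod (e • ·) x.out * x.out.out : E) ∈ E0 := by
        have h6 : e ^ Function.minimalPeriod (e • ·) x.out ∈ E0 := E0.pow_mem he _
        have h7 := (inferInstance : E0.Normal).conj_mem _ h6 (x.out.out⁻¹ : E)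
        rwa [inv_inv] at h7
      exact hl2 ⟨_, h5⟩
  obtain ⟨d, hd⟩ := Int.subgroup_cyclic I
  have hmem : ∀ n : ℤ, n ∈ I ↔ d ∣ n := by
    intro n
    rw [hd, AddSubgroup.mem_closure_singleton]
    constructor
    · rintro ⟨k, hk⟩
      exact ⟨k, by rw [← hk, smul_eq_mul, mul_comm]⟩
    · rintro ⟨k, hk⟩
      exact ⟨k, by rw [hk, smul_eq_mul, mul_comm]⟩
  have hd1 : d.natAbs = 1 := by
    by_contra hne
    have hq := Nat.minFac_prime hne
    obtain ⟨m, -, hm1, hm2⟩ := key _ hq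
    apply hm1
    have h8 : d ∣ (m : ℤ) := (hmem _).1 hm2
    exact (Nat.minFac_dvd _).trans (Int.natAbs_dvd_natAbs.2 h8)
  have h1 : (1 : ℤ) ∈ I := by
    rw [hmem]
    exact Int.natAbs_dvd_natAbs.1 (by rw [hd1]; exact one_dvd _)
  obtain ⟨lam, hl1, hl2⟩ := (hmemI 1).1 h1
  exact ⟨lam, fun s => by rw [hl1 s, zpow_one], hl2⟩

end Pool.Agent.Helper42.IR.F
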