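import Pool.Agent.Helper42.IR.F.GlueD
import Pool.Agent.Helper42.IR.F.Transf

/-!
# IR-64 (project IR, section 5.2): matched characters, all primes together

Fix `D` (`exists_D`). `A0 = AutTh T θ` is finite. For a prime `q` let `R0` be (the image in `MulAut K` of) a
Sylow `q`-subgroup of `A0` and `A_q = R0 ⊔ cT`, `cT = T.map MulAut.conj`; `cT ≤ A0` as `θ` is a class function.
By `matchedOn_sup` and `matchedOn_D` there is `R_q : A_q → M_d` with the two properties; `q ∤ |A0 : A_q|`.

Let `E` be the group of the pairs `(α, Z)`, `α ∈ A0`, `Z` invertible with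
`Z * D (k, t) = D (α k, α t) * Z`. `S` = the scalars `(1, z)` (central), `ν (1, z) = z`; by Schur `S` is the
kernel of `E → A0`. `E0` = the pairs `(conj t, D (t, t))`, `t ∈ T`: a subgroup, normal in `E`:
`(α, Z)(conj t, D (t, t))(α, Z)⁻¹ = (conj (α t), D (α t, α t))`. `E_q` = preimage of `A_q`; contains `S`, `E0`.
`E → A0` is surjective: its image contains every `A_q` (`(α, R_q α) ∈ E`; `R_q α` is invertible), so its
index in `A0` is prime to every prime `q`. So `E.index` of `E_q` is `|A0 : A_q|`.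
`lam_q (α, Z) = Z * R_q α⁻¹`, a scalar by Schur: homomorphism, `z` on `(1, z)`, trivial on `E0` (third
property). `exists_hom_of_index` gives `lam : E → ℂˣ`. Put `R α = (lam (α, Z))⁻¹ • Z` for any `Z` with
`(α, Z) ∈ E` (independent of `Z` since `lam (1, z) = z`): a homomorphism with the two properties.
-/

namespace Pool.Agent.Helper42.IR.F

open Pool.Agent.Helper42.INC Pool.Agent.Helper7.MK

/-- The group theoretic core. -/
theorem glue_abstract {A X U TT : Type} [Group A] [Finite A] [Group X] [Group U] [Group TT]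
    (act : A →* MulAut X) (D : X →* U) (sc : ℂˣ →* U) (hsc : ∀ c u, sc c * u = u * sc c)
    (hinj : Function.Injective sc)
    (schur : ∀ u : U, (∀ x, u * D x = D x * u) → ∃ c, sc c = u)
    (c : TT →* A) (δ : TT →* X) (hc : ∀ t x, act (c t) x = δ t * x * (δ t)⁻¹)
    (hn : ∀ α t, ∃ t', δ t' = act α (δ t) ∧ c t' = α * c t * α⁻¹)
    (h : ∀ q : ℕ, q.Prime → ∃ Aq : Subgroup A, ∃ hcA : ∀ t, c t ∈ Aq, ¬ q ∣ Aq.index ∧
      ∃ Rq : Aq →* U, (∀ (α : Aq) x, Rq α * D x = D (act α x) * Rq α) ∧
        ∀ t, Rq ⟨c t, hcA t⟩ = D (δ t)) :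
    ∃ R : A →* U, (∀ α x, R α * D x = D (act α x) * R α) ∧ ∀ t, R (c t) = D (δ t) := by
  classical
  let E : Subgroup (A × U) :=
    { carrier := {y | ∀ x, y.2 * D x = D (act y.1 x) * y.2}
      one_mem' := by
        intro x
        simp
      mul_mem' := by
        intro a b ha hb x
        change a.2 * b.2 * D x = D (act (a.1 * b.1) x) * (a.2 * b.2)
        rw [mul_assoc, hb x, ← mul_assoc, ha, map_mul, MulAut.mul_apply, mul_assoc]
      inv_mem' := by
        intro a ha x
        change a.2⁻¹ * D x = D (act a.1⁻¹ x) * a.2⁻¹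
        have h1 := ha (act a.1⁻¹ x)
        rw [← MulAut.mul_apply, ← map_mul, mul_inv_cancel, map_one, MulAut.one_apply] at h1
        rw [eq_mul_inv_iff_mul_eq, mul_assoc, ← h1, inv_mul_cancel_left] }
  have hEmem : ∀ y : A × U, y ∈ E ↔ ∀ x, y.2 * D x = D (act y.1 x) * y.2 := fun y => Iff.rfl
  let π : E →* A := (MonoidHom.fst A U).comp E.subtype
  have hπ : ∀ y : E, π y = (y : A × U).1 := fun y => rfl
  let scE : ℂˣ →* E := MonoidHom.codRestrict ((MonoidHom.inr A U).comp sc) E (by
    intro z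
    rw [hEmem]
    intro x
    simp [hsc])
  have hscE : ∀ z, ((scE z : E) : A × U) = (1, sc z) := fun z => rfl
  have hscEinj : Function.Injective scE := by
    intro a b hab
    have h1 := congrArg (fun y : E => (y : A × U).2) hab
    exact hinj h1
  have hcen : ∀ z (y : E), scE z * y = y * scE z := by
    intro z y
    apply Subtype.ext
    rw [Subgroup.coe_mul, Subgroup.coe_mul, hscE]
    refine Prod.ext ?_ ?_
    · simp
    · exact hsc _ _
  have hker : ∀ y : E, π y = 1 → ∃ z, scE z = y := by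
    intro y hy
    obtain ⟨z, hz⟩ := schur (y : A × U).2 (by
      intro x
      have h1 := (hEmem y).1 y.2 x
      rw [← hπ, hy, map_one, MulAut.one_apply] at h1
      exact h1)
    refine ⟨z, Subtype.ext ?_⟩
    rw [hscE]
    exact Prod.ext hy.symm hz
  have hπsc : ∀ z, π (scE z) = 1 := fun z => rfl
  let e0 : TT →* E := MonoidHom.codRestrict (c.prod (D.comp δ)) E (by
    intro t
    rw [hEmem]
    intro x
    change D (δ t) * D x = D (act (c t) x) * D (δ t)
    rw [hc, ← map_mul, ← map_mul, inv_mul_cancel_right])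
  have he0 : ∀ t, ((e0 t : E) : A × U) = (c t, D (δ t)) := fun t => rfl
  have hE0 : (e0.range).Normal := by
    refine ⟨?_⟩
    rintro _ ⟨t, rfl⟩ g
    obtain ⟨t', h1, h2⟩ := hn (g : A × U).1 t
    refine ⟨t', Subtype.ext ?_⟩
    rw [Subgroup.coe_mul, Subgroup.coe_mul, Subgroup.coe_inv, he0, he0]
    refine Prod.ext h2 ?_
    change D (δ t') = (g : A × U).2 * D (δ t) * (g : A × U).2⁻¹
    rw [(hEmem g).1 g.2, mul_inv_cancel_right, h1]
  -- surjectivity
  have hsurj : Function.Surjective π := by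
    rw [← MonoidHom.range_eq_top, ← Subgroup.index_eq_one]
    rw [Nat.eq_one_iff_not_exists_prime_dvd]
    intro q hq hdvd
    obtain ⟨Aq, hcA, hidx, Rq, hR1, hR2⟩ := h q hq
    apply hidx
    refine hdvd.trans (Subgroup.index_dvd_of_le ?_)
    intro α hα
    exact ⟨⟨(α, Rq ⟨α, hα⟩), fun x => hR1 ⟨α, hα⟩ x⟩, rfl⟩
  have hSc : (scE.range) ≤ Subgroup.center E := by
    rintro _ ⟨z, rfl⟩
    rw [Subgroup.mem_center_iff]
    intro g
    exact (hcen z g).symm
  let ν : scE.range →* ℂˣ := (MonoidHom.ofInjective hscEinj).symm.toMonoidHom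
  have hν : ∀ s : scE.range, scE (ν s) = s := by
    intro s
    exact MonoidHom.apply_ofInjective_symm hscEinj s
  have key := exists_hom_of_index scE.range e0.range hSc ν (by
    intro q hq
    obtain ⟨Aq, hcA, hidx, Rq, hR1, hR2⟩ := h q hq
    have hSE : scE.range ≤ Aq.comap π := by
      rintro _ ⟨z, rfl⟩
      rw [Subgroup.mem_comap, hπsc]
      exact Aq.one_mem
    have h0E : e0.range ≤ Aq.comap π := by
      rintro _ ⟨t, rfl⟩
      rw [Subgroup.mem_comap]
      exact hcA t
    refine ⟨Aq.comap π, hSE, h0E, ?_, ?_, ?_⟩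
    · rw [Subgroup.index_comap_of_surjective Aq hsurj]
      exact Subgroup.FiniteIndex.index_ne_zero
    · rw [Subgroup.index_comap_of_surjective Aq hsurj]
      exact hidx
    · let s : Aq.comap π →* E :=
        MonoidHom.mk' (fun x => ⟨(π x, Rq ⟨π x, x.2⟩), fun y => hR1 ⟨π x, x.2⟩ y⟩) (by
          intro x y
          apply Subtype.ext
          refine Prod.ext ?_ ?_
          · change π ((x : E) * (y : E)) = π x * π y
            rw [map_mul]
          · change Rq ⟨π ((x : E) * (y : E)), _⟩ = Rq ⟨π x, _⟩ * Rq ⟨π y, _⟩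
            rw [← map_mul]
            rfl)
      have hs : ∀ x : Aq.comap π, π (s x) = π x := fun x => rfl
      have hs2 : ∀ x : Aq.comap π, ((s x : E) : A × U).2 = Rq ⟨π x, x.2⟩ := fun x => rfl
      have hex : ∀ x : Aq.comap π, ∃ z, scE z = (x : E) * (s x)⁻¹ := by
        intro x
        apply hker
        rw [map_mul, map_inv, hs, mul_inv_cancel]
      choose l hl using hex
      let lam : Aq.comap π →* ℂˣ := MonoidHom.mk' l (by
        intro x y
        apply hscEinj
        rw [hl, map_mul, map_mul, hl x, mul_inv_rev, Subgroup.coe_mul]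
        have h1 := hl y
        have h2 : (y : E) = scE (l y) * s y := by rw [h1]; group
        have h3 := hcen (l y) (x : E)
        calc (x : E) * (y : E) * ((s y)⁻¹ * (s x)⁻¹)
            = (x : E) * (scE (l y) * s y) * ((s y)⁻¹ * (s x)⁻¹) := by rw [← h2]
          _ = ((x : E) * scE (l y)) * (s x)⁻¹ := by group
          _ = (scE (l y) * (x : E)) * (s x)⁻¹ := by rw [h3]
          _ = scE (l y) * ((x : E) * (s x)⁻¹) := by group
          _ = (x : E) * (s x)⁻¹ * scE (l y) := hcen _ _)
      have hlam : ∀ x, scE (lam x) = (x : E) * (s x)⁻¹ := fun x => hl x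
      refine ⟨lam, ?_, ?_⟩
      · intro z
        apply hscEinj
        rw [hlam, hν]
        have h1 : s ⟨z, hSE z.2⟩ = 1 := by
          obtain ⟨w, hw⟩ := z.2
          apply Subtype.ext
          have h2 : π (z : E) = 1 := by rw [← hw]; exact hπsc w
          refine Prod.ext h2 ?_
          change Rq ⟨π (z : E), _⟩ = 1
          have h3 : (⟨π (z : E), hSE z.2⟩ : Aq) = 1 := Subtype.ext h2
          rw [h3, map_one]
        rw [h1, inv_one, mul_one]
      · intro z
        apply hscEinj
        rw [hlam, map_one]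
        have h1 : s ⟨z, h0E z.2⟩ = z := by
          obtain ⟨t, ht⟩ := z.2
          apply Subtype.ext
          have h2 : π (z : E) = c t := by rw [← ht]; rfl
          refine Prod.ext rfl ?_
          change Rq ⟨π (z : E), _⟩ = ((z : E) : A × U).2
          have h3 : (⟨π (z : E), h0E z.2⟩ : Aq) = ⟨c t, hcA t⟩ := Subtype.ext h2
          rw [h3, hR2, ← ht]
          rfl
        rw [h1, mul_inv_cancel])
  obtain ⟨lam, hlam1, hlam2⟩ := key
  have hlam1' : ∀ z, lam (scE z) = z := by
    intro z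
    have h1 := hlam1 ⟨scE z, z, rfl⟩
    rw [h1]
    apply hscEinj
    rw [hν]
  let ψ : E →* E := MonoidHom.mk' (fun x => x * (scE (lam x))⁻¹) (by
    intro x y
    rw [map_mul, map_mul]
    have h3 := hcen (lam x)⁻¹ y
    rw [map_inv] at h3
    calc x * y * (scE (lam x) * scE (lam y))⁻¹
        = x * y * ((scE (lam y))⁻¹ * (scE (lam x))⁻¹) := by group
      _ = x * y * ((scE (lam x))⁻¹ * (scE (lam y))⁻¹) := by
          rw [← map_inv, ← map_inv, hcen]
      _ = x * (y * (scE (lam x))⁻¹) * (scE (lam y))⁻¹ := by group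
      _ = x * ((scE (lam x))⁻¹ * y) * (scE (lam y))⁻¹ := by rw [h3]
      _ = x * (scE (lam x))⁻¹ * (y * (scE (lam y))⁻¹) := by group)
  have hψ : ∀ x, ψ x = x * (scE (lam x))⁻¹ := fun x => rfl
  have hψπ : ∀ x, π (ψ x) = π x := by
    intro x
    rw [hψ, map_mul, map_inv, hπsc, inv_one, mul_one]
  have hψker : ∀ x, π x = 1 → ψ x = 1 := by
    intro x hx
    obtain ⟨z, rfl⟩ := hker x hx
    rw [hψ, hlam1', mul_inv_cancel]
  have hψeq : ∀ x y, π x = π y → ψ x = ψ y := by
    intro x y hxy
    have h1 := hψker (x * y⁻¹) (by rw [map_mul, map_inv, hxy, mul_inv_cancel])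
    rw [map_mul, map_inv, mul_inv_eq_one] at h1
    exact h1
  choose g hg using hsurj
  let R' : A →* E := MonoidHom.mk' (fun α => ψ (g α)) (by
    intro a b
    rw [← map_mul]
    apply hψeq
    rw [hg, map_mul, hg, hg])
  have hR' : ∀ x : E, R' (π x) = ψ x := by
    intro x
    change ψ (g (π x)) = ψ x
    apply hψeq
    rw [hg]
  have hR'π : ∀ α, π (R' α) = α := by
    intro α
    change π (ψ (g α)) = α
    rw [hψπ, hg]
  refine ⟨(MonoidHom.snd A U).comp (E.subtype.comp R'), ?_, ?_⟩
  · intro α x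
    have h1 := (hEmem (R' α)).1 (R' α).2 x
    rw [← hπ, hR'π] at h1
    exact h1
  · intro t
    have h1 : R' (c t) = e0 t := by
      have h2 := hR' (e0 t)
      rw [hψ, hlam2 _ ⟨t, rfl⟩, map_one, inv_one, mul_one] at h2
      exact h2
    change ((R' (c t) : E) : A × U).2 = D (δ t)
    rw [h1, he0]

/-- the action of an automorphism on `K × T` -/
def actX {K : Type} [Group K] {T : Subgroup K} {θ : K → ℂ} (α : AutTh T θ) : MulAut (K × T) where
  toFun x := (α.1 x.1, ⟨α.1 x.2, (α.2.1 x.2).2 x.2.2⟩)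
  invFun x := ((α⁻¹).1 x.1, ⟨(α⁻¹).1 x.2, ((α⁻¹).2.1 x.2).2 x.2.2⟩)
  left_inv := by
    intro x
    refine Prod.ext ?_ (Subtype.ext ?_)
    · change (α.1)⁻¹ (α.1 x.1) = x.1
      exact MulAut.inv_apply_self _ _ _
    · change (α.1)⁻¹ (α.1 (x.2 : K)) = (x.2 : K)
      exact MulAut.inv_apply_self _ _ _
  right_inv := by
    intro x
    refine Prod.ext ?_ (Subtype.ext ?_)
    · change α.1 ((α.1)⁻¹ x.1) = x.1
      exact MulAut.apply_inv_self _ _ _
    · change α.1 ((α.1)⁻¹ (x.2 : K)) = (x.2 : K)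
      exact MulAut.apply_inv_self _ _ _
  map_mul' := by
    intro x y
    refine Prod.ext (map_mul α.1 _ _) (Subtype.ext (map_mul α.1 _ _))

theorem actX_apply {K : Type} [Group K] {T : Subgroup K} {θ : K → ℂ} (α : AutTh T θ) (k : K)
    (t t' : T) (h : (t' : K) = α.1 t) : actX α (k, t) = (α.1 k, t') :=
  Prod.ext rfl (Subtype.ext h.symm)

theorem matched_of_on {K : Type} [Group K] [Finite K] {T : Subgroup K} {θ : K → ℂ} {φ : T → ℂ}
    (hθ : θ ∈ Irr K) (hφ : φ ∈ Irr T)
    (h : ∀ q : ℕ, q.Prime → ∀ R0 : Subgroup (MulAut K), R0 ≤ AutTh T θ → IsPGroup q R0 →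
      MatchedOn T θ φ R0) : MatchedAut T θ φ := by
  classical
  obtain ⟨d, D, hd, hD, hschur⟩ := exists_D hθ hφ
  have hne : Nonempty (Fin d) := ⟨⟨0, hd⟩⟩
  have hfin : Finite (MulAut K) := MulEquiv.finite_left
  have hconj : ∀ t : T, MulAut.conj (t : K) ∈ AutTh T θ := by
    intro t
    refine ⟨fun x => ?_, fun x => ?_⟩
    · rw [MulAut.conj_apply]
      constructor
      · intro hx
        have h1 := T.mul_mem (T.mul_mem (T.inv_mem t.2) hx) t.2
        have h2 : (t : K)⁻¹ * ((t : K) * x * (t : K)⁻¹) * (t : K) = x := by group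
        rwa [h2] at h1
      · intro hx
        exact T.mul_mem (T.mul_mem t.2 hx) (T.inv_mem t.2)
    · rw [MulAut.conj_apply]
      exact Irr.isClass hθ _ _
  let act : AutTh T θ →* MulAut (K × T) := MonoidHom.mk' actX (by
    intro a b
    apply MulEquiv.ext
    intro x
    rfl)
  let sc : ℂˣ →* (Matrix (Fin d) (Fin d) ℂ)ˣ :=
    Units.map ((algebraMap ℂ (Matrix (Fin d) (Fin d) ℂ)) : ℂ →* Matrix (Fin d) (Fin d) ℂ)
  have hscv : ∀ z : ℂˣ, ((sc z : (Matrix (Fin d) (Fin d) ℂ)ˣ) : Matrix (Fin d) (Fin d) ℂ) =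
      algebraMap ℂ (Matrix (Fin d) (Fin d) ℂ) (z : ℂ) := fun z => rfl
  let c : T →* AutTh T θ := MonoidHom.codRestrict (MulAut.conj.comp T.subtype) (AutTh T θ) hconj
  have hcv : ∀ t : T, ((c t : AutTh T θ) : MulAut K) = MulAut.conj (t : K) := fun t => rfl
  let δ : T →* K × T := T.subtype.prod (MonoidHom.id T)
  have hδ : ∀ t : T, δ t = ((t : K), t) := fun t => rfl
  have key := glue_abstract act D.toHomUnits sc (by
      intro z u
      apply Units.ext
      rw [Units.val_mul, Units.val_mul, hscv]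
      exact Algebra.commutes _ _) (by
      intro a b hab
      apply Units.ext
      have h1 := congrArg (fun u : (Matrix (Fin d) (Fin d) ℂ)ˣ => (u : Matrix (Fin d) (Fin d) ℂ)) hab
      exact (algebraMap ℂ (Matrix (Fin d) (Fin d) ℂ)).injective h1) (by
      intro u hu
      obtain ⟨z, hz⟩ := hschur (u : Matrix (Fin d) (Fin d) ℂ) (by
        intro x
        have h1 := congrArg (fun u : (Matrix (Fin d) (Fin d) ℂ)ˣ =>
          (u : Matrix (Fin d) (Fin d) ℂ)) (hu x)
        exact h1)
      have hz0 : z ≠ 0 := by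
        rintro rfl
        rw [zero_smul] at hz
        exact u.ne_zero hz
      refine ⟨Units.mk0 z hz0, Units.ext ?_⟩
      rw [hscv, hz, Units.val_mk0, Algebra.algebraMap_eq_smul_one]) c δ (by
      intro t x
      refine Prod.ext rfl (Subtype.ext rfl)) (by
      intro α t
      refine ⟨⟨α.1 t, (α.2.1 t).2 t.2⟩, Prod.ext rfl rfl, Subtype.ext ?_⟩
      apply MulEquiv.ext
      intro x
      change MulAut.conj (α.1 (t : K)) x = α.1 (MulAut.conj (t : K) ((α.1)⁻¹ x))
      rw [MulAut.conj_apply, MulAut.conj_apply, map_mul, map_mul, MulAut.apply_inv_self, map_inv]) (by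
      intro q hq
      have : Fact q.Prime := ⟨hq⟩
      let P : Sylow q (AutTh T θ) := default
      set R0 : Subgroup (MulAut K) := (P : Subgroup (AutTh T θ)).map (AutTh T θ).subtype with hR0
      have hR0le : R0 ≤ AutTh T θ := Subgroup.map_subtype_le _
      have hm := h q hq R0 hR0le (P.isPGroup'.map _)
      have hm2 := matchedOn_sup (fun r hr x => (hR0le hr).1 x) hm
      set AA : Subgroup (MulAut K) := R0 ⊔ T.map MulAut.conj with hAA
      obtain ⟨Rq, hRq1, hRq2⟩ := matchedOn_D hm2 D hD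
      have hcA : ∀ t, c t ∈ AA.comap (AutTh T θ).subtype := by
        intro t
        rw [Subgroup.mem_comap]
        exact (le_sup_right : T.map MulAut.conj ≤ AA) ⟨(t : K), t.2, rfl⟩
      refine ⟨AA.comap (AutTh T θ).subtype, hcA, ?_, ?_⟩
      · intro hdvd
        apply P.not_dvd_index
        refine hdvd.trans (Subgroup.index_dvd_of_le ?_)
        intro x hx
        rw [Subgroup.mem_comap]
        exact (le_sup_left : R0 ≤ AA) ⟨x, hx, rfl⟩
      · refine ⟨Rq.toHomUnits.comp ((AutTh T θ).subtype.subgroupComap AA), ?_, ?_⟩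
        · intro α x
          apply Units.ext
          have h1 := hRq1 ((AutTh T θ).subtype.subgroupComap AA α) x.1 x.2
            ⟨α.1.1 x.2, (α.1.2.1 x.2).2 x.2.2⟩ rfl
          exact h1
        · intro t
          apply Units.ext
          have h1 := hRq2 ((AutTh T θ).subtype.subgroupComap AA ⟨c t, hcA t⟩) t rfl
          exact h1)
  obtain ⟨R, hR1, hR2⟩ := key
  refine ⟨d, D, (Units.coeHom _).comp R, hD, ?_, ?_⟩
  · intro α k t t' ht
    have h1 := congrArg (fun u : (Matrix (Fin d) (Fin d) ℂ)ˣ =>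
      (u : Matrix (Fin d) (Fin d) ℂ)) (hR1 α (k, t))
    have h2 : act α (k, t) = (α.1 k, t') := actX_apply α k t t' ht
    rw [h2] at h1
    exact h1
  · intro α t ht
    have h0 : α = c t := Subtype.ext ht
    have h1 := congrArg (fun u : (Matrix (Fin d) (Fin d) ℂ)ˣ =>
      (u : Matrix (Fin d) (Fin d) ℂ)) (hR2 t)
    rw [h0]
    exact h1

end Pool.Agent.Helper42.IR.F
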