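import Pool.Agent.Helper42.IR.F.CoreF
import Pool.Agent.Helper7.MK.Defs

/-!
# IR-58 (project IR, section 5.2): `Good p K` from matched characters

`Q : Sylow p K` has order `p`. `exists_loc` (for `⊤`) gives `H`, `exists_core` gives `F`. Take
`T = normalizer Q`.
* `T ≠ ⊤`: otherwise `Q` is normal, `K / C_K(Q)` embeds in the automorphism group of `Q` (cyclic of prime
  order, so its automorphism group is abelian), so `⁅K, K⁆ ≤ C_K(Q)`, `Q` is central and
  `p ∣ |Z(K)|`.
* An automorphism which preserves `Q` preserves its normalizer. An automorphism `α` which preserves `T`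
  preserves `Q`: `Q` is the set of elements of `T` of order dividing `p` (`Loc.ti`, or: `Q` is a normal
  Sylow subgroup of `T`, hence the only one).
* The map `IrrP p K → IrrP p T`, `θ ↦ (fun t => F θ t)`: `IrrP p K` consists of the `χ ∈ Irr K` with
  `χ 1 = n`, `p ∤ n`, and `IrrSP p ⊤` of the `f ∈ IrrS ⊤` with `p ∤ deg f`; both conditions on a function on
  `K` agree (`mem_irrS_top` of IR/PkgTop.lean, `deg_eq`). `NN ⊤ Q = T`; functions in `IrrSP p (NN ⊤ Q)`
  correspond to `IrrP p T` by restriction / extension by zero. So `hF.bij` gives the equivalence.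
* equivariance: if `α` preserves `T` it preserves `Q`; `θ' = θ ∘ α`, so `F θ' = F θ ∘ α`.
* degrees: `hF.degree`. Matched: `hM`.
-/

namespace Pool.Agent.Helper42.IR.F

open Pool.Agent.Helper42.INC Pool.Agent.Helper42.IR Pool.Agent.Helper7.MK

section

variable {K : Type} [Group K] {p : ℕ}

private lemma mem_normalizer_of {Q : Subgroup K} {α : MulAut K} (hα : ∀ x, α x ∈ Q ↔ x ∈ Q) (x : K) :
    α x ∈ Subgroup.normalizer (Q : Set K) ↔ x ∈ Subgroup.normalizer (Q : Set K) := by
  rw [Subgroup.mem_normalizer_iff, Subgroup.mem_normalizer_iff]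
  constructor
  · intro h y
    change y ∈ Q ↔ x * y * x⁻¹ ∈ Q
    have h1 : α y ∈ Q ↔ α x * α y * (α x)⁻¹ ∈ Q := h (α y)
    rw [← hα y, h1, ← map_mul, ← map_inv, ← map_mul]
    exact hα _
  · intro h y
    change y ∈ Q ↔ α x * y * (α x)⁻¹ ∈ Q
    have h1 : α⁻¹ y ∈ Q ↔ x * α⁻¹ y * x⁻¹ ∈ Q := h (α⁻¹ y)
    have e1 : α (α⁻¹ y) = y := MulAut.apply_inv_self K α y
    have h2 : y ∈ Q ↔ α⁻¹ y ∈ Q := by
      rw [← hα (α⁻¹ y), e1]
    rw [h2, h1, ← hα (x * α⁻¹ y * x⁻¹), map_mul, map_mul, map_inv, e1]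

private lemma preserves_Q [Finite K] [Fact p.Prime] (Q : Sylow p K) {α : MulAut K}
    (hα : ∀ x, α x ∈ Subgroup.normalizer (Q : Set K) ↔ x ∈ Subgroup.normalizer (Q : Set K))
    {x : K} (hx : x ∈ (Q : Subgroup K)) : α x ∈ (Q : Subgroup K) := by
  set Q' : Subgroup K := (Q : Subgroup K).map α.toMonoidHom with hQ'
  have hP' : IsPGroup p Q' := Q.isPGroup'.map _
  have hle : Q' ≤ Subgroup.normalizer ((Q : Subgroup K) : Set K) := by
    rintro _ ⟨y, hy, rfl⟩
    exact (hα y).2 (Subgroup.le_normalizer hy)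
  have hsup : IsPGroup p (Q' ⊔ (Q : Subgroup K) : Subgroup K) :=
    hP'.to_sup_of_normal_right' Q.isPGroup' hle
  have heq := Q.is_maximal' hsup le_sup_right
  have h1 : α x ∈ (Q' ⊔ (Q : Subgroup K) : Subgroup K) :=
    Subgroup.mem_sup_left ⟨x, hx, rfl⟩
  rwa [heq] at h1

private lemma irrN {Q : Subgroup K} {f : K → ℂ} (h : f ∈ IrrS (NN (⊤ : Subgroup K) Q)) :
    (fun t : Subgroup.normalizer (Q : Set K) => f t) ∈ Irr _ := by
  have e : NN (⊤ : Subgroup K) Q = Subgroup.normalizer (Q : Set K) := by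
    unfold NN
    exact top_inf_eq _
  exact irr_comp (MulEquiv.subgroupCongr e.symm) h.1

private lemma irrN_ext {Q : Subgroup K} {φ : Subgroup.normalizer (Q : Set K) → ℂ}
    (h : φ ∈ Irr _) : ext0 (Subgroup.normalizer (Q : Set K)) φ ∈
      IrrS (NN (⊤ : Subgroup K) Q) := by
  have e : NN (⊤ : Subgroup K) Q = Subgroup.normalizer (Q : Set K) := by
    unfold NN
    exact top_inf_eq _
  constructor
  · have h1 := irr_comp (MulEquiv.subgroupCongr e) h
    have h2 : (fun x => φ (MulEquiv.subgroupCongr e x)) =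
        fun x : NN (⊤ : Subgroup K) Q => ext0 (Subgroup.normalizer (Q : Set K)) φ x := by
      funext x
      exact (ext0_mem φ (MulEquiv.subgroupCongr e x)).symm
    rwa [h2] at h1
  · intro x hx
    apply ext0_notMem
    rwa [← e]

private lemma deg_res {T : Subgroup K} (f : K → ℂ) : deg (fun t : T => f t) = deg f := rfl

private lemma sp_of_irrP [Finite K] {θ : K → ℂ} (h : θ ∈ IrrP p K) :
    θ ∈ IrrSP p (⊤ : Subgroup K) := by
  obtain ⟨h1, n, hn, hd⟩ := h
  refine ⟨?_, ?_⟩
  · refine ⟨irr_comp (Subgroup.topEquiv (G := K)) h1, fun x hx => absurd (Subgroup.mem_top x) hx⟩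
  · rwa [deg_eq hn]

private lemma irrP_of_sp [Finite K] {θ : K → ℂ} (h : θ ∈ IrrSP p (⊤ : Subgroup K)) :
    θ ∈ IrrP p K := by
  have h1 : θ ∈ Irr K := irr_comp (Subgroup.topEquiv (G := K)).symm h.1.1
  exact ⟨h1, deg θ, (deg_cast h1).symm, h.2⟩

end

theorem good_of_matched {p : ℕ} [Fact p.Prime] (hp2 : p ≠ 2) (K : Type) [Group K] [Finite K]
    (hperf : ⁅(⊤ : Subgroup K), (⊤ : Subgroup K)⁆ = ⊤) (h1 : p ∣ Nat.card K)
    (h2 : ¬ p ^ 2 ∣ Nat.card K) (h3 : ¬ p ∣ Nat.card (Subgroup.center K))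
    (hM : ∀ (Q H : Subgroup K) (F : (K → ℂ) → (K → ℂ)), Loc p (⊤ : Subgroup K) Q H →
      CoreC p Q H F → ∀ θ ∈ IrrSP p (⊤ : Subgroup K),
        MatchedAut (Subgroup.normalizer (Q : Set K)) θ (fun t => F θ t)) : Good p K := by
  intro Q
  have hp : p.Prime := Fact.out
  have hcQ : Nat.card (Q : Subgroup K) = p := by
    have h0 : Nat.card K ≠ 0 := Nat.card_pos.ne'
    have hf : (Nat.card K).factorization p = 1 := by
      apply le_antisymm
      · by_contra hcon
        rw [not_le] at hcon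
        exact h2 ((hp.pow_dvd_iff_le_factorization h0).2 hcon)
      · exact (hp.dvd_iff_one_le_factorization h0).1 h1
    have h4 := Q.card_eq_multiplicity
    rw [hf, pow_one] at h4
    exact h4
  have hct : Nat.card (⊤ : Subgroup K) = Nat.card K := Subgroup.card_top
  obtain ⟨H, hL⟩ := exists_loc (K := (⊤ : Subgroup K)) (Q := (Q : Subgroup K)) (p := p)
    (by rw [hct]; exact h1) (by rw [hct]; exact h2) le_top hcQ
  obtain ⟨F, hF⟩ := exists_core hp2 hL
  -- the normalizer is proper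
  have hT : Subgroup.normalizer ((Q : Subgroup K) : Set K) ≠ ⊤ := by
    intro hT
    have hcent : ⁅(⊤ : Subgroup K), (⊤ : Subgroup K)⁆ ≤
        Subgroup.centralizer ((Q : Subgroup K) : Set K) := by
      rw [Subgroup.commutator_le]
      intro a _ b _
      rw [commutatorElement_def]
      exact Loc.commutator_le hL (hT ▸ Subgroup.mem_top a) (hT ▸ Subgroup.mem_top b)
    rw [hperf] at hcent
    have hQZ : (Q : Subgroup K) ≤ Subgroup.center K := by
      intro x hx
      rw [Subgroup.mem_center_iff]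
      intro g
      have h5 := Subgroup.mem_centralizer_iff.1 (hcent (Subgroup.mem_top g)) x hx
      exact h5.symm
    apply h3
    rw [← hcQ]
    exact Subgroup.card_dvd_of_le hQZ
  refine ⟨Subgroup.normalizer ((Q : Subgroup K) : Set K), le_rfl, hT,
    fun α hα x => mem_normalizer_of hα x, ?_⟩
  -- the bijection
  have hmem : ∀ θ : IrrP p K, (fun t : Subgroup.normalizer ((Q : Subgroup K) : Set K) =>
      F θ.1 t) ∈ IrrP p (Subgroup.normalizer ((Q : Subgroup K) : Set K)) := by
    intro θ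
    have h4 := hF.bij.mapsTo (sp_of_irrP θ.2)
    have h5 := irrN h4.1
    exact ⟨h5, deg (F θ.1), by
      have h6 := deg_cast h5
      rw [deg_res] at h6
      exact h6.symm, h4.2⟩
  let f : IrrP p K → IrrP p (Subgroup.normalizer ((Q : Subgroup K) : Set K)) :=
    fun θ => ⟨fun t => F θ.1 t, hmem θ⟩
  have hf : Function.Bijective f := by
    constructor
    · intro θ θ' he
      have h4 := hF.bij.mapsTo (sp_of_irrP θ.2)
      have h5 := hF.bij.mapsTo (sp_of_irrP θ'.2)
      apply Subtype.ext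
      apply hF.bij.injOn (sp_of_irrP θ.2) (sp_of_irrP θ'.2)
      funext x
      by_cases hx : x ∈ Subgroup.normalizer ((Q : Subgroup K) : Set K)
      · exact congrFun (congrArg Subtype.val he) ⟨x, hx⟩
      · have hx' : x ∉ NN (⊤ : Subgroup K) (Q : Subgroup K) := fun h => hx h.2
        rw [h4.1.2 x hx', h5.1.2 x hx']
    · intro φ
      obtain ⟨n, hn, hd⟩ := φ.2.2
      have h4 : ext0 (Subgroup.normalizer ((Q : Subgroup K) : Set K)) φ.1 ∈
          IrrSP p (NN (⊤ : Subgroup K) (Q : Subgroup K)) := by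
        refine ⟨irrN_ext φ.2.1, ?_⟩
        have h5 : ext0 (Subgroup.normalizer ((Q : Subgroup K) : Set K)) φ.1 1 = n := by
          rw [← hn]
          exact ext0_mem φ.1 1
        rwa [deg_eq h5]
      obtain ⟨χ, hχ, he⟩ := hF.bij.surjOn h4
      refine ⟨⟨χ, irrP_of_sp hχ⟩, ?_⟩
      apply Subtype.ext
      funext t
      change F χ t = φ.1 t
      rw [he]
      exact ext0_mem φ.1 t
  refine ⟨Equiv.ofBijective f hf, ?_, ?_, ?_⟩
  · intro α hα θ θ' hθ t t' htt
    have hαQ : ∀ x, α x ∈ (Q : Subgroup K) ↔ x ∈ (Q : Subgroup K) := by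
      intro x
      constructor
      · intro hx
        have hα' : ∀ x, α⁻¹ x ∈ Subgroup.normalizer ((Q : Subgroup K) : Set K) ↔
            x ∈ Subgroup.normalizer ((Q : Subgroup K) : Set K) := by
          intro y
          rw [← hα (α⁻¹ y), MulAut.apply_inv_self]
        have h4 := preserves_Q Q hα' hx
        rwa [MulAut.inv_apply_self] at h4
      · exact preserves_Q Q hα
    have h4 : θ'.1 = fun x => θ.1 (α x) := funext hθ
    have h5 := hF.equivariant α hαQ θ.1 (sp_of_irrP θ.2)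
    change F θ'.1 t = F θ.1 t'
    rw [h4, h5, htt]
  · intro θ
    exact hF.degree θ.1 (sp_of_irrP θ.2)
  · intro θ
    exact hM _ H F hL hF θ.1 (sp_of_irrP θ.2)

end Pool.Agent.Helper42.IR.F
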