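import Pool.Agent.Helper42.IR.F.PPrime
import Pool.Agent.Helper42.IR.F.GoodOf
import Pool.Agent.Helper42.IR.F.NoTwo
import Pool.Agent.Helper42.IR.F.PPart
import Pool.Agent.Helper42.IR.F.GlueM

/-!
# Theorem II (sections 3 to 5 of project IR)

Finite perfect groups `K` whose order is divisible by `p` but not by `p ^ 2`, with center of order
prime to `p`, satisfy `Good p K`.
-/

namespace Pool.Agent.Helper42.IR.F

open Pool.Agent.Helper42.INC Pool.Agent.Helper42.IR Pool.Agent.Helper7.MK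

section

variable {K : Type} [Group K] {p : ℕ}

private lemma preserves [Finite K] [Fact p.Prime] {Q H : Subgroup K}
    (hL : Loc p (⊤ : Subgroup K) Q H) {α : MulAut K}
    (hα : ∀ x, α x ∈ Subgroup.normalizer (Q : Set K) ↔ x ∈ Subgroup.normalizer (Q : Set K))
    {x : K} (hx : x ∈ Q) : α x ∈ Q := by
  have hp : p.Prime := Fact.out
  have hQp : IsPGroup p Q := by
    rw [IsPGroup.iff_card]
    exact ⟨1, by rw [hL.cQ, pow_one]⟩
  set Q' : Subgroup K := Q.map α.toMonoidHom with hQ'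
  have hP' : IsPGroup p Q' := hQp.map _
  have hle : Q' ≤ Subgroup.normalizer (Q : Set K) := by
    rintro _ ⟨y, hy, rfl⟩
    exact (hα y).2 (Subgroup.le_normalizer hy)
  have hsup : IsPGroup p (Q' ⊔ Q : Subgroup K) :=
    hP'.to_sup_of_normal_right' hQp hle
  obtain ⟨n, hn⟩ := IsPGroup.iff_card.1 hsup
  have hcard : Nat.card (Q' ⊔ Q : Subgroup K) ∣ Nat.card K :=
    Subgroup.card_subgroup_dvd_card _
  have htop : Nat.card (⊤ : Subgroup K) = Nat.card K := Subgroup.card_top
  have hn1 : n ≤ 1 := by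
    by_contra hcon
    rw [not_le] at hcon
    apply hL.pp
    rw [htop]
    rw [hn] at hcard
    exact (pow_dvd_pow p hcon).trans hcard
  have hle2 : Q ≤ Q' ⊔ Q := le_sup_right
  have heq : Q = Q' ⊔ Q := by
    apply Subgroup.eq_of_le_of_card_ge hle2
    rw [hn, hL.cQ]
    calc p ^ n ≤ p ^ 1 := Nat.pow_le_pow_right hp.pos hn1
      _ = p := pow_one p
  have h1 : α x ∈ (Q' ⊔ Q : Subgroup K) := Subgroup.mem_sup_left ⟨x, hx, rfl⟩
  rwa [← heq] at h1

private lemma preserves_iff [Finite K] [Fact p.Prime] {Q H : Subgroup K}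
    (hL : Loc p (⊤ : Subgroup K) Q H) {α : MulAut K}
    (hα : ∀ x, α x ∈ Subgroup.normalizer (Q : Set K) ↔ x ∈ Subgroup.normalizer (Q : Set K))
    (x : K) : α x ∈ Q ↔ x ∈ Q := by
  constructor
  · intro h
    have hα' : ∀ x, α⁻¹ x ∈ Subgroup.normalizer (Q : Set K) ↔
        x ∈ Subgroup.normalizer (Q : Set K) := by
      intro x
      rw [← hα (α⁻¹ x), MulAut.apply_inv_self]
    have h1 := preserves hL hα' h
    rwa [MulAut.inv_apply_self] at h1
  · exact preserves hL hα

end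

theorem hII {p : ℕ} [Fact p.Prime] (K : Type) [Group K] [Finite K]
    (hperf : ⁅(⊤ : Subgroup K), (⊤ : Subgroup K)⁆ = ⊤) (h1 : p ∣ Nat.card K)
    (h2 : ¬ p ^ 2 ∣ Nat.card K) (h3 : ¬ p ∣ Nat.card (Subgroup.center K)) : Good p K := by
  by_cases hp2 : p = 2
  · subst hp2
    exact absurd (four_dvd K hperf h1) h2
  apply good_of_matched hp2 K hperf h1 h2 h3
  intro Q H F hL hF θ hθ
  have hNN : NN (⊤ : Subgroup K) Q = Subgroup.normalizer (Q : Set K) := by
    unfold NN
    exact top_inf_eq _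
  have hFθ := hF.bij.mapsTo hθ
  have hθI : θ ∈ Irr K := mem_irrS_top.1 hθ.1
  have hφI : (fun t : Subgroup.normalizer (Q : Set K) => F θ t) ∈ Irr _ :=
    irr_comp (MulEquiv.subgroupCongr hNN.symm) hFθ.1.1
  apply matched_of_on hθI hφI
  intro q hq R0 hR0 hR0q
  have hT : ∀ r ∈ R0, ∀ x, r x ∈ Subgroup.normalizer (Q : Set K) ↔
      x ∈ Subgroup.normalizer (Q : Set K) := fun r hr => (hR0 hr).1
  have hinv : ∀ r ∈ R0, ∀ k, θ (r k) = θ k := fun r hr => (hR0 hr).2
  have hQ : ∀ r ∈ R0, ∀ x, r x ∈ Q ↔ x ∈ Q := fun r hr => preserves_iff hL (hT r hr)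
  by_cases hqp : q = p
  · subst hqp
    apply matched_p hperf h2 hL.cQ hθI hθ.2 hφI hFθ.2 ?_ R0 hR0q hT hinv ?_
    · intro z hz
      exact agree hp2 hL hperf h3 hF hθ hz
    · intro r hr t t' ht
      have h4 := hF.equivariant r (hQ r hr) θ hθ
      have h5 : (fun x => θ (r x)) = θ := funext (hinv r hr)
      rw [h5] at h4
      have h6 := congrFun h4 (t : K)
      change F θ (t' : K) = F θ (t : K)
      rw [ht, h6]
  · have hR : ¬ p ∣ Nat.card R0 := by
      obtain ⟨n, hn⟩ := by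
        haveI : Fact q.Prime := ⟨hq⟩
        exact IsPGroup.iff_card.1 hR0q
      rw [hn]
      intro hd
      have hp : p.Prime := Fact.out
      have h4 := hp.dvd_of_dvd_pow hd
      exact hqp ((Nat.prime_dvd_prime_iff_eq hp hq).1 h4).symm
    exact matched_pprime hp2 hL hperf h3 hF hθ R0 hR hQ hinv

end Pool.Agent.Helper42.IR.F
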