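import Pool.Agent.Helper42.IR.F.Cov
import Pool.Agent.Helper42.IR.F.Defs

/-!
# IR-56 (project IR, section 5.2): from the cover to matched characters

`R0` a group of automorphisms of `K` preserving `Q`, `T = normalizer Q`; `θ ∈ Irr K` afforded by
`X = Z ∘ ι`; `ψh` the character of a representation of `N = normalizer (Q.map ι)` with `ψh ∘ ι = φ` on `T`,
`φ ∈ Irr T`, and with the same scalars on the centralizer of `ι.range`.

Let `Y : N → M_l(ℂ)` afford `ψh` (choose a basis). `ι T ≤ N`, and `Y ∘ ι|_T` affords `φ`, so it is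
irreducible. `D (k, t) = X k ⊗ (Y (ι t⁻¹))ᵀ` (Kronecker product, reindexed to `Fin (m l)`) is a homomorphism
with trace `θ k φ t⁻¹`. For `c ∈ N` put `M c = Z c ⊗ (Y c⁻¹)ᵀ`; it is a homomorphism.
(1) If `c` centralizes `ι.range` then `M c = 1`: `Z c` commutes with the irreducible `X`, so `Z c = z`
(scalar), trace `m z`, `θ 1 = m`; so `ψh (g c) = z ψh g` for `g ∈ N` (`hsc`), i.e.
`tr (Y g (Y c - z)) = 0` for all `g ∈ N`, and `Y` is irreducible, so `Y c = z`; `M c = z z⁻¹ = 1`.
(2) `M c * D (k, t) = D (α k, α t) * M c` for `c ∈ N` acting on `ι K` as `α` (`hconj`), `α t ∈ T`.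
For `r ∈ R0` choose `c_r ∈ C` with `τ c_r = inr r`; it acts on `ι K` as `r` (`act a (inr r) = a r`), so
`c_r ∈ N`. `R r = M c_r` does not depend on the choice and is multiplicative: two choices, or
`c_r c_{r'}` and `c_{r r'}`, differ by an element of `ker τ`, which centralizes `ι.range`; use (1).
If `r = conj t` with `t ∈ T` then `c = (ι t)⁻¹ c_r` centralizes `ι.range`, and
`R r = M (ι t) M c = M (ι t) = D (t, t)`.
-/

namespace Pool.Agent.Helper42.IR.F

open Pool.Agent.Helper42.INC Pool.Agent.Helper42.IR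
open scoped Kronecker

/-- the representation on column vectors given by a matrix representation -/
private noncomputable def r1Rep {H n : Type} [Group H] [Fintype n] [DecidableEq n]
    (D : H →* Matrix n n ℂ) : Representation ℂ H (n → ℂ) :=
  (Matrix.toLinAlgEquiv' (R := ℂ) (n := n)).toMulEquiv.toMonoidHom.comp D

private lemma r1_apply {H n : Type} [Group H] [Fintype n] [DecidableEq n]
    (D : H →* Matrix n n ℂ) (h : H) : r1Rep D h = Matrix.toLin' (D h) := rfl

private lemma r1_char {H n : Type} [Group H] [Fintype n] [DecidableEq n]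
    (D : H →* Matrix n n ℂ) : (r1Rep D).character = fun h => (D h).trace := by
  funext h
  rw [Representation.character, r1_apply, Matrix.trace_toLin'_eq]

/-- Schur's lemma for matrices -/
private lemma r1_comm {H n : Type} [Group H] [Finite H] [Fintype n] [DecidableEq n]
    (D : H →* Matrix n n ℂ) (hD : (fun h => (D h).trace) ∈ Irr H) (A : Matrix n n ℂ)
    (hA : ∀ h, A * D h = D h * A) : ∃ c : ℂ, A = c • (1 : Matrix n n ℂ) := by
  classical
  have := Fintype.ofFinite H
  have hne : (D 1).trace ≠ 0 := by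
    obtain ⟨m, hm0, hm⟩ := irr_one hD
    rw [hm]
    exact_mod_cast hm0.ne'
  have h1 : B (r1Rep D).character (r1Rep D).character = 1 := by
    rw [r1_char]
    exact B_irr_self hD
  rw [B_eq, Representation.card_inv_mul_sum_char_mul_char_eq_finrank] at h1
  have h2 : Module.finrank ℂ (Representation.IntertwiningMap (r1Rep D) (r1Rep D)) = 1 := by
    exact_mod_cast h1
  have hid : Representation.IntertwiningMap.id (r1Rep D) ≠ 0 := by
    intro h0
    have h3 : (LinearMap.id : (n → ℂ) →ₗ[ℂ] (n → ℂ)) = 0 :=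
      congrArg (fun f => f.toLinearMap) h0
    apply hne
    rw [map_one, Matrix.trace_one]
    have h4 : IsEmpty n := by
      by_contra hcon
      rw [not_isEmpty_iff] at hcon
      obtain ⟨i⟩ := hcon
      have h5 := congrFun (LinearMap.congr_fun h3 (fun _ => (1 : ℂ))) i
      simp at h5
    simp
  have hcz : ∀ g, Matrix.toLin' A ∘ₗ r1Rep D g = r1Rep D g ∘ₗ Matrix.toLin' A := by
    intro g
    rw [r1_apply, ← Matrix.toLin'_mul, ← Matrix.toLin'_mul, hA g]
  obtain ⟨c, hc⟩ := (finrank_eq_one_iff_of_nonzero' _ hid).1 h2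
    ⟨Matrix.toLin' A, hcz⟩
  have h6 : c • (LinearMap.id : (n → ℂ) →ₗ[ℂ] (n → ℂ)) = Matrix.toLin' A :=
    congrArg (fun f => f.toLinearMap) hc
  refine ⟨c, ?_⟩
  apply Matrix.toLin'.injective
  rw [← h6, map_smul, Matrix.toLin'_one]

/-- `(a, b) ↦ X a ⊗ (Y b⁻¹)ᵀ` -/
private noncomputable def kr {A B' n l : Type} [Group A] [Group B'] [Fintype n] [DecidableEq n]
    [Fintype l] [DecidableEq l] (X : A →* Matrix n n ℂ) (Y : B' →* Matrix l l ℂ) :
    A × B' →* Matrix (n × l) (n × l) ℂ where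
  toFun ab := X ab.1 ⊗ₖ (Y ab.2⁻¹).transpose
  map_one' := by
    show X 1 ⊗ₖ (Y (1 : B')⁻¹).transpose = 1
    rw [inv_one, map_one, map_one, Matrix.transpose_one, Matrix.one_kronecker_one]
  map_mul' := by
    rintro ⟨a, b⟩ ⟨a', b'⟩
    show X (a * a') ⊗ₖ (Y (b * b')⁻¹).transpose =
      X a ⊗ₖ (Y b⁻¹).transpose * X a' ⊗ₖ (Y b'⁻¹).transpose
    rw [mul_inv_rev, map_mul, map_mul, Matrix.transpose_mul, Matrix.mul_kronecker_mul]

private lemma kr_apply {A B' n l : Type} [Group A] [Group B'] [Fintype n] [DecidableEq n]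
    [Fintype l] [DecidableEq l] (X : A →* Matrix n n ℂ) (Y : B' →* Matrix l l ℂ) (a : A)
    (b : B') : kr X Y (a, b) = X a ⊗ₖ (Y b⁻¹).transpose := rfl

/-- `MatchedOn` from matrices over an arbitrary finite index type -/
private lemma matchedOn_of_type {K : Type} [Group K] {T : Subgroup K} {θ : K → ℂ} {φ : T → ℂ}
    {R0 : Subgroup (MulAut K)} {n : Type} [Fintype n] [DecidableEq n]
    (D : K × T →* Matrix n n ℂ) (R : R0 →* Matrix n n ℂ)
    (h1 : ∀ k t, (D (k, t)).trace = θ k * φ t⁻¹)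
    (h2 : ∀ (α : R0) (k : K) (t t' : T), (t' : K) = α.1 t →
      R α * D (k, t) = D (α.1 k, t') * R α)
    (h3 : ∀ (α : R0) (t : T), α.1 = MulAut.conj (t : K) → R α = D (t, t)) :
    MatchedOn T θ φ R0 := by
  let e : n ≃ Fin (Fintype.card n) := Fintype.equivFin n
  let E : Matrix n n ℂ ≃ₐ[ℂ] Matrix (Fin (Fintype.card n)) (Fin (Fintype.card n)) ℂ :=
    Matrix.reindexAlgEquiv ℂ ℂ e
  refine ⟨Fintype.card n, (E.toMulEquiv.toMonoidHom).comp D, (E.toMulEquiv.toMonoidHom).comp R,
    ?_, ?_, ?_⟩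
  · intro k t
    rw [← h1]
    show (Matrix.reindex e e (D (k, t))).trace = (D (k, t)).trace
    unfold Matrix.trace
    simp only [Matrix.diag_apply, Matrix.reindex_apply, Matrix.submatrix_apply]
    exact Equiv.sum_comp e.symm (fun i => D (k, t) i i)
  · intro α k t t' h
    show E (R α) * E (D (k, t)) = E (D (α.1 k, t')) * E (R α)
    rw [← map_mul, ← map_mul, h2 α k t t' h]
  · intro α t h
    show E (R α) = E (D (t, t))
    rw [h3 α t h]

private theorem matched_aux {K : Type} [Group K] [Finite K] {Q : Subgroup K} {T : Subgroup K}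
    (R0 : Subgroup (MulAut K)) (hQ : ∀ r ∈ R0, ∀ x, r x ∈ Q ↔ x ∈ Q) {θ : K → ℂ}
    (hθ : θ ∈ Irr K) {φ : T → ℂ} (hφ : φ ∈ Irr _)
    {C : Type} [Group C] [Finite C] {m : ℕ} (ι : K →* C)
    (τ : C →* K ⋊[R0.subtype] R0) (Z : C →* Matrix (Fin m) (Fin m) ℂ)
    (hτ : Function.Surjective τ)
    (hconj : ∀ c k, c * ι k * c⁻¹ = ι (act R0.subtype (τ c) k))
    (hZ : ∀ k, (Z (ι k)).trace = θ k) {ψh : C → ℂ}
    (hψh : ψh ∈ CharS (Subgroup.normalizer (Q.map ι : Set C)))
    (hιT : ∀ t : T, ι t ∈ Subgroup.normalizer (Q.map ι : Set C))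
    (hres : ∀ t : T, ψh (ι t) = φ t)
    (hsc : ∀ c ∈ Subgroup.centralizer (ι.range : Set C),
      ∀ g ∈ Subgroup.normalizer (Q.map ι : Set C), θ 1 * ψh (g * c) = ψh g * (Z c).trace) :
    MatchedOn T θ φ R0 := by
  classical
  set N : Subgroup C := Subgroup.normalizer (Q.map ι : Set C) with hN
  -- the matrix form of `ψh`
  obtain ⟨l, Y, hY⟩ : ∃ (l : ℕ) (Y : N →* Matrix (Fin l) (Fin l) ℂ),
      ∀ g : N, ψh g = (Y g).trace := by
    obtain ⟨V, _, _, _, ρ, hρ⟩ := hψh.1
    refine ⟨Module.finrank ℂ V,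
      (LinearMap.toMatrixAlgEquiv (Module.finBasis ℂ V)).toMulEquiv.toMonoidHom.comp ρ,
      fun g => ?_⟩
    have h1 : ψh g = ρ.character g := congrFun hρ g
    rw [h1]
    unfold Representation.character
    exact LinearMap.trace_eq_matrix_trace ℂ (Module.finBasis ℂ V) (ρ g)
  let j : T →* N := (ι.comp T.subtype).codRestrict N hιT
  have hj : ∀ t : T, ((j t : N) : C) = ι t := fun t => rfl
  have hYφ : ∀ t : T, (Y (j t)).trace = φ t := by
    intro t
    rw [← hY, ← hres t]
    rfl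
  have hYirr : (fun t => ((Y.comp j) t).trace) ∈ Irr T := by
    have h1 : (fun t => ((Y.comp j) t).trace) = φ := by
      funext t
      exact hYφ t
    rw [h1]
    exact hφ
  have hXirr : (fun k => ((Z.comp ι) k).trace) ∈ Irr K := by
    have h1 : (fun k => ((Z.comp ι) k).trace) = θ := by
      funext k
      exact hZ k
    rw [h1]
    exact hθ
  -- degrees
  have hm : (θ 1 : ℂ) = m := by
    rw [← hZ 1, map_one, map_one, Matrix.trace_one, Fintype.card_fin]
  have hm0 : (m : ℂ) ≠ 0 := by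
    obtain ⟨k, hk, hk1⟩ := irr_one hθ
    rw [← hm, hk1]
    exact_mod_cast hk.ne'
  have hl : (φ 1 : ℂ) = l := by
    rw [← hYφ 1, map_one, map_one, Matrix.trace_one, Fintype.card_fin]
  have hl0 : (l : ℂ) ≠ 0 := by
    obtain ⟨k, hk, hk1⟩ := irr_one hφ
    rw [← hl, hk1]
    exact_mod_cast hk.ne'
  -- the homomorphism `M`
  let M : N →* Matrix (Fin m × Fin l) (Fin m × Fin l) ℂ :=
    (kr (Z.comp N.subtype) Y).comp ((MonoidHom.id N).prod (MonoidHom.id N))
  have hM : ∀ c : N, M c = Z c ⊗ₖ (Y c⁻¹).transpose := fun c => rfl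
  -- (1)
  have hM1 : ∀ c : N, (∀ k, (c : C) * ι k = ι k * c) → M c = 1 := by
    intro c hc
    have hcc : (c : C) ∈ Subgroup.centralizer (ι.range : Set C) := by
      rw [Subgroup.mem_centralizer_iff]
      rintro _ ⟨k, rfl⟩
      exact (hc k).symm
    obtain ⟨z, hz⟩ := r1_comm (Z.comp ι) hXirr (Z c) (fun k => by
      rw [MonoidHom.comp_apply, ← map_mul, ← map_mul, hc k])
    obtain ⟨w, hw⟩ := r1_comm (Y.comp j) hYirr (Y c) (fun t => by
      rw [MonoidHom.comp_apply, ← map_mul, ← map_mul]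
      congr 1
      apply Subtype.ext
      exact hc t)
    have h1 := hsc c hcc 1 N.one_mem
    rw [one_mul, hm, hY c, hw, hz, Matrix.trace_smul, Matrix.trace_smul, Matrix.trace_one,
      Matrix.trace_one, Fintype.card_fin, Fintype.card_fin] at h1
    have h2 : ψh 1 = l := by
      have := hY 1
      rw [map_one, Matrix.trace_one, Fintype.card_fin] at this
      exact this
    rw [h2, smul_eq_mul, smul_eq_mul] at h1
    have hwz : w = z := by
      have h3 : (m : ℂ) * l * w = m * l * z := by linear_combination h1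
      exact mul_left_cancel₀ (mul_ne_zero hm0 hl0) h3
    have hz0 : z ≠ 0 := by
      intro h0
      have h3 : Z c * Z (c : C)⁻¹ = 1 := by rw [← map_mul, mul_inv_cancel, map_one]
      rw [hz, h0, zero_smul, zero_mul] at h3
      have h4 := congrArg Matrix.trace h3
      rw [Matrix.trace_zero, Matrix.trace_one, Fintype.card_fin] at h4
      exact hm0 h4.symm
    have hinv : Y c⁻¹ = z⁻¹ • (1 : Matrix (Fin l) (Fin l) ℂ) := by
      have h3 : Y c * Y c⁻¹ = 1 := by rw [← map_mul, mul_inv_cancel, map_one]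
      rw [hw, hwz, smul_mul_assoc, one_mul] at h3
      rw [← h3, smul_smul, inv_mul_cancel₀ hz0, one_smul]
    rw [hM, hinv, hz, Matrix.transpose_smul, Matrix.transpose_one, Matrix.smul_kronecker,
      Matrix.kronecker_smul, Matrix.one_kronecker_one, smul_smul, mul_inv_cancel₀ hz0, one_smul]
  -- action
  have hact : ∀ r : R0, ∀ c : C, τ c = SemidirectProduct.inr r → ∀ k, c * ι k * c⁻¹ = ι (r.1 k) := by
    intro r c hc k
    rw [hconj, hc]
    congr 1
    show (MulAut.conj (SemidirectProduct.inr r : K ⋊[R0.subtype] R0).left *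
      R0.subtype (SemidirectProduct.inr r : K ⋊[R0.subtype] R0).right) k = r.1 k
    rw [SemidirectProduct.left_inr, SemidirectProduct.right_inr, map_one, one_mul]
    rfl
  have hcN : ∀ r : R0, ∀ c : C, τ c = SemidirectProduct.inr r → c ∈ N := by
    intro r c hc
    rw [hN, Subgroup.mem_normalizer_iff]
    intro y
    constructor
    · rintro ⟨x, hx, rfl⟩
      exact ⟨r.1 x, (hQ r.1 r.2 x).2 hx, (hact r c hc x).symm⟩
    · rintro ⟨x, hx, hxy⟩
      have h1 : y = c⁻¹ * ι x * c := by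
        rw [hxy]
        group
      have h2 : ι x = c * ι (r.1⁻¹ x) * c⁻¹ := by
        rw [hact r c hc, MulAut.apply_inv_self]
      have h3 : y = ι (r.1⁻¹ x) := by
        rw [h1, h2]
        group
      rw [h3]
      refine ⟨r.1⁻¹ x, ?_, rfl⟩
      have h4 := hQ r.1 r.2 (r.1⁻¹ x)
      rw [MulAut.apply_inv_self] at h4
      exact h4.1 hx
  -- the group `A`
  let A : Subgroup C := (SemidirectProduct.inr : R0 →* K ⋊[R0.subtype] R0).range.comap τ
  have hA : ∀ a : A, ∃ r : R0, τ a = SemidirectProduct.inr r := by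
    rintro ⟨a, r, hr⟩
    exact ⟨r, hr.symm⟩
  have hAN : ∀ a : A, (a : C) ∈ N := by
    intro a
    obtain ⟨r, hr⟩ := hA a
    exact hcN r a hr
  let jA : A →* N := A.subtype.codRestrict N hAN
  let μ : A →* R0 := (SemidirectProduct.rightHom.comp τ).comp A.subtype
  have hμ' : ∀ a : A, τ a = SemidirectProduct.inr (μ a) := by
    intro a
    obtain ⟨r, hr⟩ := hA a
    have h1 : μ a = r := by
      show SemidirectProduct.rightHom (τ a) = r
      rw [hr, SemidirectProduct.rightHom_inr]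
    rw [h1]
    exact hr
  have hμ : Function.Surjective μ := by
    intro r
    obtain ⟨c, hc⟩ := hτ (SemidirectProduct.inr r)
    refine ⟨⟨c, r, hc.symm⟩, ?_⟩
    show SemidirectProduct.rightHom (τ c) = r
    rw [hc, SemidirectProduct.rightHom_inr]
  have hW : ∀ a : A, μ a = 1 → M (jA a) = 1 := by
    intro a ha
    apply hM1
    intro k
    have h1 := hact 1 a (by rw [hμ' a, ha]) k
    have h2 : (a : C) * ι k * (a : C)⁻¹ = ι k := h1
    show (a : C) * ι k = ι k * a
    rw [mul_inv_eq_iff_eq_mul] at h2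
    exact h2
  -- the descended homomorphism
  have key : ∀ a a' : A, μ a = μ a' → M (jA a) = M (jA a') := by
    intro a a' h
    have h1 : μ (a * a'⁻¹) = 1 := by rw [map_mul, map_inv, h, mul_inv_cancel]
    have h2 : a = (a * a'⁻¹) * a' := by group
    rw [h2, map_mul, map_mul, hW _ h1, one_mul]
  let s : R0 → A := fun r => (hμ r).choose
  have hs : ∀ r, μ (s r) = r := fun r => (hμ r).choose_spec
  let R : R0 →* Matrix (Fin m × Fin l) (Fin m × Fin l) ℂ :=
    { toFun := fun r => M (jA (s r))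
      map_one' := hW _ (hs 1)
      map_mul' := fun x y => by
        rw [← map_mul, ← map_mul]
        apply key
        rw [hs, map_mul, hs, hs] }
  have hR : ∀ r, R r = M (jA (s r)) := fun r => rfl
  refine matchedOn_of_type (kr (Z.comp ι) (Y.comp j)) R ?_ ?_ ?_
  · intro k t
    rw [kr_apply, Matrix.trace_kronecker, Matrix.trace_transpose, MonoidHom.comp_apply,
      MonoidHom.comp_apply, hZ, hYφ]
  · intro α k t t' ht
    have hc : ∀ x, ((s α : A) : C) * ι x * ((s α : A) : C)⁻¹ = ι (α.1 x) := fun x =>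
      hact α (s α) (by rw [hμ' (s α), hs]) x
    rw [hR, hM, kr_apply, kr_apply, ← Matrix.mul_kronecker_mul, ← Matrix.mul_kronecker_mul,
      ← Matrix.transpose_mul, ← Matrix.transpose_mul, MonoidHom.comp_apply, MonoidHom.comp_apply,
      MonoidHom.comp_apply, MonoidHom.comp_apply, ← map_mul, ← map_mul, ← map_mul, ← map_mul]
    congr 2
    · show ((s α : A) : C) * ι k = ι (α.1 k) * ((s α : A) : C)
      rw [← hc k, inv_mul_cancel_right]
    · congr 1
      rw [map_inv, map_inv, ← mul_inv_rev, ← mul_inv_rev]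
      congr 1
      apply Subtype.ext
      show ((s α : A) : C) * ι t = ι t' * ((s α : A) : C)
      rw [ht, ← hc t, inv_mul_cancel_right]
  · intro α t hα
    have hc : ∀ x, ((s α : A) : C) * ι x * ((s α : A) : C)⁻¹ = ι (α.1 x) := fun x =>
      hact α (s α) (by rw [hμ' (s α), hs]) x
    have h1 : M ((j t)⁻¹ * jA (s α)) = 1 := by
      apply hM1
      intro k
      show ((ι t)⁻¹ * ((s α : A) : C)) * ι k = ι k * ((ι t)⁻¹ * ((s α : A) : C))
      have h2 := hc k
      rw [hα, MulAut.conj_apply, map_mul, map_mul, map_inv, mul_inv_eq_iff_eq_mul] at h2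
      rw [mul_assoc, h2]
      group
    rw [map_mul] at h1
    have h3 : M (jA (s α)) = M (j t) := by
      have h4 : M (j t) * (M ((j t)⁻¹) * M (jA (s α))) = M (j t) := by rw [h1, mul_one]
      rw [← mul_assoc, ← map_mul, mul_inv_cancel, map_one, one_mul] at h4
      exact h4
    rw [hR, h3, hM, kr_apply, MonoidHom.comp_apply, MonoidHom.comp_apply, map_inv j]
    rfl

theorem matched_of_cover {K : Type} [Group K] [Finite K] {Q : Subgroup K}
    (R0 : Subgroup (MulAut K)) (hQ : ∀ r ∈ R0, ∀ x, r x ∈ Q ↔ x ∈ Q) {θ : K → ℂ}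
    (hθ : θ ∈ Irr K) {φ : Subgroup.normalizer (Q : Set K) → ℂ} (hφ : φ ∈ Irr _)
    {C : Type} [Group C] [Finite C] {m : ℕ} (ι : K →* C)
    (τ : C →* K ⋊[R0.subtype] R0) (Z : C →* Matrix (Fin m) (Fin m) ℂ)
    (hι : Function.Injective ι) (hτ : Function.Surjective τ)
    (hconj : ∀ c k, c * ι k * c⁻¹ = ι (act R0.subtype (τ c) k))
    (hZ : ∀ k, (Z (ι k)).trace = θ k) {ψh : C → ℂ}
    (hψh : ψh ∈ CharS (Subgroup.normalizer (Q.map ι : Set C)))
    (hres : ∀ t : Subgroup.normalizer (Q : Set K), ψh (ι t) = φ t)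
    (hsc : ∀ c ∈ Subgroup.centralizer (ι.range : Set C),
      ∀ g ∈ Subgroup.normalizer (Q.map ι : Set C), θ 1 * ψh (g * c) = ψh g * (Z c).trace) :
    MatchedOn (Subgroup.normalizer (Q : Set K)) θ φ R0 := by
  have _ := hι
  exact matched_aux R0 hQ hθ hφ ι τ Z hτ hconj hZ hψh
    (fun t => Subgroup.le_normalizer_map ι (Subgroup.mem_map_of_mem ι t.2)) hres hsc

end Pool.Agent.Helper42.IR.F
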