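import Pool.Agent.Helper42.IR.F.Pull2
import Pool.Agent.Helper42.IR.PkgSub
import Pool.Agent.Helper97.S4.Final
import Pool.Agent.Helper42.IR.LocFacts

/-!
# IR-53 (project IR, section 5.2): the correspondence for `K`, equivariant under all automorphisms

Apply `section4` in `Γ = K ⋊[MonoidHom.id (MulAut K)] MulAut K` (finite) with `ι = SemidirectProduct.inl`
(injective), `K' = ι.range` (normal: it is the kernel of `rightHom`), `Q' = Q.map ι`, `H' = H.map ι`;
`Loc p K' Q' H'` by `loc_map`, `Pkg` from `pkg_of_loc`. Let `F'` be the bijection. For `χ ∈ IrrSP p ⊤`,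
`ez ι χ ∈ IrrSP p K'` (`ez_irrS` for `L = ⊤`, `(⊤).map ι = ι.range`, `deg_ez`), `F' (ez ι χ) = ez ι ψ` with
`ψ ∈ IrrS (NN ⊤ Q)` (`NN_map`, `irrS_map`); put `F χ = ψ` (choose; `F χ = fun k => F' (ez ι χ) (ι k)` works).
Bijectivity is transported. For `α` with `α x ∈ Q ↔ x ∈ Q` the element `g = inr α⁻¹` normalizes `Q'` and
conjugation by `g` on `K'` is `α⁻¹`, so `cnj g (ez ι χ) = ez ι (χ ∘ α)`: equivariance of `F'` gives
`F (χ ∘ α) = F χ ∘ α`. `degree`, `block`, `typ`: `deg_ez`, `bl_ez`, `typ_ez`.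
-/

namespace Pool.Agent.Helper42.IR.F

open Pool.Agent.Helper42.INC Pool.Agent.Helper42.IR

/-- the correspondence for the group `K`, with all its automorphisms -/
structure CoreC {K : Type} [Group K] (p : ℕ) (Q H : Subgroup K) (F : (K → ℂ) → (K → ℂ)) :
    Prop where
  bij : Set.BijOn F (IrrSP p (⊤ : Subgroup K)) (IrrSP p (NN (⊤ : Subgroup K) Q))
  equivariant : ∀ α : MulAut K, (∀ x, α x ∈ Q ↔ x ∈ Q) → ∀ χ ∈ IrrSP p (⊤ : Subgroup K),
    F (fun x => χ (α x)) = fun x => F χ (α x)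
  degree : ∀ χ ∈ IrrSP p (⊤ : Subgroup K), (deg (F χ) : ZMod p) ^ 2 = (deg χ : ZMod p) ^ 2
  block : ∀ χ ∈ IrrSP p (⊤ : Subgroup K), ∀ φ ∈ IrrS H, Bl Q H χ φ ↔ Bl Q H (F χ) φ
  typ : ∀ χ ∈ IrrSP p (⊤ : Subgroup K), ∀ φ ∈ IrrS H, Bl Q H χ φ →
    Typ (⊤ : Subgroup K) Q H χ (F χ) φ

section aux

variable {K G : Type} [Group K] [Group G] {ι : K →* G} (hι : Function.Injective ι)
include hι

private lemma ez_irrSP {p : ℕ} {L : Subgroup K} {f : K → ℂ} :
    ez ι f ∈ IrrSP p (L.map ι) ↔ f ∈ IrrSP p L := by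
  constructor
  · rintro ⟨h1, h2⟩
    rw [deg_ez hι] at h2
    exact ⟨(ez_irrS hι).1 h1, h2⟩
  · rintro ⟨h1, h2⟩
    refine ⟨(ez_irrS hι).2 h1, ?_⟩
    rw [deg_ez hι]
    exact h2

private lemma irrSP_map {p : ℕ} {L : Subgroup K} {f : G → ℂ} (hf : f ∈ IrrSP p (L.map ι)) :
    ∃ f' ∈ IrrSP p L, f = ez ι f' := by
  obtain ⟨f', _, rfl⟩ := irrS_map hι hf.1
  exact ⟨f', (ez_irrSP hι).1 hf, rfl⟩

/-- transport of the output of section 4 along `ι`, if enough automorphisms are realized -/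
private lemma core_of {p : ℕ} {Q H : Subgroup K} [ι.range.Normal] {F' : (G → ℂ) → (G → ℂ)}
    (hF : Sec4 p ι.range (Q.map ι) (H.map ι) F')
    (haut : ∀ α : MulAut K, ∃ g : G, ∀ k, g * ι k * g⁻¹ = ι (α k)) :
    CoreC p Q H (fun χ => fun k => F' (ez ι χ) (ι k)) := by
  have hr : ι.range = (⊤ : Subgroup K).map ι := MonoidHom.range_eq_map ι
  have hmem : ∀ x : K, ι x ∈ Q.map ι ↔ x ∈ Q := fun x =>
    Subgroup.mem_map_iff_mem hι
  have htop : ∀ {χ : K → ℂ}, ez ι χ ∈ IrrSP p ι.range ↔ χ ∈ IrrSP p (⊤ : Subgroup K) := by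
    intro χ
    rw [hr]
    exact ez_irrSP hι
  have hnn : ∀ {χ : K → ℂ}, ez ι χ ∈ IrrSP p (NN ι.range (Q.map ι)) ↔
      χ ∈ IrrSP p (NN (⊤ : Subgroup K) Q) := by
    intro χ
    rw [NN_map hι]
    exact ez_irrSP hι
  have hez : ∀ χ ∈ IrrSP p (⊤ : Subgroup K),
      ez ι (fun k => F' (ez ι χ) (ι k)) = F' (ez ι χ) := by
    intro χ hχ
    have h1 := hF.bij.mapsTo (htop.2 hχ)
    rw [NN_map hι] at h1
    obtain ⟨ψ, _, hψ⟩ := irrSP_map hι h1
    rw [hψ]
    congr 1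
    funext k
    rw [ez_apply hι]
  refine ⟨⟨?_, ?_, ?_⟩, ?_, ?_, ?_, ?_⟩
  · intro χ hχ
    rw [← hnn, hez χ hχ]
    exact hF.bij.mapsTo (htop.2 hχ)
  · intro χ hχ χ' hχ' h
    have h1 : F' (ez ι χ) = F' (ez ι χ') := by
      rw [← hez χ hχ, ← hez χ' hχ']
      exact congrArg (ez ι) h
    exact ez_inj hι (hF.bij.injOn (htop.2 hχ) (htop.2 hχ') h1)
  · intro ψ hψ
    obtain ⟨f, hf, hfψ⟩ := hF.bij.surjOn (hnn.2 hψ)
    rw [hr] at hf
    obtain ⟨χ, hχ, rfl⟩ := irrSP_map hι hf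
    refine ⟨χ, hχ, ?_⟩
    apply ez_inj hι
    rw [hez χ hχ, hfψ]
  · intro α hα χ hχ
    obtain ⟨g, hg⟩ := haut α⁻¹
    have hgi : ∀ k, g⁻¹ * ι k * g = ι (α k) := by
      intro k
      have h1 := hg (α k)
      rw [MulAut.inv_apply_self] at h1
      rw [← h1]
      group
    have hgN : g ∈ Subgroup.normalizer ((Q.map ι : Subgroup G) : Set G) := by
      rw [Subgroup.mem_normalizer_iff]
      intro y
      constructor
      · rintro ⟨x, hx, rfl⟩
        rw [hg, hmem, ← hα, MulAut.apply_inv_self]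
        exact hx
      · rintro ⟨x, hx, hxy⟩
        have h2 : y = ι (α x) := by
          rw [← hgi, hxy]
          group
        rw [h2, hmem, hα]
        exact hx
    have hc : ∀ f : K → ℂ, cnj g (ez ι f) = ez ι (fun k => f (α k)) := by
      intro f
      have h1 := cnj_ez hι hg f
      rwa [inv_inv] at h1
    have h1 := hF.equivariant g hgN (ez ι χ) (htop.2 hχ)
    have h2 : (fun x => χ (α x)) ∈ IrrSP p (⊤ : Subgroup K) := by
      rw [← htop, ← hc]
      apply Pool.Agent.Helper97.S4.cnj_mem_irrSP _ (htop.2 hχ)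
      rw [Subgroup.normalizer_eq_top]
      exact Subgroup.mem_top g
    apply ez_inj hι
    rw [hez _ h2, ← hc, h1, ← hez χ hχ, hc]
    simp only [ez_apply hι]
  · intro χ hχ
    have h1 := hF.degree (ez ι χ) (htop.2 hχ)
    rw [← hez χ hχ, deg_ez hι, deg_ez hι] at h1
    exact h1
  · intro χ hχ φ hφ
    have h1 := hF.block (ez ι χ) (htop.2 hχ) (ez ι φ) ((ez_irrS hι).2 hφ)
    rw [← hez χ hχ, bl_ez hι, bl_ez hι] at h1
    exact h1
  · intro χ hχ φ hφ hb
    have h1 := hF.typ (ez ι χ) (htop.2 hχ) (ez ι φ) ((ez_irrS hι).2 hφ) ((bl_ez hι).2 hb)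
    rw [← hez χ hχ, typ_ez hι] at h1
    exact h1

end aux

theorem exists_core {K : Type} [Group K] [Finite K] {p : ℕ} [Fact p.Prime] (hp2 : p ≠ 2)
    {Q H : Subgroup K} (hL : Loc p (⊤ : Subgroup K) Q H) : ∃ F, CoreC p Q H F := by
  let ι : K →* SemidirectProduct K (MulAut K) (MonoidHom.id (MulAut K)) := SemidirectProduct.inl
  have hι : Function.Injective ι := SemidirectProduct.inl_injective
  have hfin : Finite (SemidirectProduct K (MulAut K) (MonoidHom.id (MulAut K))) :=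
    Finite.of_equiv _ SemidirectProduct.equivProd.symm
  have hnorm : ι.range.Normal := by
    have h : ι.range = (SemidirectProduct.rightHom
      (φ := MonoidHom.id (MulAut K))).ker := SemidirectProduct.range_inl_eq_ker_rightHom
    rw [h]
    infer_instance
  obtain ⟨F', hF⟩ := Pool.Agent.Helper97.S4.section4 ι.range (Q.map ι) (H.map ι)
    ((loc_map hι).2 hL) (fun K' Q' H' h => pkg_of_loc h hp2)
  refine ⟨_, core_of hι hF fun α => ⟨SemidirectProduct.inr α, fun k => ?_⟩⟩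
  have h1 := SemidirectProduct.inl_aut (φ := MonoidHom.id (MulAut K)) α k
  rw [map_inv] at h1
  exact h1.symm

end Pool.Agent.Helper42.IR.F
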