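import Pool.Agent.Helper42.IR.Defs

/-!
# IR-54 (project IR, section 5.2): the cover

`R0` acts on the finite perfect group `K` by `a : R0 →* MulAut K`; the semidirect product `K ⋊[a] R0` acts
on `K` by `act a g = conj g.left * a g.right` (this is conjugation on the image of `K`). `X : K → M_m(ℂ)`
affords the irreducible character `θ`, invariant under `R0`.

`exists_cover`: let `C` be the subgroup of `(K ⋊[a] R0) × (M_m(ℂ))ˣ` of the pairs `(g, Z)` with
`Z * X k = X (act a g k) * Z` for all `k` and `det Z = 1`.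
* For each `g` there is `Z` with `(g, Z) ∈ C`: `θ` is invariant under `act a g` (class function, and
  invariant under `R0`), so `k ↦ X (act a g k)` and `X` are irreducible with the same character,
  hence conjugate by an invertible matrix; rescale by an `m`-th root (`m > 0`) to get `det Z = 1`.
* For fixed `g` two such `Z` differ by a scalar `z` (Schur) with `z ^ m = 1`. So `C` is finite and the kernel
  of `τ : (g, Z) ↦ g` has order dividing.. at most `m`: it is the group of the `(1, z)`, `z ^ m = 1`, of order `m`.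
* `ι k = (inl k, X k)`: `det (X k) = 1` since `K` is perfect (`det ∘ X` is a homomorphism to a commutative
  group). Injective. `c ι(k) c⁻¹ = ι (act a (τ c) k)`: the first component is
  `g (inl k) g⁻¹ = inl (act a g k)`, the second `Z X(k) Z⁻¹`.
* the index of `ι.range` is `|C| / |K| = m |R0|`, prime to `p`.
* `Z` is the second projection.

`irr_of_res`: a matrix representation of `C` whose restriction to `K` along `ι` is irreducible is
irreducible.
-/

namespace Pool.Agent.Helper42.IR.F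

open Pool.Agent.Helper42.INC Pool.Agent.Helper42.IR

/-- the action of the semidirect product on `K` -/
def act {K R0 : Type} [Group K] [Group R0] (a : R0 →* MulAut K) (g : K ⋊[a] R0) : MulAut K :=
  MulAut.conj g.left * a g.right

variable {K R0 : Type} [Group K] [Group R0]

theorem act_apply (a : R0 →* MulAut K) (g : K ⋊[a] R0) (k : K) :
    act a g k = g.left * a g.right k * g.left⁻¹ := rfl

theorem act_one (a : R0 →* MulAut K) : act a 1 = 1 := by
  ext k
  rw [act_apply]
  simp

theorem act_mul (a : R0 →* MulAut K) (g g' : K ⋊[a] R0) :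
    act a (g * g') = act a g * act a g' := by
  ext k
  rw [act_apply, MulAut.mul_apply, act_apply, act_apply]
  simp [mul_assoc]

/-- the representation on `Fin m → ℂ` -/
private noncomputable def repM {C : Type} [Group C] {m : ℕ}
    (X : C →* Matrix (Fin m) (Fin m) ℂ) : Representation ℂ C (Fin m → ℂ) :=
  { toFun := fun g => Matrix.toLin' (X g)
    map_one' := by
      rw [map_one, Matrix.toLin'_one]
      rfl
    map_mul' := fun a b => by
      rw [map_mul, Matrix.toLin'_mul]
      rfl }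

private lemma repM_char {C : Type} [Group C] {m : ℕ} (X : C →* Matrix (Fin m) (Fin m) ℂ) :
    (repM X).character = fun g => (X g).trace := by
  funext g
  change LinearMap.trace ℂ (Fin m → ℂ) (Matrix.toLin' (X g)) = (X g).trace
  rw [Matrix.trace_toLin'_eq]

private lemma B_repM {C : Type} [Group C] [Finite C] {m : ℕ}
    (X : C →* Matrix (Fin m) (Fin m) ℂ) :
    B (fun g => (X g).trace) (fun g => (X g).trace) =
      (Module.finrank ℂ (Representation.IntertwiningMap (repM X) (repM X)) : ℂ) := by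
  have := Fintype.ofFinite C
  rw [← repM_char, ← Representation.card_inv_mul_sum_char_mul_char_eq_finrank, B_eq]

private noncomputable def toIM {C : Type} [Group C] {m : ℕ}
    (X : C →* Matrix (Fin m) (Fin m) ℂ) (A : Matrix (Fin m) (Fin m) ℂ)
    (hA : ∀ g, A * X g = X g * A) :
    Representation.IntertwiningMap (repM X) (repM X) :=
  ⟨Matrix.toLin' A, fun g => by
    change Matrix.toLin' A ∘ₗ Matrix.toLin' (X g) = Matrix.toLin' (X g) ∘ₗ Matrix.toLin' A
    rw [← Matrix.toLin'_mul, ← Matrix.toLin'_mul, hA]⟩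

private lemma toIM_ne {C : Type} [Group C] {m : ℕ} (hn : 0 < m)
    (X : C →* Matrix (Fin m) (Fin m) ℂ) :
    toIM X 1 (fun g => by rw [one_mul, mul_one]) ≠ 0 := by
  intro h0
  have h1 : (toIM X 1 (fun g => by rw [one_mul, mul_one])).toLinearMap = 0 := by
    rw [h0]
    rfl
  have h2 : Matrix.toLin' (1 : Matrix (Fin m) (Fin m) ℂ) = 0 := h1
  have h3 : (1 : Matrix (Fin m) (Fin m) ℂ) = 0 := by
    have := congrArg LinearMap.toMatrix' h2
    rwa [LinearMap.toMatrix'_toLin', map_zero] at this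
  have h4 := congrFun (congrFun h3 ⟨0, hn⟩) ⟨0, hn⟩
  simp at h4

private lemma pos_of_mem {C : Type} [Group C] [Finite C] {m : ℕ}
    (X : C →* Matrix (Fin m) (Fin m) ℂ) (h : (fun g => (X g).trace) ∈ Irr C) : 0 < m := by
  obtain ⟨n, hn, h1⟩ := irr_one h
  have h2 : (X 1).trace = (m : ℂ) := by
    rw [map_one, Matrix.trace_one]
    simp
  have h3 : (m : ℂ) = n := h2.symm.trans h1
  have : m = n := by exact_mod_cast h3
  omega

private lemma schurM {C : Type} [Group C] [Finite C] {m : ℕ}
    (X : C →* Matrix (Fin m) (Fin m) ℂ) (h : (fun g => (X g).trace) ∈ Irr C)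
    (A : Matrix (Fin m) (Fin m) ℂ) (hA : ∀ g, A * X g = X g * A) :
    ∃ c : ℂ, A = c • (1 : Matrix (Fin m) (Fin m) ℂ) := by
  have hn := pos_of_mem X h
  have hB := B_irr_self h
  rw [B_repM] at hB
  have hfin : Module.finrank ℂ (Representation.IntertwiningMap (repM X) (repM X)) = 1 := by
    exact_mod_cast hB
  obtain ⟨c, hc⟩ := (finrank_eq_one_iff_of_nonzero' _ (toIM_ne hn X)).1 hfin (toIM X A hA)
  refine ⟨c, ?_⟩
  have h1 : (c • toIM X 1 (fun g => by rw [one_mul, mul_one])).toLinearMap =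
      (toIM X A hA).toLinearMap := by rw [hc]
  have h2 : c • Matrix.toLin' (1 : Matrix (Fin m) (Fin m) ℂ) = Matrix.toLin' A := h1
  have := congrArg LinearMap.toMatrix' h2
  rw [map_smul, LinearMap.toMatrix'_toLin', LinearMap.toMatrix'_toLin'] at this
  exact this.symm

private lemma mem_of_schurM {C : Type} [Group C] [Finite C] {m : ℕ} (hn : 0 < m)
    (X : C →* Matrix (Fin m) (Fin m) ℂ)
    (hs : ∀ A : Matrix (Fin m) (Fin m) ℂ, (∀ g, A * X g = X g * A) →
      ∃ c : ℂ, A = c • (1 : Matrix (Fin m) (Fin m) ℂ)) :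
    (fun g => (X g).trace) ∈ Irr C := by
  refine irr_of_norm_one _ ?_ ?_ ?_
  · rw [← repM_char]
    exact char_isClass _
  · rintro χ ⟨V, _, _, _, ρ, hρ, rfl⟩
    rw [← repM_char]
    exact B_char _ _
  · rw [B_repM]
    have hfin : Module.finrank ℂ (Representation.IntertwiningMap (repM X) (repM X)) = 1 := by
      rw [finrank_eq_one_iff_of_nonzero' _ (toIM_ne hn X)]
      intro w
      obtain ⟨c, hc⟩ := hs (LinearMap.toMatrix' w.toLinearMap) (fun g => by
        have h1 := w.isIntertwining' g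
        have h2 : w.toLinearMap ∘ₗ Matrix.toLin' (X g) =
          Matrix.toLin' (X g) ∘ₗ w.toLinearMap := h1
        have h3 := congrArg LinearMap.toMatrix' h2
        rwa [LinearMap.toMatrix'_comp, LinearMap.toMatrix'_comp,
          LinearMap.toMatrix'_toLin'] at h3)
      refine ⟨c, ?_⟩
      apply Representation.IntertwiningMap.toLinearMap_injective
      change c • Matrix.toLin' (1 : Matrix (Fin m) (Fin m) ℂ) = w.toLinearMap
      have h4 := congrArg Matrix.toLin' hc
      rw [Matrix.toLin'_toMatrix', map_smul] at h4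
      exact h4.symm
    rw [hfin, Nat.cast_one]

private lemma exists_iso {C : Type} [Group C] [Finite C] {m : ℕ}
    (X : C →* Matrix (Fin m) (Fin m) ℂ) {V : Type} [AddCommGroup V] [Module ℂ V]
    [FiniteDimensional ℂ V] (σ : Representation ℂ C V) (hσ : σ.IsIrreducible)
    (hX : ∀ g, (X g).trace = σ.character g) (hmem : σ.character ∈ Irr C) :
    ∃ e : V ≃ₗ[ℂ] (Fin m → ℂ), ∀ g v, e (σ g v) = Matrix.toLin' (X g) (e v) := by
  have := Fintype.ofFinite C
  have hchar : (repM X).character = σ.character := by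
    rw [repM_char]
    funext g
    exact hX g
  have hB := B_irr_self hmem
  have h1 : B (repM X).character σ.character =
      (Module.finrank ℂ (Representation.IntertwiningMap σ (repM X)) : ℂ) := by
    rw [← Representation.card_inv_mul_sum_char_mul_char_eq_finrank, B_eq]
  rw [hchar, hB] at h1
  have hfin : Module.finrank ℂ (Representation.IntertwiningMap σ (repM X)) = 1 := by
    exact_mod_cast h1.symm
  have : Nontrivial (Representation.IntertwiningMap σ (repM X)) :=
    Module.nontrivial_of_finrank_pos (R := ℂ) (by omega)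
  obtain ⟨T, hT⟩ := exists_ne (0 : Representation.IntertwiningMap σ (repM X))
  have hinj : Function.Injective T := by
    rcases Representation.IsIrreducible.injective_or_eq_zero T with h | h
    · exact h
    · exact absurd h hT
  have hdim : Module.finrank ℂ V = Module.finrank ℂ (Fin m → ℂ) := by
    have h2 := congrFun hchar 1
    rw [Representation.char_one, Representation.char_one] at h2
    exact_mod_cast h2.symm
  refine ⟨LinearEquiv.ofInjectiveOfFinrankEq T.toLinearMap hinj hdim, fun g v => ?_⟩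
  have h3 := LinearMap.congr_fun (T.isIntertwining' g) v
  exact h3

private lemma exists_unit {C : Type} [Group C] [Finite C] {m : ℕ}
    (X Y : C →* Matrix (Fin m) (Fin m) ℂ) (h : (fun g => (X g).trace) ∈ Irr C)
    (hXY : ∀ g, (Y g).trace = (X g).trace) :
    ∃ U : Matrix (Fin m) (Fin m) ℂ, U.det ≠ 0 ∧ ∀ g, U * X g = Y g * U := by
  obtain ⟨V, _, _, _, σ, hσ, hch⟩ := id h
  have hmem : σ.character ∈ Irr C := by
    rw [← hch]
    exact h
  obtain ⟨e, he⟩ := exists_iso X σ hσ (fun g => congrFun hch g) hmem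
  obtain ⟨f, hf⟩ := exists_iso Y σ hσ (fun g => (hXY g).trans (congrFun hch g)) hmem
  obtain ⟨T, hT⟩ : ∃ T : (Fin m → ℂ) ≃ₗ[ℂ] (Fin m → ℂ), T = e.symm.trans f := ⟨_, rfl⟩
  refine ⟨LinearMap.toMatrix' T.toLinearMap, ?_, fun g => ?_⟩
  · rw [LinearMap.det_toMatrix']
    exact (LinearEquiv.isUnit_det' T).ne_zero
  · have h1 : T.toLinearMap ∘ₗ Matrix.toLin' (X g) = Matrix.toLin' (Y g) ∘ₗ T.toLinearMap := by
      apply LinearMap.ext
      intro v
      obtain ⟨w, rfl⟩ := e.surjective v
      rw [LinearMap.comp_apply, ← he, LinearMap.comp_apply, hT]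
      change f (e.symm (e (σ g w))) = Matrix.toLin' (Y g) (f (e.symm (e w)))
      rw [e.symm_apply_apply, e.symm_apply_apply, hf]
    have h2 := congrArg LinearMap.toMatrix' h1
    rwa [LinearMap.toMatrix'_comp, LinearMap.toMatrix'_comp, LinearMap.toMatrix'_toLin',
      LinearMap.toMatrix'_toLin'] at h2

/-- the subgroup of the pairs -/
private def Cs (a : R0 →* MulAut K) {m : ℕ} (X : K →* Matrix (Fin m) (Fin m) ℂ) :
    Subgroup ((K ⋊[a] R0) × (Matrix (Fin m) (Fin m) ℂ)ˣ) where
  carrier := {x | (∀ k, x.2.val * X k = X (act a x.1 k) * x.2.val) ∧ x.2.val.det = 1}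
  one_mem' := by
    refine ⟨fun k => ?_, ?_⟩
    · change (1 : Matrix (Fin m) (Fin m) ℂ) * X k = X (act a 1 k) * 1
      rw [act_one, one_mul, mul_one]
      rfl
    · exact Matrix.det_one
  mul_mem' := by
    rintro ⟨g, Z⟩ ⟨g', Z'⟩ ⟨h1, h2⟩ ⟨h3, h4⟩
    refine ⟨fun k => ?_, ?_⟩
    · change Z.val * Z'.val * X k = X (act a (g * g') k) * (Z.val * Z'.val)
      have h3' : Z'.val * X k = X (act a g' k) * Z'.val := h3 k
      have h1' : Z.val * X (act a g' k) = X (act a g (act a g' k)) * Z.val := h1 _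
      rw [act_mul, mul_assoc, h3', ← mul_assoc, h1', mul_assoc]
      rfl
    · change (Z.val * Z'.val).det = 1
      have h2' : Z.val.det = 1 := h2
      have h4' : Z'.val.det = 1 := h4
      rw [Matrix.det_mul, h2', h4', one_mul]
  inv_mem' := by
    rintro ⟨g, Z⟩ ⟨h1, h2⟩
    have hgi : ∀ k, act a g (act a g⁻¹ k) = k := by
      intro k
      have : act a g * act a g⁻¹ = 1 := by rw [← act_mul, mul_inv_cancel, act_one]
      exact congrArg (fun f : MulAut K => f k) this
    refine ⟨fun k => ?_, ?_⟩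
    · change (Z⁻¹).val * X k = X (act a g⁻¹ k) * (Z⁻¹).val
      have h1' : Z.val * X (act a g⁻¹ k) = X (act a g (act a g⁻¹ k)) * Z.val := h1 _
      rw [hgi] at h1'
      have h5 : (Z⁻¹).val * (Z.val * X (act a g⁻¹ k)) * (Z⁻¹).val =
          (Z⁻¹).val * (X k * Z.val) * (Z⁻¹).val := by rw [h1']
      have h6 : (Z⁻¹).val * (Z.val * X (act a g⁻¹ k)) = X (act a g⁻¹ k) := by
        rw [← mul_assoc, Units.inv_mul, one_mul]
      have h7 : (Z⁻¹).val * (X k * Z.val) * (Z⁻¹).val = (Z⁻¹).val * X k := by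
        rw [mul_assoc, mul_assoc, Units.mul_inv, mul_one]
      rw [h6, h7] at h5
      exact h5.symm
    · change (Z⁻¹).val.det = 1
      have h2' : Z.val.det = 1 := h2
      have h5 : Z.val.det * (Z⁻¹).val.det = 1 := by
        rw [← Matrix.det_mul, Units.mul_inv, Matrix.det_one]
      rwa [h2', one_mul] at h5

private lemma mem_Cs {a : R0 →* MulAut K} {m : ℕ} {X : K →* Matrix (Fin m) (Fin m) ℂ}
    {x : (K ⋊[a] R0) × (Matrix (Fin m) (Fin m) ℂ)ˣ} :
    x ∈ Cs a X ↔ (∀ k, x.2.val * X k = X (act a x.1 k) * x.2.val) ∧ x.2.val.det = 1 :=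
  Iff.rfl

private lemma inl_conj (a : R0 →* MulAut K) (g : K ⋊[a] R0) (k : K) :
    g * SemidirectProduct.inl k * g⁻¹ = SemidirectProduct.inl (act a g k) := by
  apply SemidirectProduct.ext
  · rw [act_apply]
    simp
  · simp

theorem exists_cover [Finite K] [Finite R0] (a : R0 →* MulAut K) {m : ℕ}
    (X : K →* Matrix (Fin m) (Fin m) ℂ) {θ : K → ℂ} (hθ : θ ∈ Irr K)
    (hX : ∀ k, (X k).trace = θ k) (hperf : ⁅(⊤ : Subgroup K), (⊤ : Subgroup K)⁆ = ⊤)
    (hinv : ∀ r k, θ (a r k) = θ k) {p : ℕ} [Fact p.Prime] (hR : ¬ p ∣ Nat.card R0)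
    (hm : ¬ p ∣ m) :
    ∃ (C : Type) (_ : Group C) (_ : Finite C) (ι : K →* C) (τ : C →* K ⋊[a] R0)
      (Z : C →* Matrix (Fin m) (Fin m) ℂ), Function.Injective ι ∧ Function.Surjective τ ∧
      (∀ k, τ (ι k) = SemidirectProduct.inl k) ∧
      (∀ c k, c * ι k * c⁻¹ = ι (act a (τ c) k)) ∧ (∀ k, Z (ι k) = X k) ∧
      ¬ p ∣ ι.range.index := by
  have hfun : (fun k => (X k).trace) = θ := funext hX
  have hmem : (fun k => (X k).trace) ∈ Irr K := by rw [hfun]; exact hθ
  have hm0 : 0 < m := pos_of_mem X hmem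
  have hne : NeZero m := ⟨by omega⟩
  have hfinG : Finite (K ⋊[a] R0) :=
    Finite.of_equiv (K × R0) (SemidirectProduct.equivProd (φ := a)).symm
  -- the determinant of `X k`
  have hdet : ∀ k, (X k).det = 1 := by
    intro k
    obtain ⟨D, hD⟩ : ∃ D : K →* ℂˣ,
      D = (Units.map Matrix.detMonoidHom).comp X.toHomUnits := ⟨_, rfl⟩
    have h1 : commutator K ≤ D.ker := Abelianization.commutator_subset_ker D
    rw [commutator_def, hperf] at h1
    have h2 : k ∈ D.ker := h1 (Subgroup.mem_top k)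
    rw [MonoidHom.mem_ker] at h2
    have h3 : ((D k : ℂˣ) : ℂ) = (X k).det := by
      rw [hD]
      rfl
    rw [← h3, h2, Units.val_one]
  -- existence of lifts
  have hex : ∀ g : K ⋊[a] R0, ∃ Z : (Matrix (Fin m) (Fin m) ℂ)ˣ, (g, Z) ∈ Cs a X := by
    intro g
    obtain ⟨U, hU, hUX⟩ := exists_unit X (X.comp (act a g).toMonoidHom) hmem (fun k => by
      change (X (act a g k)).trace = (X k).trace
      rw [hX, hX, act_apply, Irr.isClass hθ, hinv])
    obtain ⟨z, hz⟩ := IsAlgClosed.exists_pow_nat_eq (U.det)⁻¹ hm0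
    have hdz : (z • U).det = 1 := by
      rw [Matrix.det_smul, Fintype.card_fin, hz, inv_mul_cancel₀ hU]
    obtain ⟨Z, hZ⟩ := (Matrix.isUnit_iff_isUnit_det (z • U)).2 (by rw [hdz]; exact isUnit_one)
    refine ⟨Z, fun k => ?_, ?_⟩
    · change Z.val * X k = X (act a g k) * Z.val
      rw [hZ, smul_mul_assoc, mul_smul_comm]
      congr 1
      exact hUX k
    · change Z.val.det = 1
      rw [hZ, hdz]
  choose Zg hZg using hex
  -- uniqueness up to roots of unity
  have huniq : ∀ x : (K ⋊[a] R0) × (Matrix (Fin m) (Fin m) ℂ)ˣ, x ∈ Cs a X →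
      ∃ z : ℂ, z ^ m = 1 ∧ x.2.val = z • (Zg x.1).val := by
    rintro ⟨g, Z⟩ hx
    obtain ⟨h1, h2⟩ := hx
    obtain ⟨h3, h4⟩ := hZg g
    obtain ⟨c, hc⟩ := schurM X hmem (((Zg g)⁻¹).val * Z.val) (fun k => by
      have h1' : Z.val * X k = X (act a g k) * Z.val := h1 k
      have h3' : (Zg g).val * X k = X (act a g k) * (Zg g).val := h3 k
      have h5 : ((Zg g)⁻¹).val * X (act a g k) = X k * ((Zg g)⁻¹).val := by
        have h6 : ((Zg g)⁻¹).val * ((Zg g).val * X k) * ((Zg g)⁻¹).val =
          ((Zg g)⁻¹).val * (X (act a g k) * (Zg g).val) * ((Zg g)⁻¹).val := by rw [h3']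
        rw [← mul_assoc, Units.inv_mul, one_mul, mul_assoc, mul_assoc, Units.mul_inv,
          mul_one] at h6
        exact h6.symm
      rw [mul_assoc, h1', ← mul_assoc, h5, mul_assoc])
    refine ⟨c, ?_, ?_⟩
    · have h6 := congrArg Matrix.det hc
      have h2' : Z.val.det = 1 := h2
      have h4' : (Zg g).val.det = 1 := h4
      have h7 : (Zg g).val.det * ((Zg g)⁻¹).val.det = 1 := by
        rw [← Matrix.det_mul, Units.mul_inv, Matrix.det_one]
      rw [h4', one_mul] at h7
      rw [Matrix.det_mul, h7, h2', Matrix.det_smul, Fintype.card_fin, Matrix.det_one, mul_one,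
        mul_one] at h6
      exact h6.symm
    · have h6 : (Zg g).val * (((Zg g)⁻¹).val * Z.val) = (Zg g).val * (c • 1) := by rw [hc]
      rw [← mul_assoc, Units.mul_inv, one_mul, mul_smul_comm, mul_one] at h6
      exact h6
  -- the bijection
  obtain ⟨F, hF⟩ : ∃ F : (K ⋊[a] R0) × rootsOfUnity m ℂ → (Cs a X), ∀ x,
      (F x).1.1 = x.1 ∧ (F x).1.2.val = ((x.2 : ℂˣ) : ℂ) • (Zg x.1).val := by
    have : ∀ x : (K ⋊[a] R0) × rootsOfUnity m ℂ, ∃ y : Cs a X,
        y.1.1 = x.1 ∧ y.1.2.val = ((x.2 : ℂˣ) : ℂ) • (Zg x.1).val := by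
      rintro ⟨g, ζ⟩
      obtain ⟨h3, h4⟩ := hZg g
      have hζ : (((ζ : ℂˣ) : ℂ)) ^ m = 1 := by
        have := (mem_rootsOfUnity' m (ζ : ℂˣ)).1 ζ.2
        exact this
      have hdz : (((ζ : ℂˣ) : ℂ) • (Zg g).val).det = 1 := by
        have h4' : (Zg g).val.det = 1 := h4
        rw [Matrix.det_smul, Fintype.card_fin, hζ, h4', one_mul]
      obtain ⟨Z, hZ⟩ := (Matrix.isUnit_iff_isUnit_det (((ζ : ℂˣ) : ℂ) • (Zg g).val)).2
        (by rw [hdz]; exact isUnit_one)
      refine ⟨⟨(g, Z), fun k => ?_, ?_⟩, rfl, hZ⟩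
      · change Z.val * X k = X (act a g k) * Z.val
        rw [hZ, smul_mul_assoc, mul_smul_comm]
        congr 1
        exact h3 k
      · change Z.val.det = 1
        rw [hZ, hdz]
    choose F hF using this
    exact ⟨F, hF⟩
  have hFb : Function.Bijective F := by
    constructor
    · rintro ⟨g, ζ⟩ ⟨g', ζ'⟩ h
      have h1 := hF (g, ζ)
      have h2 := hF (g', ζ')
      rw [h] at h1
      have hgg : g = g' := h1.1.symm.trans h2.1
      subst hgg
      have h3 : ((ζ : ℂˣ) : ℂ) • (Zg g).val = ((ζ' : ℂˣ) : ℂ) • (Zg g).val :=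
        h1.2.symm.trans h2.2
      have h4 : (((ζ : ℂˣ) : ℂ) • (Zg g).val) * ((Zg g)⁻¹).val =
        (((ζ' : ℂˣ) : ℂ) • (Zg g).val) * ((Zg g)⁻¹).val := by rw [h3]
      rw [smul_mul_assoc, smul_mul_assoc, Units.mul_inv] at h4
      have h5 := congrFun (congrFun h4 ⟨0, hm0⟩) ⟨0, hm0⟩
      have h6 : ((ζ : ℂˣ) : ℂ) = ((ζ' : ℂˣ) : ℂ) := by simpa using h5
      have h7 : ζ = ζ' := Subtype.ext (Units.ext h6)
      rw [h7]
    · rintro ⟨⟨g, Z⟩, hx⟩
      obtain ⟨z, hz, hz2⟩ := huniq _ hx
      refine ⟨(g, rootsOfUnity.mkOfPowEq z hz), ?_⟩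
      have h1 := hF (g, rootsOfUnity.mkOfPowEq z hz)
      apply Subtype.ext
      apply Prod.ext
      · exact h1.1
      · apply Units.ext
        rw [h1.2, rootsOfUnity.coe_mkOfPowEq]
        exact hz2.symm
  have hfinC : Finite (Cs a X) := Finite.of_surjective F hFb.2
  have hcard : Nat.card (Cs a X) = Nat.card K * Nat.card R0 * m := by
    rw [← Nat.card_eq_of_bijective F hFb, Nat.card_prod, SemidirectProduct.card]
    congr 1
    exact Complex.card_rootsOfUnity m
  -- the embedding
  obtain ⟨ι, hι⟩ : ∃ ι : K →* (Cs a X), ∀ k,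
      (ι k).1.1 = SemidirectProduct.inl k ∧ (ι k).1.2.val = X k := by
    refine ⟨MonoidHom.codRestrict ((SemidirectProduct.inl : K →* K ⋊[a] R0).prod X.toHomUnits)
      (Cs a X) (fun k => ⟨fun k' => ?_, hdet k⟩), fun k => ⟨rfl, rfl⟩⟩
    change X k * X k' = X (act a (SemidirectProduct.inl k) k') * X k
    rw [act_apply, ← map_mul, ← map_mul]
    congr 1
    simp
  have hιinj : Function.Injective ι := by
    intro k k' h
    have h1 := (hι k).1
    rw [h, (hι k').1] at h1
    exact (SemidirectProduct.inl_injective h1).symm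
  refine ⟨Cs a X, inferInstance, hfinC, ι, (MonoidHom.fst _ _).comp (Cs a X).subtype,
    (Units.coeHom _).comp ((MonoidHom.snd _ _).comp (Cs a X).subtype), hιinj, fun g => ?_,
    fun k => (hι k).1, fun c k => ?_, fun k => (hι k).2, ?_⟩
  · exact ⟨⟨(g, Zg g), hZg g⟩, rfl⟩
  · apply Subtype.ext
    apply Prod.ext
    · rw [(hι _).1]
      change c.1.1 * (ι k).1.1 * (c.1.1)⁻¹ = SemidirectProduct.inl (act a c.1.1 k)
      rw [(hι k).1, inl_conj]
    · apply Units.ext
      rw [(hι _).2]
      change c.1.2.val * (ι k).1.2.val * ((c.1.2)⁻¹).val = X (act a c.1.1 k)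
      rw [(hι k).2, (mem_Cs.1 c.2).1 k, mul_assoc, Units.mul_inv, mul_one]
  · have h1 : ι.range.index * Nat.card ι.range = Nat.card (Cs a X) :=
      Subgroup.index_mul_card _
    have h2 : Nat.card ι.range = Nat.card K :=
      Nat.card_congr (MonoidHom.ofInjective hιinj).toEquiv.symm
    rw [h2, hcard] at h1
    have hK : 0 < Nat.card K := Nat.card_pos
    have h3 : ι.range.index = Nat.card R0 * m := by
      have h4 : ι.range.index * Nat.card K = (Nat.card R0 * m) * Nat.card K := by
        rw [h1]; ring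
      exact Nat.eq_of_mul_eq_mul_right hK h4
    rw [h3, Nat.Prime.dvd_mul Fact.out]
    rintro (h | h)
    · exact hR h
    · exact hm h

theorem irr_of_res {C : Type} [Group C] [Finite C] [Finite K] {m : ℕ} (ι : K →* C)
    (Z : C →* Matrix (Fin m) (Fin m) ℂ) (h : (fun k => (Z (ι k)).trace) ∈ Irr K) :
    (fun c => (Z c).trace) ∈ Irr C := by
  have h' : (fun k => ((Z.comp ι) k).trace) ∈ Irr K := h
  refine mem_of_schurM (pos_of_mem (Z.comp ι) h') Z (fun A hA => ?_)
  exact schurM (Z.comp ι) h' A (fun k => hA (ι k))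

end Pool.Agent.Helper42.IR.F
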