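import Pool.Agent.Helper42.IR.F.Cov
import Pool.Agent.Helper42.IR.F.CoreF
import Pool.Agent.Helper42.IR.E.Final
import Pool.Agent.Helper42.IR.PkgTop

/-!
# IR-55 (project IR, section 5.2): Lemma E for the cover

Apply `lemmaE` in `C` with `K := ι.range` (normal by `hconj`), `Q.map ι`, `H.map ι` (`loc_map`), index prime
to `p`, `|Z(ι.range)| = |Z(K)|`, `χh = trace Z` (`irr_of_res`), `χ = ez ι θ`, `ψ = ez ι (F θ)`, and
`φ = ez ι φ0` where `φ0 ∈ IrrS H` with `Bl Q H θ φ0` from `Pkg.exb` (`pkg_top` of IR/PkgTop.lean);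
`ez_irrS`, `deg_ez`, `NN_map`, `bl_ez`, `typ_ez` and the properties of `CoreC`.
Invariance of `ψ` under `g ∈ normalizer (Q.map ι)`: conjugation by `g` is `ι k ↦ ι (α k)` with
`α = act a (τ g) = conj l * a r`; `α` preserves `Q` (`ι` injective), and so does `a r` (`hQ`), so `l`
normalizes `Q`, `l ∈ NN ⊤ Q`. `F θ ∘ a r = F θ` by equivariance (`θ ∘ a r = θ`), and `F θ` is a class function
on `NN ⊤ Q`, vanishing off it. So `F θ ∘ α⁻¹ = F θ` and `cnj g ψ = ψ` by `cnj_ez`.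
-/

namespace Pool.Agent.Helper42.IR.F

open Pool.Agent.Helper42.INC Pool.Agent.Helper42.IR

theorem cover_lemmaE {K R0 : Type} [Group K] [Group R0] [Finite K] {p : ℕ} [Fact p.Prime]
    (hp2 : p ≠ 2) {Q H : Subgroup K} (hL : Loc p (⊤ : Subgroup K) Q H)
    (hz : ¬ p ∣ Nat.card (Subgroup.center K)) {F : (K → ℂ) → (K → ℂ)} (hF : CoreC p Q H F)
    (a : R0 →* MulAut K) (hQ : ∀ r x, a r x ∈ Q ↔ x ∈ Q) {θ : K → ℂ}
    (hθ : θ ∈ IrrSP p (⊤ : Subgroup K)) (hinv : ∀ r k, θ (a r k) = θ k)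
    {C : Type} [Group C] [Finite C] {m : ℕ} (ι : K →* C) (τ : C →* K ⋊[a] R0)
    (Z : C →* Matrix (Fin m) (Fin m) ℂ) (hι : Function.Injective ι)
    (hconj : ∀ c k, c * ι k * c⁻¹ = ι (act a (τ c) k))
    (hZ : ∀ k, (Z (ι k)).trace = θ k) (hidx : ¬ p ∣ ι.range.index) :
    ∃ ψh ∈ CharS (Subgroup.normalizer (Q.map ι : Set C)),
      (∀ t ∈ NN (⊤ : Subgroup K) Q, ψh (ι t) = F θ t) ∧
      ∀ c ∈ Subgroup.centralizer (ι.range : Set C),
        ∀ g ∈ Subgroup.normalizer (Q.map ι : Set C), θ 1 * ψh (g * c) = ψh g * (Z c).trace := by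
  classical
  have hnorm : ι.range.Normal := by
    refine ⟨?_⟩
    rintro _ ⟨k, rfl⟩ c
    rw [hconj]
    exact ⟨_, rfl⟩
  have hr : ι.range = (⊤ : Subgroup K).map ι := MonoidHom.range_eq_map ι
  have hθI : θ ∈ Irr K := mem_irrS_top.1 hθ.1
  have hχh : (fun c => (Z c).trace) ∈ Irr C := by
    apply irr_of_res ι
    have e : (fun k => (Z (ι k)).trace) = θ := by
      funext k
      exact hZ k
    rw [e]
    exact hθI
  obtain ⟨φ0, hφ0, hB0⟩ := (pkg_top hL hp2).exb θ hθ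
  have hez : ez ι θ ∈ IrrSP p ι.range := by
    rw [hr]
    refine ⟨(ez_irrS hι).2 hθ.1, ?_⟩
    rw [deg_ez hι]
    exact hθ.2
  have hFθ := hF.bij.mapsTo hθ
  have hψ : ez ι (F θ) ∈ IrrSP p (NN ι.range (Q.map ι)) := by
    rw [NN_map hι]
    refine ⟨(ez_irrS hι).2 hFθ.1, ?_⟩
    rw [deg_ez hι]
    exact hFθ.2
  have hz' : ¬ p ∣ Nat.card (Subgroup.center ι.range) := by
    have e : K ≃* ι.range := MonoidHom.ofInjective hι
    have h1 : Nat.card (Subgroup.center K) = Nat.card (Subgroup.center ι.range) :=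
      Nat.card_congr (Subgroup.centerCongr e).toEquiv
    rwa [← h1]
  have hmem : ∀ x : K, ι x ∈ Q.map ι ↔ x ∈ Q := fun x => Subgroup.mem_map_iff_mem hι
  have hinvψ : ∀ g ∈ Subgroup.normalizer (Q.map ι : Set C), cnj g (ez ι (F θ)) = ez ι (F θ) := by
    intro g hg
    have hα : ∀ x, act a (τ g) x ∈ Q ↔ x ∈ Q := by
      intro x
      rw [← hmem, ← hconj, ← hmem x]
      exact ((Subgroup.mem_normalizer_iff.1 hg) (ι x)).symm
    have hl : (τ g).left ∈ NN (⊤ : Subgroup K) Q := by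
      refine ⟨Subgroup.mem_top _, ?_⟩
      change (τ g).left ∈ Subgroup.normalizer (Q : Set K)
      rw [Subgroup.mem_normalizer_iff]
      intro y
      obtain ⟨x, rfl⟩ := (a (τ g).right).surjective y
      rw [← act_apply, hα, hQ]
    have hcls : ∀ k, F θ ((τ g).left * k * (τ g).left⁻¹) = F θ k := by
      intro k
      have h1 := Pool.Agent.Helper97.S4.cnj_eq_self (Subgroup.inv_mem _ hl) hFθ.1
      have h2 := congrFun h1 k
      rw [cnj_apply, inv_inv] at h2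
      exact h2
    have hr1 : ∀ k, F θ (a (τ g).right k) = F θ k := by
      intro k
      have h1 := hF.equivariant (a (τ g).right) (hQ (τ g).right) θ hθ
      have h2 : (fun x => θ (a (τ g).right x)) = θ := by
        funext x
        exact hinv _ x
      rw [h2] at h1
      exact (congrFun h1 k).symm
    rw [cnj_ez hι (α := act a (τ g)) (fun k => hconj g k)]
    congr 1
    funext k
    have h1 : act a (τ g) ((act a (τ g))⁻¹ k) = k := MulAut.apply_inv_self _ _ _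
    calc F θ ((act a (τ g))⁻¹ k) = F θ (act a (τ g) ((act a (τ g))⁻¹ k)) := by
          rw [act_apply, hcls, hr1]
      _ = F θ k := by rw [h1]
  obtain ⟨ψh, h1, h2, h3⟩ := lemmaE hp2 ι.range (Q.map ι) (H.map ι) ((loc_map hι).2 hL) hidx hz'
    hχh hez (by
      rintro _ ⟨k, rfl⟩
      rw [ez_apply hι]
      exact hZ k) ((ez_irrS hι).2 hφ0) ((bl_ez hι).2 hB0) hψ
    ((bl_ez hι).2 ((hF.block θ hθ φ0 hφ0).1 hB0)) hinvψ
    ((typ_ez hι).2 (hF.typ θ hθ φ0 hφ0 hB0))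
  refine ⟨ψh, h1, fun t ht => ?_, fun c hc g hg => ?_⟩
  · rw [h2 (ι t) (by rw [NN_map hι]; exact ⟨t, ht, rfl⟩), ez_apply hι]
  · have h4 := h3 c hc g hg
    have h5 : ez ι θ 1 = θ 1 := by
      have h6 := ez_apply hι θ 1
      rwa [map_one] at h6
    rwa [h5] at h4

end Pool.Agent.Helper42.IR.F
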