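import Pool.Agent.Helper42.IR.F.Defs

/-!
# IR-63 (project IR, section 5.2): matched characters with a fixed representation `D`

* `exists_D`: `D (k, t) = X k ⊗ (Y t⁻¹)ᵀ` for matrix representations `X`, `Y` affording `θ`, `φ`. It is
  irreducible: `B` of its character with itself is `1` (product of the two norms), or: a matrix
  commuting with all `X k ⊗ 1` and `1 ⊗ Z` is a scalar (Schur, twice).
* `matchedOn_D`: two representations of the finite group `K × T` with the same character are conjugate
  by an invertible matrix; conjugate `R` accordingly.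
* `matchedOn_sup`: let `cT = T.map MulAut.conj`. `R0` normalizes `cT` as `r (conj t) r⁻¹ = conj (r t)`,
  `r t ∈ T`. So the elements of `R0 ⊔ cT` are the `conj t * r`. Put `R' (conj t * r) = D (t, t) * R r`. Well
  defined: if `conj t * r = conj t' * r'` then `r' r⁻¹ = conj (t'⁻¹ t) ∈ R0`, so
  `R (r' r⁻¹) = D (t'⁻¹ t, t'⁻¹ t)` by the third property. Multiplicative by the second property:
  `R r * D (t, t) = D (r t, r t) * R r`. The three properties hold on `R0 ⊔ cT`.
-/

namespace Pool.Agent.Helper42.IR.F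

open Pool.Agent.Helper42.INC
open scoped Kronecker

section charIso

variable {G : Type} [Group G] [Finite G]

private lemma gl_compl {V : Type} [AddCommGroup V] [Module ℂ V] (ρ : Representation ℂ G V)
    (W : Subrepresentation ρ) :
    ∃ W' : Subrepresentation ρ, IsCompl W.toSubmodule W'.toSubmodule := by
  have : ComplementedLattice (Subrepresentation ρ) :=
    (inferInstance : Representation.IsSemisimpleRepresentation ρ)
  obtain ⟨W', hW'⟩ := exists_isCompl W
  refine ⟨W', ?_, ?_⟩
  · rw [disjoint_iff]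
    exact congrArg Subrepresentation.toSubmodule (disjoint_iff.1 hW'.1)
  · rw [codisjoint_iff]
    exact congrArg Subrepresentation.toSubmodule (codisjoint_iff.1 hW'.2)

omit [Finite G] in
private lemma gl_split {V : Type} [AddCommGroup V] [Module ℂ V] [FiniteDimensional ℂ V]
    (ρ : Representation ℂ G V) (W W' : Subrepresentation ρ)
    (h : IsCompl W.toSubmodule W'.toSubmodule) (g : G) :
    ρ.character g = W.toRepresentation.character g + W'.toRepresentation.character g := by
  set e := Submodule.prodEquivOfIsCompl _ _ h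
  have h1 : ρ g = e.conj (LinearMap.prodMap (W.toRepresentation g) (W'.toRepresentation g)) := by
    ext v
    obtain ⟨⟨x, y⟩, rfl⟩ := e.surjective v
    rw [LinearEquiv.conj_apply_apply, LinearEquiv.symm_apply_apply]
    simp only [LinearMap.prodMap_apply]
    rw [Submodule.coe_prodEquivOfIsCompl', Submodule.coe_prodEquivOfIsCompl', map_add]
    rfl
  show LinearMap.trace ℂ V (ρ g) = _
  rw [h1, LinearMap.trace_conj', LinearMap.trace_prodMap']
  rfl

/-- representations with the same character are isomorphic -/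
private theorem gl_iso (n : ℕ) : ∀ {V W : Type} [AddCommGroup V] [Module ℂ V]
    [FiniteDimensional ℂ V] [AddCommGroup W] [Module ℂ W] [FiniteDimensional ℂ W]
    (ρ : Representation ℂ G V) (σ : Representation ℂ G W), Module.finrank ℂ V = n →
    ρ.character = σ.character → Nonempty (Representation.Equiv ρ σ) := by
  classical
  induction n using Nat.strong_induction_on with
  | _ n ih =>
  intro V W _ _ _ _ _ _ ρ σ hn hch
  have hfr : Module.finrank ℂ W = n := by
    have h1 := congrFun hch 1
    rw [Representation.char_one, Representation.char_one] at h1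
    have h2 : Module.finrank ℂ V = Module.finrank ℂ W := by exact_mod_cast h1
    omega
  rcases Nat.eq_zero_or_pos n with h0 | h0
  · subst h0
    have hV : Subsingleton V := Module.finrank_zero_iff.1 hn
    have hW : Subsingleton W := Module.finrank_zero_iff.1 hfr
    exact ⟨Representation.Equiv.mk (LinearEquiv.ofFinrankEq V W (by omega)) (fun g => by
      apply LinearMap.ext
      intro v
      exact Subsingleton.elim _ _)⟩
  · have := Fintype.ofFinite G
    have hid : Representation.IntertwiningMap.id ρ ≠ 0 := by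
      intro hz
      have h3 : (LinearMap.id : V →ₗ[ℂ] V) = 0 := congrArg (fun f => f.toLinearMap) hz
      have : Subsingleton V := ⟨fun x y => by
        have hx := LinearMap.congr_fun h3 x
        have hy := LinearMap.congr_fun h3 y
        simp only [LinearMap.id_apply, LinearMap.zero_apply] at hx hy
        rw [hx, hy]⟩
      have : Module.finrank ℂ V = 0 := Module.finrank_zero_iff.2 this
      omega
    have hrr : 0 < Module.finrank ℂ (Representation.IntertwiningMap ρ ρ) :=
      Module.finrank_pos_iff_exists_ne_zero.2 ⟨_, hid⟩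
    have hrs : (Module.finrank ℂ (Representation.IntertwiningMap ρ σ) : ℂ) =
        Module.finrank ℂ (Representation.IntertwiningMap ρ ρ) := by
      rw [← Representation.card_inv_mul_sum_char_mul_char_eq_finrank,
        ← Representation.card_inv_mul_sum_char_mul_char_eq_finrank, hch]
    have hrs' : 0 < Module.finrank ℂ (Representation.IntertwiningMap ρ σ) := by
      have : Module.finrank ℂ (Representation.IntertwiningMap ρ σ) =
        Module.finrank ℂ (Representation.IntertwiningMap ρ ρ) := by exact_mod_cast hrs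
      omega
    obtain ⟨F, hF⟩ := Module.finrank_pos_iff_exists_ne_zero.1 hrs'
    obtain ⟨V', hV'⟩ := gl_compl ρ F.ker
    obtain ⟨J, hJ⟩ := gl_compl σ F.range
    have hmem : ∀ v, F v ∈ F.range.toSubmodule := fun v => ⟨v, rfl⟩
    -- `V' ≅ range`
    let f1 : V'.toSubmodule →ₗ[ℂ] F.range.toSubmodule :=
      (F.toLinearMap.codRestrict F.range.toSubmodule hmem).domRestrict V'.toSubmodule
    have hf1 : Function.Bijective f1 := by
      constructor
      · rw [← LinearMap.ker_eq_bot, LinearMap.ker_eq_bot']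
        intro x hx
        have h1 : F (x : V) = 0 := congrArg Subtype.val hx
        have h2 : (x : V) ∈ F.ker.toSubmodule := h1
        have h3 : (x : V) ∈ F.ker.toSubmodule ⊓ V'.toSubmodule := ⟨h2, x.2⟩
        rw [disjoint_iff.1 hV'.1] at h3
        exact Subtype.ext ((Submodule.mem_bot ℂ).1 h3)
      · rintro ⟨_, ⟨v, rfl⟩⟩
        have h1 : v ∈ F.ker.toSubmodule ⊔ V'.toSubmodule := by
          rw [codisjoint_iff.1 hV'.2]; trivial
        obtain ⟨x, hx, y, hy, rfl⟩ := Submodule.mem_sup.1 h1
        refine ⟨⟨y, hy⟩, Subtype.ext ?_⟩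
        show F.toLinearMap y = F.toLinearMap (x + y)
        have h2 : F.toLinearMap x = 0 := hx
        rw [map_add, h2, zero_add]
    let e1 : V'.toSubmodule ≃ₗ[ℂ] F.range.toSubmodule := LinearEquiv.ofBijective f1 hf1
    have he1 : ∀ g, (e1 : V'.toSubmodule →ₗ[ℂ] F.range.toSubmodule) ∘ₗ V'.toRepresentation g =
        F.range.toRepresentation g ∘ₗ (e1 : V'.toSubmodule →ₗ[ℂ] F.range.toSubmodule) := by
      intro g
      ext v
      show F (ρ g v) = σ g (F v)
      exact Representation.IntertwiningMap.isIntertwining ρ σ F g v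
    have hc1 : V'.toRepresentation.character = F.range.toRepresentation.character :=
      Representation.char_iso (Representation.Equiv.mk e1 he1)
    have hc2 : F.ker.toRepresentation.character = J.toRepresentation.character := by
      funext g
      have h1 := gl_split ρ _ _ hV' g
      have h2 := gl_split σ _ _ hJ g
      rw [hch, h2, hc1] at h1
      linear_combination -h1
    have hlt : Module.finrank ℂ F.ker.toSubmodule < n := by
      rw [← hn]
      apply Submodule.finrank_lt
      intro htop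
      apply hF
      apply Representation.IntertwiningMap.ext
      apply LinearMap.ext
      intro v
      have : v ∈ F.ker.toSubmodule := by rw [htop]; trivial
      exact this
    obtain ⟨e2⟩ := ih _ hlt F.ker.toRepresentation J.toRepresentation rfl hc2
    let e : V ≃ₗ[ℂ] W := (Submodule.prodEquivOfIsCompl _ _ hV').symm ≪≫ₗ
      (LinearEquiv.prodCongr e2.toLinearEquiv e1) ≪≫ₗ Submodule.prodEquivOfIsCompl _ _ hJ.symm
    refine ⟨Representation.Equiv.mk e (fun g => ?_)⟩
    apply LinearMap.ext
    intro v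
    obtain ⟨⟨x, y⟩, rfl⟩ := (Submodule.prodEquivOfIsCompl _ _ hV').surjective v
    have hρ : ρ g ((Submodule.prodEquivOfIsCompl _ _ hV') (x, y)) =
        (Submodule.prodEquivOfIsCompl _ _ hV')
          (F.ker.toRepresentation g x, V'.toRepresentation g y) := by
      rw [Submodule.coe_prodEquivOfIsCompl', Submodule.coe_prodEquivOfIsCompl', map_add]
      rfl
    show e (ρ g _) = σ g (e _)
    rw [hρ]
    simp only [e, LinearEquiv.trans_apply, LinearEquiv.symm_apply_apply,
      LinearEquiv.prodCongr_apply]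
    rw [Submodule.coe_prodEquivOfIsCompl', Submodule.coe_prodEquivOfIsCompl', map_add]
    have h3 : e2.toLinearEquiv (F.ker.toRepresentation g x) =
        J.toRepresentation g (e2.toLinearEquiv x) :=
      Representation.IntertwiningMap.isIntertwining _ _ e2.toIntertwiningMap g x
    have h4 : e1 (V'.toRepresentation g y) = F.range.toRepresentation g (e1 y) :=
      LinearMap.congr_fun (he1 g) y
    rw [h3, h4]
    rfl

/-- the representation on column vectors given by a matrix representation -/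
private noncomputable def glRep {H n : Type} [Group H] [Fintype n] [DecidableEq n]
    (D : H →* Matrix n n ℂ) : Representation ℂ H (n → ℂ) :=
  (Matrix.toLinAlgEquiv' (R := ℂ) (n := n)).toMulEquiv.toMonoidHom.comp D

private lemma gl_apply {H n : Type} [Group H] [Fintype n] [DecidableEq n]
    (D : H →* Matrix n n ℂ) (h : H) : glRep D h = Matrix.toLin' (D h) := rfl

private lemma gl_char {H n : Type} [Group H] [Fintype n] [DecidableEq n]
    (D : H →* Matrix n n ℂ) : (glRep D).character = fun h => (D h).trace := by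
  funext h
  rw [Representation.character, gl_apply, Matrix.trace_toLin'_eq]

/-- matrix representations with the same character are conjugate -/
private theorem gl_conj {n m : Type} [Fintype n] [DecidableEq n] [Fintype m] [DecidableEq m]
    (D : G →* Matrix n n ℂ) (D' : G →* Matrix m m ℂ) (h : ∀ g, (D g).trace = (D' g).trace) :
    ∃ (P : Matrix m n ℂ) (Q : Matrix n m ℂ), P * Q = 1 ∧ Q * P = 1 ∧
      (∀ g, P * D g = D' g * P) ∧ ∀ g, Q * D' g = D g * Q := by
  obtain ⟨e, he1⟩ : ∃ e : (n → ℂ) ≃ₗ[ℂ] (m → ℂ), ∀ g,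
      (e : (n → ℂ) →ₗ[ℂ] (m → ℂ)) ∘ₗ Matrix.toLin' (D g) =
      Matrix.toLin' (D' g) ∘ₗ (e : (n → ℂ) →ₗ[ℂ] (m → ℂ)) := by
    obtain ⟨e⟩ := gl_iso _ (glRep D) (glRep D') rfl (by
      rw [gl_char, gl_char]
      funext g
      exact h g)
    refine ⟨e.toLinearEquiv, fun g => ?_⟩
    apply LinearMap.ext
    intro v
    exact Representation.IntertwiningMap.isIntertwining _ _ e.toIntertwiningMap g v
  have hPQ : LinearMap.toMatrix' (e : (n → ℂ) →ₗ[ℂ] (m → ℂ)) *
      LinearMap.toMatrix' (e.symm : (m → ℂ) →ₗ[ℂ] (n → ℂ)) = 1 := by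
    rw [← LinearMap.toMatrix'_comp]
    simp
  have hQP : LinearMap.toMatrix' (e.symm : (m → ℂ) →ₗ[ℂ] (n → ℂ)) *
      LinearMap.toMatrix' (e : (n → ℂ) →ₗ[ℂ] (m → ℂ)) = 1 := by
    rw [← LinearMap.toMatrix'_comp]
    simp
  have hP : ∀ g, LinearMap.toMatrix' (e : (n → ℂ) →ₗ[ℂ] (m → ℂ)) * D g =
      D' g * LinearMap.toMatrix' (e : (n → ℂ) →ₗ[ℂ] (m → ℂ)) := by
    intro g
    have h1 := congrArg LinearMap.toMatrix' (he1 g)
    rw [LinearMap.toMatrix'_comp, LinearMap.toMatrix'_comp, LinearMap.toMatrix'_toLin',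
      LinearMap.toMatrix'_toLin'] at h1
    exact h1
  refine ⟨_, _, hPQ, hQP, hP, fun g => ?_⟩
  set P := LinearMap.toMatrix' (e : (n → ℂ) →ₗ[ℂ] (m → ℂ))
  set Q := LinearMap.toMatrix' (e.symm : (m → ℂ) →ₗ[ℂ] (n → ℂ))
  calc Q * D' g = Q * D' g * (P * Q) := by rw [hPQ, Matrix.mul_one]
    _ = Q * (D' g * P) * Q := by simp only [Matrix.mul_assoc]
    _ = Q * (P * D g) * Q := by rw [hP g]
    _ = (Q * P) * D g * Q := by simp only [Matrix.mul_assoc]
    _ = D g * Q := by rw [hQP, Matrix.one_mul]

/-- Schur's lemma for matrices -/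
private lemma gl_comm {n : Type} [Fintype n] [DecidableEq n]
    (D : G →* Matrix n n ℂ) (hD : (fun h => (D h).trace) ∈ Irr G) (A : Matrix n n ℂ)
    (hA : ∀ h, A * D h = D h * A) : ∃ c : ℂ, A = c • (1 : Matrix n n ℂ) := by
  classical
  have := Fintype.ofFinite G
  have hne : (D 1).trace ≠ 0 := by
    obtain ⟨m, hm0, hm⟩ := irr_one hD
    rw [hm]
    exact_mod_cast hm0.ne'
  have h1 : B (glRep D).character (glRep D).character = 1 := by
    rw [gl_char]
    exact B_irr_self hD
  rw [B_eq, Representation.card_inv_mul_sum_char_mul_char_eq_finrank] at h1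
  have h2 : Module.finrank ℂ (Representation.IntertwiningMap (glRep D) (glRep D)) = 1 := by
    exact_mod_cast h1
  have hid : Representation.IntertwiningMap.id (glRep D) ≠ 0 := by
    intro h0
    have h3 : (LinearMap.id : (n → ℂ) →ₗ[ℂ] (n → ℂ)) = 0 :=
      congrArg (fun f => f.toLinearMap) h0
    apply hne
    rw [map_one, Matrix.trace_one]
    have h4 : IsEmpty n := by
      by_contra hcon
      rw [not_isEmpty_iff] at hcon
      obtain ⟨i⟩ := hcon
      have h5 := congrFun (LinearMap.congr_fun h3 (fun _ => (1 : ℂ))) i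
      simp at h5
    simp
  have hcz : ∀ g, Matrix.toLin' A ∘ₗ glRep D g = glRep D g ∘ₗ Matrix.toLin' A := by
    intro g
    rw [gl_apply, ← Matrix.toLin'_mul, ← Matrix.toLin'_mul, hA g]
  obtain ⟨c, hc⟩ := (finrank_eq_one_iff_of_nonzero' _ hid).1 h2
    ⟨Matrix.toLin' A, hcz⟩
  have h6 : c • (LinearMap.id : (n → ℂ) →ₗ[ℂ] (n → ℂ)) = Matrix.toLin' A :=
    congrArg (fun f => f.toLinearMap) hc
  refine ⟨c, ?_⟩
  apply Matrix.toLin'.injective
  rw [← h6, map_smul, Matrix.toLin'_one]

omit [Finite G] in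
/-- matrix form of an irreducible character -/
private lemma gl_mat {θ : G → ℂ} (h : θ ∈ Irr G) :
    ∃ (m : ℕ) (X : G →* Matrix (Fin m) (Fin m) ℂ), 0 < m ∧ (fun g => (X g).trace) = θ := by
  obtain ⟨V, _, _, _, ρ, hρ, rfl⟩ := h
  have hnt := ((isIrreducible_iff ρ).1 hρ).1
  let b := Module.finBasis ℂ V
  refine ⟨Module.finrank ℂ V, (LinearMap.toMatrixAlgEquiv b).toMulEquiv.toMonoidHom.comp ρ,
    Module.finrank_pos, ?_⟩
  funext g
  exact (LinearMap.trace_eq_matrix_trace ℂ b (ρ g)).symm

end charIso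

variable {K : Type} [Group K] [Finite K] {T : Subgroup K} {θ : K → ℂ} {φ : T → ℂ}

theorem exists_D (hθ : θ ∈ Irr K) (hφ : φ ∈ Irr T) :
    ∃ (d : ℕ) (D : K × T →* Matrix (Fin d) (Fin d) ℂ), 0 < d ∧
      (∀ k t, (D (k, t)).trace = θ k * φ t⁻¹) ∧
      ∀ A : Matrix (Fin d) (Fin d) ℂ, (∀ x, A * D x = D x * A) →
        ∃ c : ℂ, A = c • (1 : Matrix (Fin d) (Fin d) ℂ) := by
  classical
  obtain ⟨m, X, hm, hX⟩ := gl_mat hθ
  obtain ⟨l, Y, hl, hY⟩ := gl_mat hφ
  have hXt : ∀ k, (X k).trace = θ k := fun k => congrFun hX k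
  have hYt : ∀ t, (Y t).trace = φ t := fun t => congrFun hY t
  let D0 : K × T →* Matrix (Fin m × Fin l) (Fin m × Fin l) ℂ :=
    { toFun := fun ab => X ab.1 ⊗ₖ (Y ab.2⁻¹).transpose
      map_one' := by
        show X 1 ⊗ₖ (Y (1 : T)⁻¹).transpose = 1
        rw [inv_one, map_one, map_one, Matrix.transpose_one, Matrix.one_kronecker_one]
      map_mul' := by
        rintro ⟨a, b⟩ ⟨a', b'⟩
        show X (a * a') ⊗ₖ (Y (b * b')⁻¹).transpose =
          X a ⊗ₖ (Y b⁻¹).transpose * X a' ⊗ₖ (Y b'⁻¹).transpose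
        rw [mul_inv_rev, map_mul, map_mul, Matrix.transpose_mul, Matrix.mul_kronecker_mul] }
  have hD0 : ∀ a b, D0 (a, b) = X a ⊗ₖ (Y b⁻¹).transpose := fun a b => rfl
  -- Schur for `D0`
  have hS0 : ∀ A : Matrix (Fin m × Fin l) (Fin m × Fin l) ℂ, (∀ x, A * D0 x = D0 x * A) →
      ∃ c : ℂ, A = c • (1 : Matrix (Fin m × Fin l) (Fin m × Fin l) ℂ) := by
    intro A hA
    have h1 : ∀ j j' : Fin l, ∃ c : ℂ, (Matrix.of (fun i i' => A (i, j) (i', j')) :
        Matrix (Fin m) (Fin m) ℂ) = c • (1 : Matrix (Fin m) (Fin m) ℂ) := by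
      intro j j'
      apply gl_comm X (by rw [hX]; exact hθ)
      intro k
      have h2 := hA (k, 1)
      rw [hD0, inv_one, map_one, Matrix.transpose_one] at h2
      ext i i'
      have h3 := congrFun (congrFun h2 (i, j)) (i', j')
      rw [Matrix.mul_apply, Matrix.mul_apply, Fintype.sum_prod_type, Fintype.sum_prod_type] at h3
      simp only [Matrix.kroneckerMap_apply, Matrix.one_apply] at h3
      rw [Matrix.mul_apply, Matrix.mul_apply]
      simp only [Matrix.of_apply]
      calc ∑ x, A (i, j) (x, j') * X k x i'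
          = ∑ x, ∑ y, A (i, j) (x, y) * (X k x i' * if y = j' then 1 else 0) := by
            refine Finset.sum_congr rfl (fun x _ => ?_)
            rw [Finset.sum_eq_single j']
            · simp
            · intro y _ hy
              simp [hy]
            · simp
        _ = ∑ x, ∑ y, (X k i x * if j = y then 1 else 0) * A (x, y) (i', j') := h3
        _ = ∑ x, X k i x * A (x, j) (i', j') := by
            refine Finset.sum_congr rfl (fun x _ => ?_)
            rw [Finset.sum_eq_single j]
            · simp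
            · intro y _ hy
              simp [hy.symm]
            · simp
    choose b hb using h1
    have hA' : ∀ i j i' j', A (i, j) (i', j') = if i = i' then b j j' else 0 := by
      intro i j i' j'
      have h2 := congrFun (congrFun (hb j j') i) i'
      rw [Matrix.of_apply, Matrix.smul_apply, Matrix.one_apply, smul_eq_mul] at h2
      rw [h2]
      split_ifs <;> simp
    let i0 : Fin m := ⟨0, hm⟩
    obtain ⟨c, hc⟩ := gl_comm Y (by rw [hY]; exact hφ)
      (Matrix.of (fun j j' => b j' j)) (by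
        intro t
        have h2 := hA (1, t⁻¹)
        rw [hD0, inv_inv, map_one] at h2
        ext j j'
        have h3 := congrFun (congrFun h2 (i0, j')) (i0, j)
        rw [Matrix.mul_apply, Matrix.mul_apply, Fintype.sum_prod_type, Fintype.sum_prod_type] at h3
        simp only [Matrix.kroneckerMap_apply, Matrix.one_apply, Matrix.transpose_apply, hA'] at h3
        rw [Matrix.mul_apply, Matrix.mul_apply]
        simp only [Matrix.of_apply]
        rw [Finset.sum_eq_single i0 (by intro x _ hx; simp [hx.symm]) (by simp),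
          Finset.sum_eq_single i0 (by intro x _ hx; simp [hx.symm]) (by simp)] at h3
        simp only [if_true, one_mul] at h3
        calc ∑ x, b x j * Y t x j' = ∑ x, Y t x j' * b x j :=
              Finset.sum_congr rfl (fun x _ => mul_comm _ _)
          _ = ∑ x, b j' x * Y t j x := h3.symm
          _ = ∑ x, Y t j x * b j' x := Finset.sum_congr rfl (fun x _ => mul_comm _ _))
    refine ⟨c, ?_⟩
    ext ⟨i, j⟩ ⟨i', j'⟩
    have h4 : b j j' = if j = j' then c else 0 := by
      have h5 := congrFun (congrFun hc j') j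
      rw [Matrix.of_apply, Matrix.smul_apply, Matrix.one_apply, smul_eq_mul] at h5
      rw [h5]
      by_cases hjj : j = j'
      · simp [hjj]
      · simp [hjj, Ne.symm hjj]
    rw [hA', h4, Matrix.smul_apply, Matrix.one_apply, smul_eq_mul]
    by_cases hi : i = i' <;> by_cases hj : j = j' <;> simp [hi, hj]
  let e : Fin m × Fin l ≃ Fin (m * l) := finProdFinEquiv
  let E : Matrix (Fin m × Fin l) (Fin m × Fin l) ℂ ≃ₐ[ℂ] Matrix (Fin (m * l)) (Fin (m * l)) ℂ :=
    Matrix.reindexAlgEquiv ℂ ℂ e
  refine ⟨m * l, (E.toMulEquiv.toMonoidHom).comp D0, Nat.mul_pos hm hl, ?_, ?_⟩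
  · intro k t
    show (Matrix.reindex e e (D0 (k, t))).trace = _
    have h1 : (Matrix.reindex e e (D0 (k, t))).trace = (D0 (k, t)).trace := by
      unfold Matrix.trace
      simp only [Matrix.diag_apply, Matrix.reindex_apply, Matrix.submatrix_apply]
      exact Equiv.sum_comp e.symm (fun i => D0 (k, t) i i)
    rw [h1, hD0, Matrix.trace_kronecker, Matrix.trace_transpose, hXt, hYt]
  · intro A hA
    obtain ⟨c, hc⟩ := hS0 (E.symm A) (by
      intro x
      have h1 : A * E (D0 x) = E (D0 x) * A := hA x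
      have h2 := congrArg E.symm h1
      rwa [map_mul, map_mul, AlgEquiv.symm_apply_apply] at h2)
    refine ⟨c, ?_⟩
    have h3 := congrArg E hc
    rwa [AlgEquiv.apply_symm_apply, map_smul, map_one] at h3

theorem matchedOn_D {R0 : Subgroup (MulAut K)} (h : MatchedOn T θ φ R0) {d : ℕ}
    (D : K × T →* Matrix (Fin d) (Fin d) ℂ) (hD : ∀ k t, (D (k, t)).trace = θ k * φ t⁻¹) :
    ∃ R : R0 →* Matrix (Fin d) (Fin d) ℂ,
      (∀ (α : R0) (k : K) (t t' : T), (t' : K) = α.1 t →
        R α * D (k, t) = D (α.1 k, t') * R α) ∧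
      (∀ (α : R0) (t : T), α.1 = MulAut.conj (t : K) → R α = D (t, t)) := by
  obtain ⟨d', D', R', h1, h2, h3⟩ := h
  obtain ⟨P, Q, hPQ, hQP, hP, hQ⟩ := gl_conj D D' (by
    rintro ⟨k, t⟩
    rw [hD, h1])
  refine ⟨{ toFun := fun α => Q * R' α * P, map_one' := ?_, map_mul' := ?_ }, ?_, ?_⟩
  · rw [map_one, Matrix.mul_one, hQP]
  · intro α β
    rw [map_mul]
    calc Q * (R' α * R' β) * P = Q * R' α * (1 : Matrix (Fin d') (Fin d') ℂ) * R' β * P := by
          rw [Matrix.mul_one]; simp only [Matrix.mul_assoc]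
      _ = Q * R' α * (P * Q) * R' β * P := by rw [hPQ]
      _ = Q * R' α * P * (Q * R' β * P) := by simp only [Matrix.mul_assoc]
  · intro α k t t' ht
    show Q * R' α * P * D (k, t) = D (α.1 k, t') * (Q * R' α * P)
    calc Q * R' α * P * D (k, t) = Q * R' α * (P * D (k, t)) := by simp only [Matrix.mul_assoc]
      _ = Q * R' α * (D' (k, t) * P) := by rw [hP]
      _ = Q * (R' α * D' (k, t)) * P := by simp only [Matrix.mul_assoc]
      _ = Q * (D' (α.1 k, t') * R' α) * P := by rw [h2 α k t t' ht]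
      _ = (Q * D' (α.1 k, t')) * R' α * P := by simp only [Matrix.mul_assoc]
      _ = (D (α.1 k, t') * Q) * R' α * P := by rw [hQ]
      _ = D (α.1 k, t') * (Q * R' α * P) := by simp only [Matrix.mul_assoc]
  · intro α t ht
    show Q * R' α * P = D (t, t)
    rw [h3 α t ht, hQ, Matrix.mul_assoc, hQP, Matrix.mul_one]

theorem matchedOn_sup {R0 : Subgroup (MulAut K)} (hR : ∀ r ∈ R0, ∀ x, r x ∈ T ↔ x ∈ T)
    (h : MatchedOn T θ φ R0) : MatchedOn T θ φ (R0 ⊔ T.map MulAut.conj) := by
  classical
  obtain ⟨d, D, R, h1, h2, h3⟩ := h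
  have hcomm : ∀ r ∈ R0, ∀ t : K, r * MulAut.conj t = MulAut.conj (r t) * r := by
    intro r _ t
    ext x
    simp [MulAut.mul_apply]
  -- the elements of the join
  have hel : ∀ α ∈ R0 ⊔ T.map MulAut.conj, ∃ (t : T) (r : R0), α = MulAut.conj (t : K) * r.1 := by
    let J : Subgroup (MulAut K) :=
      { carrier := {α | ∃ (t : T) (r : R0), α = MulAut.conj (t : K) * r.1}
        one_mem' := ⟨1, 1, by simp⟩
        mul_mem' := by
          rintro _ _ ⟨t, r, rfl⟩ ⟨t', r', rfl⟩
          refine ⟨t * ⟨r.1 t', (hR r.1 r.2 _).2 t'.2⟩, r * r', ?_⟩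
          rw [Subgroup.coe_mul, Subgroup.coe_mul, map_mul]
          calc MulAut.conj (t : K) * r.1 * (MulAut.conj (t' : K) * r'.1)
              = MulAut.conj (t : K) * (r.1 * MulAut.conj (t' : K)) * r'.1 := by group
            _ = MulAut.conj (t : K) * (MulAut.conj (r.1 t') * r.1) * r'.1 := by
                rw [hcomm r.1 r.2]
            _ = MulAut.conj (t : K) * MulAut.conj (r.1 t') * (r.1 * r'.1) := by group
        inv_mem' := by
          rintro _ ⟨t, r, rfl⟩
          refine ⟨⟨(r⁻¹).1 (t⁻¹ : T), (hR _ (r⁻¹).2 _).2 (t⁻¹).2⟩, r⁻¹, ?_⟩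
          show (MulAut.conj (t : K) * r.1)⁻¹ = MulAut.conj ((r⁻¹).1 ((t⁻¹ : T) : K)) * (r⁻¹).1
          rw [← hcomm _ (r⁻¹).2]
          rw [mul_inv_rev, Subgroup.coe_inv, Subgroup.coe_inv, map_inv] }
    have hle : R0 ⊔ T.map MulAut.conj ≤ J := by
      rw [sup_le_iff]
      constructor
      · intro r hr
        exact ⟨1, ⟨r, hr⟩, by simp⟩
      · rintro _ ⟨t, ht, rfl⟩
        exact ⟨⟨t, ht⟩, 1, by simp⟩
    intro α hα
    exact hle hα
  choose tt rr htr using fun α : (R0 ⊔ T.map MulAut.conj : Subgroup (MulAut K)) => hel α.1 α.2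
  -- well-definedness
  have hwd : ∀ (α : (R0 ⊔ T.map MulAut.conj : Subgroup (MulAut K))) (t : T) (r : R0),
      α.1 = MulAut.conj (t : K) * r.1 → D (tt α, tt α) * R (rr α) = D (t, t) * R r := by
    intro α t r hα
    have h4 : MulAut.conj (t : K) * r.1 = MulAut.conj (tt α : K) * (rr α).1 := by
      rw [← hα, ← htr α]
    have h5 : ((rr α) * r⁻¹ : R0).1 = MulAut.conj (((tt α)⁻¹ * t : T) : K) := by
      rw [Subgroup.coe_mul, Subgroup.coe_inv, Subgroup.coe_mul, Subgroup.coe_inv, map_mul, map_inv]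
      rw [mul_inv_eq_iff_eq_mul, mul_assoc, h4]
      group
    have h6 := h3 _ _ h5
    have h7 : R (rr α) = D ((((tt α)⁻¹ * t : T) : K), (tt α)⁻¹ * t) * R r := by
      rw [← h6, ← map_mul]
      congr 1
      group
    rw [h7, ← Matrix.mul_assoc, ← map_mul]
    congr 2
    ext
    · simp
    · simp
  refine ⟨d, D, { toFun := fun α => D (tt α, tt α) * R (rr α), map_one' := ?_, map_mul' := ?_ },
    h1, ?_, ?_⟩
  · rw [hwd 1 1 1 (by simp)]
    have : ((((1 : T) : K)), (1 : T)) = (1 : K × T) := rfl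
    rw [this, map_one, map_one, Matrix.mul_one]
  · intro α β
    rw [hwd (α * β) (tt α * ⟨(rr α).1 (tt β), (hR _ (rr α).2 _).2 (tt β).2⟩) (rr α * rr β) (by
      rw [Subgroup.coe_mul, Subgroup.coe_mul, Subgroup.coe_mul, map_mul, htr α, htr β]
      calc MulAut.conj (tt α : K) * (rr α).1 * (MulAut.conj (tt β : K) * (rr β).1)
          = MulAut.conj (tt α : K) * ((rr α).1 * MulAut.conj (tt β : K)) * (rr β).1 := by group
        _ = MulAut.conj (tt α : K) * (MulAut.conj ((rr α).1 (tt β)) * (rr α).1) * (rr β).1 := by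
            rw [hcomm _ (rr α).2]
        _ = MulAut.conj (tt α : K) * MulAut.conj ((rr α).1 (tt β)) * ((rr α).1 * (rr β).1) := by
            group)]
    rw [map_mul R]
    have h8 := h2 (rr α) (tt β) (tt β) ⟨(rr α).1 (tt β), (hR _ (rr α).2 _).2 (tt β).2⟩ rfl
    have h9 : D (((tt α * ⟨(rr α).1 (tt β), (hR _ (rr α).2 _).2 (tt β).2⟩ : T) : K),
        tt α * ⟨(rr α).1 (tt β), (hR _ (rr α).2 _).2 (tt β).2⟩) =
        D (tt α, tt α) * D ((rr α).1 (tt β), ⟨(rr α).1 (tt β), (hR _ (rr α).2 _).2 (tt β).2⟩) := by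
      rw [← map_mul]
      rfl
    rw [h9]
    calc D (tt α, tt α) * D ((rr α).1 (tt β), ⟨(rr α).1 (tt β), _⟩) * (R (rr α) * R (rr β))
        = D (tt α, tt α) * (D ((rr α).1 (tt β), ⟨(rr α).1 (tt β), _⟩) * R (rr α)) * R (rr β) := by
          simp only [Matrix.mul_assoc]
      _ = D (tt α, tt α) * (R (rr α) * D (tt β, tt β)) * R (rr β) := by rw [h8]
      _ = D (tt α, tt α) * R (rr α) * (D (tt β, tt β) * R (rr β)) := by
          simp only [Matrix.mul_assoc]
  · intro α k t t' ht
    show D (tt α, tt α) * R (rr α) * D (k, t) = D (α.1 k, t') * (D (tt α, tt α) * R (rr α))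
    have h8 := h2 (rr α) k t ⟨(rr α).1 t, (hR _ (rr α).2 _).2 t.2⟩ rfl
    have h9 : D (tt α, tt α) * D ((rr α).1 k, ⟨(rr α).1 t, (hR _ (rr α).2 _).2 t.2⟩) =
        D (α.1 k, t') * D (tt α, tt α) := by
      rw [← map_mul, ← map_mul]
      congr 1
      have h10 : ∀ x, α.1 x = (tt α : K) * (rr α).1 x * (tt α : K)⁻¹ := by
        intro x
        rw [htr α]
        simp [MulAut.mul_apply]
      ext
      · show (tt α : K) * (rr α).1 k = α.1 k * (tt α : K)
        rw [h10]; group
      · show (tt α : K) * (rr α).1 t = (t' : K) * (tt α : K)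
        rw [ht, h10]; group
    calc D (tt α, tt α) * R (rr α) * D (k, t)
        = D (tt α, tt α) * (R (rr α) * D (k, t)) := by rw [Matrix.mul_assoc]
      _ = D (tt α, tt α) * (D ((rr α).1 k, ⟨(rr α).1 t, (hR _ (rr α).2 _).2 t.2⟩) * R (rr α)) := by
          rw [h8]
      _ = (D (tt α, tt α) * D ((rr α).1 k, ⟨(rr α).1 t, (hR _ (rr α).2 _).2 t.2⟩)) * R (rr α) := by
          rw [Matrix.mul_assoc]
      _ = D (α.1 k, t') * (D (tt α, tt α) * R (rr α)) := by rw [h9, Matrix.mul_assoc]
  · intro α t ht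
    show D (tt α, tt α) * R (rr α) = D (t, t)
    rw [hwd α t 1 (by rw [ht]; simp), map_one, Matrix.mul_one]

end Pool.Agent.Helper42.IR.F
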