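import Pool.Agent.Helper42.INC.Red3

/-!
# IR-60 (project IR, section 5.2): actions of `p`-groups on groups fixing a character of degree prime to `p`

`Y : L → M_l(ℂ)` irreducible, `p ∤ l`, `R0` a `p`-group acting on `L` and fixing the character of `Y`.

`exists_plift`: for `r ∈ R0` the representation `x ↦ Y (a r x)` is irreducible with the same character as `Y`, so
there is an invertible `V r` with `V r * Y x = Y (a r x) * V r`, and it can be rescaled to `det (V r) = 1`
(`l > 0`). By Schur's lemma `V r * V s = c r s • V (r s)` with `c r s ^ l = 1`. With `u r = ∏ t, c r t` one has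
`c r s ^ |R0| * u (r s) = u r * u s`; as `|R0|` is prime to `l`, `c r s = (c r s ^ |R0|) ^ x` for an integer `x`,
so `W r = (u r ^ x)⁻¹ • V r` is multiplicative.

`plift_conj`: if `a r` is conjugation by `y`, where `y` has `p`-power order and `det (Y y) = 1`, then
`W r = Y y`: `Y y⁻¹ * W r` commutes with `Y`, so `W r = z Y y` with a scalar `z`; determinants: `z ^ l = 1`;
`W r` and `Y y` have `p`-power order (`R0` is a `p`-group), so `z ^ (p ^ k) = 1` for some `k`; hence `z = 1`.
-/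

namespace Pool.Agent.Helper42.IR.F

open Pool.Agent.Helper42.INC

variable {L R0 : Type} [Group L] [Finite L] [Group R0] [Finite R0] {p : ℕ} [Fact p.Prime]

/-- the representation on `Fin l → ℂ` -/
private noncomputable def repM {l : ℕ} (Y : L →* Matrix (Fin l) (Fin l) ℂ) :
    Representation ℂ L (Fin l → ℂ) :=
  { toFun := fun g => Matrix.toLin' (Y g)
    map_one' := by
      rw [map_one, Matrix.toLin'_one]
      rfl
    map_mul' := fun a b => by
      rw [map_mul, Matrix.toLin'_mul]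
      rfl }

omit [Finite L] in
private lemma repM_char {l : ℕ} (Y : L →* Matrix (Fin l) (Fin l) ℂ) :
    (repM Y).character = fun x => (Y x).trace := by
  funext g
  change LinearMap.trace ℂ (Fin l → ℂ) (Matrix.toLin' (Y g)) = (Y g).trace
  rw [Matrix.trace_toLin'_eq]

/-- a matrix form with the character of an irreducible representation is isomorphic to it -/
private lemma exists_iso {V : Type} [AddCommGroup V] [Module ℂ V] [FiniteDimensional ℂ V]
    (ρ : Representation ℂ L V) [hρ : ρ.IsIrreducible] {l : ℕ}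
    (Y : L →* Matrix (Fin l) (Fin l) ℂ) (h : (fun x => (Y x).trace) = ρ.character) :
    ∃ f : V ≃ₗ[ℂ] (Fin l → ℂ), ∀ x v, f (ρ x v) = Matrix.toLin' (Y x) (f v) := by
  have hfin := Fintype.ofFinite L
  have hirr : ρ.character ∈ Irr L := ⟨V, _, _, inferInstance, ρ, hρ, rfl⟩
  have h1 : Module.finrank ℂ (Representation.IntertwiningMap ρ (repM Y)) = 1 := by
    have h2 := B_irr_self hirr
    have h3 : B (repM Y).character ρ.character =
        (Module.finrank ℂ (Representation.IntertwiningMap ρ (repM Y)) : ℂ) := by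
      rw [← Representation.card_inv_mul_sum_char_mul_char_eq_finrank, B_eq]
    rw [repM_char, h, h2] at h3
    exact_mod_cast h3.symm
  have h4 : ∃ g : Representation.IntertwiningMap ρ (repM Y), g ≠ 0 := by
    by_contra hcon
    push Not at hcon
    have h5 : Subsingleton (Representation.IntertwiningMap ρ (repM Y)) :=
      ⟨fun a b => by rw [hcon a, hcon b]⟩
    rw [Module.finrank_zero_of_subsingleton] at h1
    exact zero_ne_one h1
  obtain ⟨g, hg⟩ := h4
  have hinj : Function.Injective g :=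
    (Representation.IsIrreducible.injective_or_eq_zero g).resolve_right hg
  have hdim : Module.finrank ℂ V = Module.finrank ℂ (Fin l → ℂ) := by
    have h6 := congrFun h 1
    simp only [map_one, Matrix.trace_one, Fintype.card_fin] at h6
    rw [Representation.char_one] at h6
    rw [Module.finrank_fin_fun]
    exact_mod_cast h6.symm
  refine ⟨LinearEquiv.ofInjectiveOfFinrankEq g.toLinearMap hinj hdim, fun x v => ?_⟩
  have h7 := g.isIntertwining' x
  exact congrFun (congrArg DFunLike.coe h7) v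

/-- two matrix forms of the same irreducible character are conjugate -/
private lemma exists_conj_mat {l : ℕ} (Y Y' : L →* Matrix (Fin l) (Fin l) ℂ)
    (hirr : (fun x => (Y x).trace) ∈ Irr L) (h : ∀ x, (Y' x).trace = (Y x).trace) :
    ∃ W : Matrix (Fin l) (Fin l) ℂ, (∀ x, W * Y x = Y' x * W) ∧ W.det ≠ 0 := by
  obtain ⟨V, _, _, _, ρ, hρ, hχ⟩ := hirr
  obtain ⟨f, hf⟩ := exists_iso ρ Y hχ
  obtain ⟨f', hf'⟩ := exists_iso ρ Y' (by rw [← hχ]; funext x; exact h x)
  refine ⟨LinearMap.toMatrix' (f'.toLinearMap ∘ₗ f.symm.toLinearMap), fun x => ?_, ?_⟩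
  · apply Matrix.toLin'.injective
    rw [Matrix.toLin'_mul, Matrix.toLin'_mul, Matrix.toLin'_toMatrix']
    refine LinearMap.ext (fun v => ?_)
    change f' (f.symm (Matrix.toLin' (Y x) v)) = Matrix.toLin' (Y' x) (f' (f.symm v))
    rw [← hf']
    congr 1
    rw [LinearEquiv.symm_apply_eq, hf, LinearEquiv.apply_symm_apply]
  · have h1 : LinearMap.toMatrix' (f'.toLinearMap ∘ₗ f.symm.toLinearMap) *
        LinearMap.toMatrix' (f.toLinearMap ∘ₗ f'.symm.toLinearMap) = 1 := by
      rw [← LinearMap.toMatrix'_comp]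
      have h2 : ((f'.toLinearMap ∘ₗ f.symm.toLinearMap) ∘ₗ
          (f.toLinearMap ∘ₗ f'.symm.toLinearMap)) = LinearMap.id := by
        refine LinearMap.ext (fun v => ?_)
        simp
      rw [h2, LinearMap.toMatrix'_id]
    intro h0
    have h3 := congrArg Matrix.det h1
    rw [Matrix.det_mul, h0, zero_mul, Matrix.det_one] at h3
    exact zero_ne_one h3

/-- Schur's lemma for a matrix form -/
private lemma schur_mat {l : ℕ} (Y : L →* Matrix (Fin l) (Fin l) ℂ)
    (hirr : (fun x => (Y x).trace) ∈ Irr L) (A : Matrix (Fin l) (Fin l) ℂ)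
    (hA : ∀ x, A * Y x = Y x * A) : ∃ c : ℂ, A = c • (1 : Matrix (Fin l) (Fin l) ℂ) := by
  obtain ⟨V, _, _, _, ρ, hρ, hχ⟩ := hirr
  obtain ⟨f, hf⟩ := exists_iso ρ Y hχ
  let T : V →ₗ[ℂ] V := f.symm.toLinearMap ∘ₗ Matrix.toLin' A ∘ₗ f.toLinearMap
  have hT : ∀ x, T ∘ₗ ρ x = ρ x ∘ₗ T := by
    intro x
    refine LinearMap.ext (fun v => ?_)
    change f.symm (Matrix.toLin' A (f (ρ x v))) = ρ x (f.symm (Matrix.toLin' A (f v)))
    rw [LinearEquiv.symm_apply_eq, hf, hf, LinearEquiv.apply_symm_apply]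
    have h1 := congrArg (fun M => Matrix.toLin' M (f v)) (hA x)
    simp only [Matrix.toLin'_mul] at h1
    exact h1
  obtain ⟨c, hc⟩ :=
    (Representation.IsIrreducible.algebraMap_intertwiningMap_bijective_of_isAlgClosed
      (ρ := ρ)).2 (⟨T, fun g => hT g⟩ : Representation.IntertwiningMap ρ ρ)
  have h1 : T = c • LinearMap.id := by
    have h2 : (⟨T, fun g => hT g⟩ : Representation.IntertwiningMap ρ ρ).toLinearMap =
        c • LinearMap.id := by
      rw [← hc]; rfl
    exact h2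
  refine ⟨c, ?_⟩
  apply Matrix.toLin'.injective
  rw [map_smul, Matrix.toLin'_one]
  refine LinearMap.ext (fun v => ?_)
  have h3 := congrFun (congrArg DFunLike.coe h1) (f.symm v)
  change f.symm (Matrix.toLin' A (f (f.symm v))) = c • f.symm v at h3
  rw [LinearEquiv.apply_symm_apply, LinearEquiv.symm_apply_eq, map_smul,
    LinearEquiv.apply_symm_apply] at h3
  exact h3

private lemma l_pos {l : ℕ} (Y : L →* Matrix (Fin l) (Fin l) ℂ)
    (hirr : (fun x => (Y x).trace) ∈ Irr L) : 0 < l := by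
  obtain ⟨m, hm, h1⟩ := irr_one hirr
  simp only [map_one, Matrix.trace_one, Fintype.card_fin] at h1
  have : l = m := by exact_mod_cast h1
  omega

theorem exists_plift (hR : IsPGroup p R0) (a : R0 →* MulAut L) {l : ℕ}
    (Y : L →* Matrix (Fin l) (Fin l) ℂ) (hirr : (fun x => (Y x).trace) ∈ Irr L) (hl : ¬ p ∣ l)
    (hinv : ∀ r x, (Y (a r x)).trace = (Y x).trace) :
    ∃ W : R0 →* Matrix (Fin l) (Fin l) ℂ, (∀ r x, W r * Y x = Y (a r x) * W r) ∧
      ∀ r, (W r).det = 1 := by
  classical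
  have hfin := Fintype.ofFinite R0
  have hl0 := l_pos Y hirr
  -- a choice of intertwiners of determinant one
  have hV : ∀ r : R0, ∃ V : Matrix (Fin l) (Fin l) ℂ,
      (∀ x, V * Y x = Y (a r x) * V) ∧ V.det = 1 := by
    intro r
    obtain ⟨V, hV1, hV2⟩ := exists_conj_mat Y (Y.comp (a r).toMonoidHom) hirr
      (fun x => hinv r x)
    obtain ⟨z, hz⟩ := IsAlgClosed.exists_pow_nat_eq (V.det)⁻¹ hl0
    refine ⟨z • V, fun x => ?_, ?_⟩
    · have h1 : V * Y x = Y (a r x) * V := hV1 x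
      rw [Matrix.smul_mul, h1, Matrix.mul_smul]
    · rw [Matrix.det_smul, Fintype.card_fin, hz, inv_mul_cancel₀ hV2]
  choose V hV1 hV2 using hV
  have hinvt : ∀ r, IsUnit (V r) := fun r => (Matrix.isUnit_iff_isUnit_det _).2 (by
    rw [hV2 r]; exact isUnit_one)
  -- two intertwiners for the same element differ by a scalar
  have hsc : ∀ r : R0, ∀ U : Matrix (Fin l) (Fin l) ℂ, (∀ x, U * Y x = Y (a r x) * U) →
      U.det = 1 → ∃ c : ℂ, U = c • V r ∧ c ^ l = 1 := by
    intro r U hU hUd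
    obtain ⟨v, hv⟩ := hinvt r
    have h1 : ∀ x, ((v⁻¹ : (Matrix (Fin l) (Fin l) ℂ)ˣ) : Matrix (Fin l) (Fin l) ℂ) * Y (a r x) =
        Y x * ((v⁻¹ : (Matrix (Fin l) (Fin l) ℂ)ˣ) : Matrix (Fin l) (Fin l) ℂ) := by
      intro x
      rw [Units.inv_mul_eq_iff_eq_mul, ← mul_assoc, Units.eq_mul_inv_iff_mul_eq, hv]
      exact (hV1 r x).symm
    obtain ⟨c, hc⟩ := schur_mat Y hirr
      (((v⁻¹ : (Matrix (Fin l) (Fin l) ℂ)ˣ) : Matrix (Fin l) (Fin l) ℂ) * U) (fun x => by
        rw [mul_assoc, hU x, ← mul_assoc, h1 x, mul_assoc])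
    have h2 : U = c • V r := by
      rw [Units.inv_mul_eq_iff_eq_mul, Matrix.mul_smul, mul_one, hv] at hc
      exact hc
    refine ⟨c, h2, ?_⟩
    have h3 := congrArg Matrix.det h2
    rw [Matrix.det_smul, hUd, hV2 r, mul_one, Fintype.card_fin] at h3
    exact h3.symm
  have hcc : ∀ r s : R0, ∃ c : ℂ, V r * V s = c • V (r * s) ∧ c ^ l = 1 := by
    intro r s
    refine hsc (r * s) (V r * V s) (fun x => ?_) ?_
    · rw [mul_assoc, hV1 s x, ← mul_assoc, hV1 r (a s x), mul_assoc, map_mul, MulAut.mul_apply]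
    · rw [Matrix.det_mul, hV2, hV2, mul_one]
  choose c hc1 hc2 using hcc
  have hc0 : ∀ r s, c r s ≠ 0 := fun r s h0 => by
    have h1 := hc2 r s
    rw [h0, zero_pow hl0.ne'] at h1
    exact zero_ne_one h1
  -- cocycle identity
  have hcoc : ∀ r s t, c r s * c (r * s) t = c s t * c r (s * t) := by
    intro r s t
    have h1 : V r * V s * V t = (c r s * c (r * s) t) • V (r * s * t) := by
      rw [hc1, Matrix.smul_mul, hc1, smul_smul]
    have h2 : V r * V s * V t = (c s t * c r (s * t)) • V (r * s * t) := by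
      rw [mul_assoc, hc1 s t, Matrix.mul_smul, hc1, smul_smul, mul_assoc]
    rw [h1] at h2
    have h3 : (c r s * c (r * s) t - c s t * c r (s * t)) • V (r * s * t) = 0 := by
      rw [sub_smul, h2, sub_self]
    rcases smul_eq_zero.1 h3 with h4 | h4
    · exact sub_eq_zero.1 h4
    · exfalso
      have h5 := hV2 (r * s * t)
      have : Nonempty (Fin l) := ⟨⟨0, hl0⟩⟩
      rw [h4, Matrix.det_zero] at h5
      exact zero_ne_one h5
  let u : R0 → ℂ := fun r => ∏ t, c r t
  have hu0 : ∀ r, u r ≠ 0 := fun r => Finset.prod_ne_zero_iff.2 (fun t _ => hc0 r t)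
  have hul : ∀ r, u r ^ l = 1 := fun r => by
    change (∏ t, c r t) ^ l = 1
    rw [← Finset.prod_pow]
    exact Finset.prod_eq_one (fun t _ => hc2 r t)
  have hN : ∀ r s, c r s ^ (Nat.card R0) * u (r * s) = u s * u r := by
    intro r s
    have h1 : ∏ t : R0, (c r s * c (r * s) t) = ∏ t : R0, (c s t * c r (s * t)) :=
      Finset.prod_congr rfl (fun t _ => hcoc r s t)
    rw [Finset.prod_mul_distrib, Finset.prod_mul_distrib, Finset.prod_const,
      Finset.card_univ, ← Nat.card_eq_fintype_card] at h1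
    have h2 : ∏ t : R0, c r (s * t) = ∏ t : R0, c r t :=
      Equiv.prod_comp (Equiv.mulLeft s) (fun t => c r t)
    rw [h2] at h1
    exact h1
  have hcop : Nat.Coprime (Nat.card R0) l := by
    obtain ⟨k, hk⟩ := IsPGroup.iff_card.1 hR
    rw [hk]
    exact Nat.Coprime.pow_left _ ((Nat.Prime.coprime_iff_not_dvd Fact.out).2 hl)
  -- the exponent
  obtain ⟨x, y, hxy⟩ : ∃ x y : ℤ, (Nat.card R0 : ℤ) * x + (l : ℤ) * y = 1 := by
    refine ⟨Nat.gcdA (Nat.card R0) l, Nat.gcdB (Nat.card R0) l, ?_⟩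
    rw [← Nat.gcd_eq_gcd_ab, hcop.gcd_eq_one]
    rfl
  have hcx : ∀ r s, (c r s ^ (Nat.card R0)) ^ x = c r s := by
    intro r s
    have h1 : c r s ^ ((Nat.card R0 : ℤ) * x + (l : ℤ) * y) = c r s := by rw [hxy, zpow_one]
    rw [zpow_add₀ (hc0 r s), zpow_mul, zpow_mul, zpow_natCast, zpow_natCast, hc2, one_zpow,
      mul_one] at h1
    exact h1
  let W : R0 → Matrix (Fin l) (Fin l) ℂ := fun r => (u r ^ x)⁻¹ • V r
  have hWd : ∀ r, (W r).det = 1 := by
    intro r
    change ((u r ^ x)⁻¹ • V r).det = 1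
    rw [Matrix.det_smul, hV2, mul_one, Fintype.card_fin, inv_pow]
    have h1 : (u r ^ x) ^ l = 1 := by
      rw [← zpow_natCast, ← zpow_mul, mul_comm, zpow_mul, zpow_natCast, hul, one_zpow]
    rw [h1, inv_one]
  have hWm : ∀ r s, W (r * s) = W r * W s := by
    intro r s
    change (u (r * s) ^ x)⁻¹ • V (r * s) = ((u r ^ x)⁻¹ • V r) * ((u s ^ x)⁻¹ • V s)
    rw [Matrix.smul_mul, Matrix.mul_smul, hc1, smul_smul, smul_smul]
    congr 1
    have h1 : c r s * u (r * s) ^ x = u s ^ x * u r ^ x := by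
      rw [← mul_zpow, ← hN r s, mul_zpow, hcx]
    have h2 : u (r * s) ^ x ≠ 0 := zpow_ne_zero _ (hu0 _)
    have h3 : u r ^ x ≠ 0 := zpow_ne_zero _ (hu0 _)
    have h4 : u s ^ x ≠ 0 := zpow_ne_zero _ (hu0 _)
    field_simp
    rw [mul_comm (u s ^ x)] at h1
    first
      | exact h1.symm
      | (rw [← h1]; ring)
      | (rw [← h1])
  have hW1 : W 1 = 1 := by
    have h1 := hWm 1 1
    rw [mul_one] at h1
    have h2 : IsUnit (W 1) := (Matrix.isUnit_iff_isUnit_det _).2 (by rw [hWd]; exact isUnit_one)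
    have h3 : W 1 * W 1 = W 1 * 1 := by rw [mul_one]; exact h1.symm
    exact h2.mul_left_cancel h3
  refine ⟨{ toFun := W, map_one' := hW1, map_mul' := hWm }, fun r x => ?_, hWd⟩
  change ((u r ^ _)⁻¹ • V r) * Y x = Y (a r x) * ((u r ^ _)⁻¹ • V r)
  rw [Matrix.smul_mul, hV1, Matrix.mul_smul]

theorem plift_conj (hR : IsPGroup p R0) (a : R0 →* MulAut L) {l : ℕ}
    (Y : L →* Matrix (Fin l) (Fin l) ℂ) (hirr : (fun x => (Y x).trace) ∈ Irr L) (hl : ¬ p ∣ l)
    (W : R0 →* Matrix (Fin l) (Fin l) ℂ) (hW : ∀ r x, W r * Y x = Y (a r x) * W r)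
    (hdet : ∀ r, (W r).det = 1) (r : R0) (y : L) (hy : ∃ k : ℕ, y ^ p ^ k = 1)
    (hyd : (Y y).det = 1) (hr : a r = MulAut.conj y) : W r = Y y := by
  obtain ⟨z, hz⟩ := schur_mat Y hirr (Y y⁻¹ * W r) (fun x => by
    rw [mul_assoc, hW r x, ← mul_assoc, hr, MulAut.conj_apply, ← map_mul, ← mul_assoc (Y x),
      ← map_mul]
    congr 2
    group)
  have h1 : W r = z • Y y := by
    have h2 := congrArg (fun M => Y y * M) hz
    simp only [← mul_assoc, ← map_mul, mul_inv_cancel, map_one, one_mul, Matrix.mul_smul,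
      mul_one] at h2
    exact h2
  have hzl : z ^ l = 1 := by
    have h3 := congrArg Matrix.det h1
    rw [Matrix.det_smul, hdet, hyd, mul_one, Fintype.card_fin] at h3
    exact h3.symm
  obtain ⟨k, hk⟩ := hy
  obtain ⟨j, hj⟩ := hR r
  have hl0 := l_pos Y hirr
  have hzp : z ^ p ^ (k + j) = 1 := by
    have h4 : (W r) ^ p ^ (k + j) = 1 := by
      rw [← map_pow, pow_add p, mul_comm, pow_mul, hj, one_pow, map_one]
    have h5 : (Y y) ^ p ^ (k + j) = 1 := by
      rw [← map_pow, pow_add p, pow_mul, hk, one_pow, map_one]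
    rw [h1, smul_pow, h5] at h4
    have h6 := congrFun (congrFun h4 ⟨0, hl0⟩) ⟨0, hl0⟩
    simpa using h6
  have hcop : Nat.Coprime (p ^ (k + j)) l :=
    Nat.Coprime.pow_left _ ((Nat.Prime.coprime_iff_not_dvd Fact.out).2 hl)
  have hz1 : z = 1 := by
    have h7 : orderOf z ∣ Nat.gcd (p ^ (k + j)) l :=
      Nat.dvd_gcd (orderOf_dvd_of_pow_eq_one hzp) (orderOf_dvd_of_pow_eq_one hzl)
    rw [hcop.gcd_eq_one, Nat.dvd_one, orderOf_eq_one_iff] at h7
    exact h7
  rw [h1, hz1, one_smul]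

end Pool.Agent.Helper42.IR.F
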