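import Pool.Agent.Helper42.IR.F.CovE
import Pool.Agent.Helper42.IR.F.ROne
import Pool.Agent.Helper42.IR.PkgTop

/-!
# IR-57 (project IR, section 5.2): matched characters, groups of automorphisms of order prime to `p`

`matched_pprime`: `X` a matrix representation affording `θ` (choose a basis; `m = deg θ`, prime to `p`),
`exists_cover` for `a = R0.subtype`, `cover_lemmaE`, `matched_of_cover` (`NN ⊤ Q = ⊤ ⊓ normalizer Q`;
`φ t = F θ t`). `MulAut K` is finite.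

`agree`: from `matched_pprime` for `R0 = ⊥`: for `z ∈ Z(K)` (so `z ∈ T`), `conj z = 1`, so
`D (z, z) = R 1 = 1`; `z` acts as a scalar `u` on `θ` and `w` on `φ` (`z` is central in `K` and in `T`), and
the trace of `D (z, z)` is `u θ(1) w⁻¹ φ(1)`; so `u = w`.
-/

namespace Pool.Agent.Helper42.IR.F

open Pool.Agent.Helper42.INC Pool.Agent.Helper42.IR

variable {K : Type} [Group K] [Finite K] {p : ℕ} [Fact p.Prime] {Q H : Subgroup K}

omit [Finite K] in
/-- matrix form of an irreducible character -/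
private lemma exists_matrix {χ : K → ℂ} (h : χ ∈ Irr K) :
    ∃ (m : ℕ) (X : K →* Matrix (Fin m) (Fin m) ℂ), (∀ k, (X k).trace = χ k) ∧ χ 1 = m := by
  obtain ⟨V, _, _, _, ρ, -, rfl⟩ := h
  let b := Module.finBasis ℂ V
  refine ⟨Module.finrank ℂ V,
    (LinearMap.toMatrixAlgEquiv b : (V →ₗ[ℂ] V) →* _).comp ρ, fun k => ?_, ?_⟩
  · rw [Representation.character, LinearMap.trace_eq_matrix_trace ℂ b]
    rfl
  · rw [Representation.char_one]

omit [Finite K] [Fact p.Prime] in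
private lemma irr_normalizer {f : K → ℂ} (h : f ∈ IrrS (NN (⊤ : Subgroup K) Q)) :
    (fun t : Subgroup.normalizer (Q : Set K) => f t) ∈ Irr _ := by
  have e : NN (⊤ : Subgroup K) Q = Subgroup.normalizer (Q : Set K) := by
    unfold NN
    exact top_inf_eq _
  exact irr_comp (MulEquiv.subgroupCongr e.symm) h.1

theorem matched_pprime (hp2 : p ≠ 2) (hL : Loc p (⊤ : Subgroup K) Q H)
    (hperf : ⁅(⊤ : Subgroup K), (⊤ : Subgroup K)⁆ = ⊤)
    (hz : ¬ p ∣ Nat.card (Subgroup.center K)) {F : (K → ℂ) → (K → ℂ)} (hF : CoreC p Q H F)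
    {θ : K → ℂ} (hθ : θ ∈ IrrSP p (⊤ : Subgroup K)) (R0 : Subgroup (MulAut K))
    (hR : ¬ p ∣ Nat.card R0) (hQ : ∀ r ∈ R0, ∀ x, r x ∈ Q ↔ x ∈ Q)
    (hinv : ∀ r ∈ R0, ∀ k, θ (r k) = θ k) :
    MatchedOn (Subgroup.normalizer (Q : Set K)) θ (fun t => F θ t) R0 := by
  have hθI : θ ∈ Irr K := mem_irrS_top.1 hθ.1
  obtain ⟨m, X, hX, hm⟩ := exists_matrix hθI
  have hpm : ¬ p ∣ m := by
    have h := hθ.2
    rwa [deg_eq hm] at h
  have hfin : Finite (MulAut K) := inferInstance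
  have hinv' : ∀ (r : R0) (k : K), θ (R0.subtype r k) = θ k := fun r k => hinv r.1 r.2 k
  have hQ' : ∀ (r : R0) (x : K), R0.subtype r x ∈ Q ↔ x ∈ Q := fun r x => hQ r.1 r.2 x
  obtain ⟨C, _, _, ι, τ, Z, hι, hτ, -, hconj, hZX, hidx⟩ :=
    exists_cover R0.subtype X hθI hX hperf hinv' (p := p) hR hpm
  have hZ : ∀ k, (Z (ι k)).trace = θ k := fun k => by rw [hZX, hX]
  obtain ⟨ψh, hψh, hres, hsc⟩ := cover_lemmaE hp2 hL hz hF R0.subtype hQ' hθ hinv' ι τ Z hι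
    hconj hZ hidx
  refine matched_of_cover R0 hQ hθI (irr_normalizer (hF.bij.mapsTo hθ).1) ι τ Z hι hτ hconj hZ
    hψh (fun t => ?_) hsc
  exact hres t ⟨Subgroup.mem_top _, t.2⟩

theorem agree (hp2 : p ≠ 2) (hL : Loc p (⊤ : Subgroup K) Q H)
    (hperf : ⁅(⊤ : Subgroup K), (⊤ : Subgroup K)⁆ = ⊤)
    (hz : ¬ p ∣ Nat.card (Subgroup.center K)) {F : (K → ℂ) → (K → ℂ)} (hF : CoreC p Q H F)
    {θ : K → ℂ} (hθ : θ ∈ IrrSP p (⊤ : Subgroup K)) {z : K} (hzK : z ∈ Subgroup.center K) :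
    θ z * F θ 1 = θ 1 * F θ z := by
  have hp : p.Prime := Fact.out
  obtain ⟨d, D, R, h1, -, h3⟩ := matched_pprime hp2 hL hperf hz hF hθ (⊥ : Subgroup (MulAut K))
    (by rw [Subgroup.card_bot]; exact hp.one_lt.ne' ∘ Nat.dvd_one.1)
    (by intro r hr x; rw [Subgroup.mem_bot.1 hr]; rfl)
    (by intro r hr k; rw [Subgroup.mem_bot.1 hr]; rfl)
  have hzc : ∀ x, x * z = z * x := Subgroup.mem_center_iff.1 hzK
  have hzN : z ∈ Subgroup.normalizer (Q : Set K) := by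
    rw [Subgroup.mem_normalizer_iff]
    intro x
    have : z * x * z⁻¹ = x := by rw [← hzc x]; group
    rw [this]
  have hD : D (z, ⟨z, hzN⟩) = 1 := by
    have h4 := h3 1 ⟨z, hzN⟩ (by
      ext x
      change x = z * x * z⁻¹
      rw [← hzc x]; group)
    rw [← h4, map_one]
  have e1 : D (z, 1) = D (1, (⟨z, hzN⟩ : Subgroup.normalizer (Q : Set K))⁻¹) * D (z, ⟨z, hzN⟩) := by
    rw [← map_mul]
    congr 1
    ext <;> simp
  have e2 := congrArg Matrix.trace e1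
  rw [hD, mul_one, h1, h1] at e2
  simpa using e2

end Pool.Agent.Helper42.IR.F
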