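import Pool.Agent.Helper42.IR.Defs

/-!
# IR-51 (project IR, section 5.2): extension by zero along an injective homomorphism

`ι : K → G` injective, `ez ι f` is the function on `G` with `ez ι f (ι k) = f k`, zero off the range.
* `ez_irrS`: for `L ≤ K`, `L.map ι` is isomorphic to `L` (`irr_comp` in INC/Basic), and `ez ι f`
  vanishes off `L.map ι` iff `f` vanishes off `L`.
* `irrS_map`: every `f ∈ IrrS (L.map ι)` vanishes off the range: `f' = f ∘ ι`.
* `cnj_ez`: if conjugation by `g` on the range of `ι` is `ι k ↦ ι (α k)`, then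
  `cnj g (ez ι f) (ι k) = ez ι f (g⁻¹ ι k g) = f (α⁻¹ k)`, and `g` preserves the complement of the range.
* `aa_ez`: reindex the two sums along the bijections `Q ≃ Q.map ι`, `H ≃ H.map ι`.
-/

namespace Pool.Agent.Helper42.IR.F

open Pool.Agent.Helper42.INC Pool.Agent.Helper42.IR

variable {K G : Type} [Group K] [Group G]

open Classical in
/-- extension by zero along an injective homomorphism -/
noncomputable def ez (ι : K →* G) (f : K → ℂ) : G → ℂ :=
  fun g => if h : ∃ k, ι k = g then f h.choose else 0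

theorem ez_off (ι : K →* G) (f : K → ℂ) {g : G} (hg : g ∉ ι.range) : ez ι f g = 0 := by
  unfold ez
  exact dif_neg hg

variable {ι : K →* G} (hι : Function.Injective ι)
include hι

theorem ez_apply (f : K → ℂ) (k : K) : ez ι f (ι k) = f k := by
  have h : ∃ k', ι k' = ι k := ⟨k, rfl⟩
  unfold ez
  rw [dif_pos h]
  congr 1
  exact hι h.choose_spec

theorem ez_inj {f f' : K → ℂ} (h : ez ι f = ez ι f') : f = f' := by
  funext k
  rw [← ez_apply hι f k, h, ez_apply hι f' k]

theorem ez_irrS {L : Subgroup K} {f : K → ℂ} : ez ι f ∈ IrrS (L.map ι) ↔ f ∈ IrrS L := by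
  let e : L ≃* L.map ι := L.equivMapOfInjective ι hι
  have he : ∀ x : L, ((e x : L.map ι) : G) = ι x := fun x => rfl
  constructor
  · rintro ⟨h1, h2⟩
    refine ⟨?_, fun x hx => ?_⟩
    · have h3 := irr_comp e h1
      have h4 : (fun x : L => ez ι f ((e x : L.map ι) : G)) = fun x : L => f x := by
        funext x
        rw [he, ez_apply hι]
      rwa [h4] at h3
    · have h3 : ι x ∉ L.map ι := by
        rintro ⟨y, hy, hyx⟩
        exact hx (hι hyx ▸ hy)
      rw [← ez_apply hι f x]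
      exact h2 _ h3
  · rintro ⟨h1, h2⟩
    refine ⟨?_, fun x hx => ?_⟩
    · have h3 := irr_comp e.symm h1
      have h4 : (fun x : L.map ι => f ((e.symm x : L) : K)) = fun x : L.map ι => ez ι f x := by
        funext x
        obtain ⟨y, rfl⟩ := e.surjective x
        rw [e.symm_apply_apply, he, ez_apply hι]
      rwa [h4] at h3
    · by_cases hr : x ∈ ι.range
      · obtain ⟨k, rfl⟩ := hr
        rw [ez_apply hι]
        exact h2 k fun hk => hx ⟨k, hk, rfl⟩
      · exact ez_off ι f hr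

theorem irrS_map {L : Subgroup K} {f : G → ℂ} (hf : f ∈ IrrS (L.map ι)) :
    ∃ f' ∈ IrrS L, f = ez ι f' := by
  have h1 : f = ez ι (fun k => f (ι k)) := by
    funext g
    by_cases hr : g ∈ ι.range
    · obtain ⟨k, rfl⟩ := hr
      rw [ez_apply hι]
    · rw [ez_off ι _ hr]
      refine hf.2 g fun hg => hr ?_
      obtain ⟨y, -, hy⟩ := hg
      exact ⟨y, hy⟩
  refine ⟨fun k => f (ι k), ?_, h1⟩
  rw [h1] at hf
  exact (ez_irrS hι).1 hf

theorem deg_ez (f : K → ℂ) : deg (ez ι f) = deg f := by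
  have h := ez_apply hι f 1
  rw [map_one] at h
  unfold deg
  rw [h]

theorem cnj_ez {g : G} {α : MulAut K} (hg : ∀ k, g * ι k * g⁻¹ = ι (α k)) (f : K → ℂ) :
    cnj g (ez ι f) = ez ι (fun k => f (α⁻¹ k)) := by
  funext x
  rw [cnj_apply]
  by_cases hr : x ∈ ι.range
  · obtain ⟨k, rfl⟩ := hr
    have h1 := hg (α⁻¹ k)
    rw [MulAut.apply_inv_self] at h1
    have h2 : g⁻¹ * ι k * g = ι (α⁻¹ k) := by
      rw [← h1]
      group
    rw [h2, ez_apply hι, ez_apply hι]
  · rw [ez_off ι _ hr, ez_off ι]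
    rintro ⟨k, hk⟩
    apply hr
    refine ⟨α k, ?_⟩
    rw [← hg k, hk]
    group

theorem oneS_ez (Q : Subgroup K) : oneS (Q.map ι) = ez ι (oneS Q) := by
  classical
  funext x
  by_cases hr : x ∈ ι.range
  · obtain ⟨k, rfl⟩ := hr
    rw [ez_apply hι]
    unfold oneS
    by_cases hk : k ∈ Q
    · rw [if_pos hk, if_pos (Subgroup.mem_map_of_mem ι hk)]
    · rw [if_neg hk, if_neg]
      rintro ⟨y, hy, hyk⟩
      exact hk (hι hyk ▸ hy)
  · rw [ez_off ι _ hr]
    unfold oneS
    rw [if_neg]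
    rintro ⟨y, -, hy⟩
    exact hr ⟨y, hy⟩

theorem aa_ez (Q H : Subgroup K) (χ lam φ : K → ℂ) :
    aa (Q.map ι) (H.map ι) (ez ι χ) (ez ι lam) (ez ι φ) = aa Q H χ lam φ := by
  let eQ : Q ≃* Q.map ι := Q.equivMapOfInjective ι hι
  let eH : H ≃* H.map ι := H.equivMapOfInjective ι hι
  have heQ : ∀ x : Q, ((eQ x : Q.map ι) : G) = ι x := fun x => rfl
  have heH : ∀ x : H, ((eH x : H.map ι) : G) = ι x := fun x => rfl
  unfold aa
  rw [← Nat.card_congr eQ.toEquiv, ← Nat.card_congr eH.toEquiv]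
  congr 1
  rw [← finsum_comp_equiv eQ.toEquiv]
  refine finsum_congr fun x => ?_
  rw [← finsum_comp_equiv eH.toEquiv]
  refine finsum_congr fun h => ?_
  change ez ι χ (((eQ x : Q.map ι) : G) * ((eH h : H.map ι) : G)) *
    (ez ι lam (((eQ x : Q.map ι) : G))⁻¹ - 1) * ez ι φ (((eH h : H.map ι) : G))⁻¹ = _
  rw [heQ, heH, ← map_mul, ← map_inv, ← map_inv, ez_apply hι, ez_apply hι, ez_apply hι]

end Pool.Agent.Helper42.IR.F
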