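import Pool.Agent.Helper42.IR.F.Pull
import Pool.Agent.Helper42.IR.Typ

/-!
# IR-52 (project IR, section 5.2): transport of the local structure along an injective homomorphism

`NN ι.range (Q.map ι) = ι.range ⊓ normalizer (Q.map ι)` is the image of `normalizer Q`.
`loc_map`: orders are preserved, `ι.range ⊓ centralizer (Q.map ι) = (centralizer Q).map ι`.
`bl_ez`, `typ_ez`: by `irrS_map`, `aa_ez`, `oneS_ez`; for `n = ι k`: `cnj n (ez ι f) = ez ι (cnj k f)`
(`cnj_ez` with `α = MulAut.conj k`) and `ez_inj`; in the second alternative of `Typ` the condition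
`ψ (x n) = ψ n` for `x ∈ Q`, `n ∈ NN` is transported by `ez_apply`.
-/

namespace Pool.Agent.Helper42.IR.F

open Pool.Agent.Helper42.INC Pool.Agent.Helper42.IR

variable {K G : Type} [Group K] [Group G] {ι : K →* G} (hι : Function.Injective ι)
include hι

theorem NN_map (Q : Subgroup K) :
    NN ι.range (Q.map ι) = (NN (⊤ : Subgroup K) Q).map ι := by
  have hmem : ∀ x : K, ι x ∈ Q.map ι ↔ x ∈ Q := fun x =>
    Subgroup.mem_map_iff_mem hι
  ext g
  constructor
  · rintro ⟨⟨k, rfl⟩, h⟩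
    refine ⟨k, ⟨Subgroup.mem_top k, ?_⟩, rfl⟩
    change ι k ∈ Subgroup.normalizer ((Q.map ι : Subgroup G) : Set G) at h
    rw [Subgroup.mem_normalizer_iff] at h
    change k ∈ Subgroup.normalizer (Q : Set K)
    rw [Subgroup.mem_normalizer_iff]
    intro x
    have h1 := h (ι x)
    rw [hmem] at h1
    rw [h1, ← map_inv, ← map_mul, ← map_mul, hmem]
  · rintro ⟨k, ⟨-, h⟩, rfl⟩
    refine ⟨⟨k, rfl⟩, ?_⟩
    change k ∈ Subgroup.normalizer (Q : Set K) at h
    rw [Subgroup.mem_normalizer_iff] at h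
    change ι k ∈ Subgroup.normalizer ((Q.map ι : Subgroup G) : Set G)
    rw [Subgroup.mem_normalizer_iff]
    intro y
    constructor
    · rintro ⟨x, hx, rfl⟩
      rw [← map_inv, ← map_mul, ← map_mul, hmem]
      exact (h x).1 hx
    · rintro ⟨x, hx, hxy⟩
      have h2 : y = ι (k⁻¹ * x * k) := by
        rw [map_mul, map_mul, hxy, map_inv]
        group
      rw [h2, hmem, h]
      have h3 : k * (k⁻¹ * x * k) * k⁻¹ = x := by group
      rw [h3]
      exact hx

theorem centralizer_map (Q : Subgroup K) :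
    ι.range ⊓ Subgroup.centralizer ((Q.map ι : Subgroup G) : Set G) =
      ((⊤ : Subgroup K) ⊓ Subgroup.centralizer (Q : Set K)).map ι := by
  ext g
  constructor
  · rintro ⟨⟨k, rfl⟩, h⟩
    refine ⟨k, ⟨Subgroup.mem_top k, ?_⟩, rfl⟩
    change ι k ∈ Subgroup.centralizer ((Q.map ι : Subgroup G) : Set G) at h
    rw [Subgroup.mem_centralizer_iff] at h
    change k ∈ Subgroup.centralizer (Q : Set K)
    rw [Subgroup.mem_centralizer_iff]
    intro x hx
    apply hι
    rw [map_mul, map_mul]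
    exact h (ι x) ⟨x, hx, rfl⟩
  · rintro ⟨k, ⟨-, h⟩, rfl⟩
    refine ⟨⟨k, rfl⟩, ?_⟩
    change k ∈ Subgroup.centralizer (Q : Set K) at h
    rw [Subgroup.mem_centralizer_iff] at h
    change ι k ∈ Subgroup.centralizer ((Q.map ι : Subgroup G) : Set G)
    rw [Subgroup.mem_centralizer_iff]
    rintro _ ⟨x, hx, rfl⟩
    rw [← map_mul, ← map_mul, h x hx]

theorem loc_map {p : ℕ} [Finite K] {Q H : Subgroup K} :
    Loc p ι.range (Q.map ι) (H.map ι) ↔ Loc p (⊤ : Subgroup K) Q H := by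
  have hcard : ∀ L : Subgroup K, Nat.card (L.map ι) = Nat.card L := fun L =>
    (Nat.card_congr (L.equivMapOfInjective ι hι).toEquiv).symm
  have hr : ι.range = (⊤ : Subgroup K).map ι := MonoidHom.range_eq_map ι
  have hcen := centralizer_map hι Q
  constructor
  · intro h
    refine ⟨?_, le_top, ?_, ?_, ?_, ?_⟩
    · have := h.pp
      rwa [hr, hcard] at this
    · rw [← hcard]
      exact h.cQ
    · have := h.HC
      rwa [hcen, Subgroup.map_le_map_iff_of_injective hι] at this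
    · rw [← hcard]
      exact h.pH
    · have := h.sup
      rw [hcen, ← Subgroup.map_sup] at this
      exact Subgroup.map_injective hι this
  · intro h
    refine ⟨?_, ?_, ?_, ?_, ?_, ?_⟩
    · rw [hr, hcard]
      exact h.pp
    · rw [hr]
      exact Subgroup.map_mono le_top
    · rw [hcard]
      exact h.cQ
    · rw [hcen, Subgroup.map_le_map_iff_of_injective hι]
      exact h.HC
    · rw [hcard]
      exact h.pH
    · rw [hcen, ← Subgroup.map_sup, h.sup]

theorem cnj_ez_conj (k : K) (f : K → ℂ) : cnj (ι k) (ez ι f) = ez ι (cnj k f) := by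
  rw [cnj_ez hι (g := ι k) (α := MulAut.conj k) (fun k' => by
    rw [MulAut.conj_apply, map_mul, map_mul, map_inv])]
  congr 1

theorem bl_ez {Q H : Subgroup K} {χ φ : K → ℂ} :
    Bl (Q.map ι) (H.map ι) (ez ι χ) (ez ι φ) ↔ Bl Q H χ φ := by
  constructor
  · rintro ⟨lam, hlam, h⟩
    obtain ⟨lam', hlam', rfl⟩ := irrS_map hι hlam
    rw [aa_ez hι] at h
    exact ⟨lam', hlam', h⟩
  · rintro ⟨lam, hlam, h⟩
    refine ⟨ez ι lam, (ez_irrS hι).2 hlam, ?_⟩
    rw [aa_ez hι]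
    exact h

theorem ne_oneS_ez {Q : Subgroup K} {lam : K → ℂ} :
    ez ι lam ≠ oneS (Q.map ι) ↔ lam ≠ oneS Q := by
  rw [oneS_ez hι]
  constructor
  · intro h h1
    exact h (by rw [h1])
  · intro h h1
    exact h (ez_inj hι h1)

theorem conj_ez {Q : Subgroup K} {φ l0 lam : K → ℂ} :
    (∃ n ∈ NN ι.range (Q.map ι), cnj n (ez ι φ) = ez ι φ ∧ cnj n (ez ι l0) = ez ι lam) ↔
      ∃ n ∈ NN (⊤ : Subgroup K) Q, cnj n φ = φ ∧ cnj n l0 = lam := by
  rw [NN_map hι]
  constructor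
  · rintro ⟨_, ⟨k, hk, rfl⟩, h1, h2⟩
    rw [cnj_ez_conj hι] at h1 h2
    exact ⟨k, hk, ez_inj hι h1, ez_inj hι h2⟩
  · rintro ⟨k, hk, h1, h2⟩
    refine ⟨ι k, ⟨k, hk, rfl⟩, ?_, ?_⟩
    · rw [cnj_ez_conj hι, h1]
    · rw [cnj_ez_conj hι, h2]

theorem ex_ez {Q H : Subgroup K} {ψ φ l0 : K → ℂ} {ε : ℂ} :
    EX ι.range (Q.map ι) (H.map ι) (ez ι ψ) (ez ι φ) (ez ι l0) ε ↔
      EX (⊤ : Subgroup K) Q H ψ φ l0 ε := by
  constructor
  · intro h lam hlam hne
    have h1 := h (ez ι lam) ((ez_irrS hι).2 hlam) ((ne_oneS_ez hι).2 hne)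
    rw [conj_ez hι, aa_ez hι] at h1
    exact h1
  · intro h lam hlam hne
    obtain ⟨lam', hlam', rfl⟩ := irrS_map hι hlam
    rw [conj_ez hι, aa_ez hι]
    exact h lam' hlam' ((ne_oneS_ez hι).1 hne)

theorem typ_ez {Q H : Subgroup K} {χ ψ φ : K → ℂ} :
    Typ ι.range (Q.map ι) (H.map ι) (ez ι χ) (ez ι ψ) (ez ι φ) ↔
      Typ (⊤ : Subgroup K) Q H χ ψ φ := by
  unfold Typ
  refine or_congr ?_ (and_congr ?_ ?_)
  · constructor
    · rintro ⟨l0, hl0, h1, h2, h3⟩
      obtain ⟨l0', hl0', rfl⟩ := irrS_map hι hl0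
      rw [aa_ez hι] at h3
      exact ⟨l0', hl0', (ne_oneS_ez hι).1 h1, (ex_ez hι).1 h2, h3⟩
    · rintro ⟨l0, hl0, h1, h2, h3⟩
      refine ⟨ez ι l0, (ez_irrS hι).2 hl0, (ne_oneS_ez hι).2 h1, (ex_ez hι).2 h2, ?_⟩
      rw [aa_ez hι]
      exact h3
  · rw [NN_map hι]
    constructor
    · intro h x hx n hn
      have h1 := h (ι x) ⟨x, hx, rfl⟩ (ι n) ⟨n, hn, rfl⟩
      rwa [← map_mul, ez_apply hι, ez_apply hι] at h1
    · rintro h _ ⟨x, hx, rfl⟩ _ ⟨n, hn, rfl⟩
      rw [← map_mul, ez_apply hι, ez_apply hι]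
      exact h x hx n hn
  · constructor
    · intro h lam hlam hne
      have h1 := h (ez ι lam) ((ez_irrS hι).2 hlam) ((ne_oneS_ez hι).2 hne)
      rwa [aa_ez hι] at h1
    · intro h lam hlam hne
      obtain ⟨lam', hlam', rfl⟩ := irrS_map hι hlam
      rw [aa_ez hι]
      exact h lam' hlam' ((ne_oneS_ez hι).1 hne)

end Pool.Agent.Helper42.IR.F
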